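import Pool.Agent.H86.RB.BDefs

/-!
# The facings of the bands

A facing is a Boolean: a band with facing `true` has a right edge oriented upwards and a left edge oriented downwards.
The half plane has facing `true`.
-/

set_option autoImplicit false

namespace Pool.Agent.H86.RT

open Pool.Agent.H86.RB

/-- number of new names of a slice -/
def bq0 (s : Bd) : ℕ := births [s] + passes [s]

/-- the facings above a slice; `b` is the facing of a band that is born -/
def fs1 : Bd → Bool → List Bool → List Bool
  | .birth j, b, φ => φ.take (j + 1) ++ b :: φ.drop (j + 1)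
  | .death j, _, φ => φ.take (j + 1) ++ φ.drop (j + 2)
  | .split j, _, φ => φ.take (j + 1) ++ φ.drop j
  | .merge j, _, φ => φ.take (j + 1) ++ φ.drop (j + 2)
  | .twist _ j, _, φ => φ.take (j + 1) ++ (!(φ.getD (j + 1) true)) :: φ.drop (j + 2)
  | .cross _ j, _, φ => φ.take (j + 1) ++ φ.getD (j + 2) true :: φ.getD (j + 1) true :: φ.drop (j + 3)
  | .passR _ j, _, φ => φ.take (j + 1) ++ φ.getD (j + 2) true :: φ.getD (j + 1) true :: φ.drop (j + 3)
  | .passL _ j, _, φ => φ.take (j + 1) ++ φ.getD (j + 2) true :: φ.getD (j + 1) true :: φ.drop (j + 3)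

/-- two bands that merge have the same facing -/
def ok1 : Bd → List Bool → Prop
  | .merge j, φ => φ.getD j true = φ.getD (j + 1) true
  | _, _ => True

/-- the flag of the row of a slice: at a pass, `true` if the strands of the passing band are multiplied by `T`,
`false` if they are multiplied by the inverse of `T` -/
def fg1 : Bd → List Bool → List Bool
  | .merge _, _ => [true]
  | .passR p j, φ => [if p then !(φ.getD (j + 2) true) else φ.getD (j + 2) true]
  | .passL p j, φ => [if p then φ.getD (j + 1) true else !(φ.getD (j + 1) true)]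
  | _, _ => []

/-- the orientation of the left strand of the cup of a slice -/
def os1 : Bd → Bool → List Bool → List Bool
  | .birth _, b, _ => [!b]
  | .split j, _, φ => [φ.getD j true]
  | _, _, _ => []

/-- facings above a list of slices; `x k` is the facing of the piece `k` at its birth -/
def fss : List Bd → ℕ → (ℕ → Bool) → List Bool → List Bool
  | [], _, _, φ => φ
  | s :: S, k, x, φ => fss S (k + bq0 s) x (fs1 s (x k) φ)

/-- the facings are consistent -/
def okk : List Bd → ℕ → (ℕ → Bool) → List Bool → Prop
  | [], _, _, _ => True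
  | s :: S, k, x, φ => ok1 s φ ∧ okk S (k + bq0 s) x (fs1 s (x k) φ)

/-- the flags of the rows -/
def fgs : List Bd → ℕ → (ℕ → Bool) → List Bool → List Bool
  | [], _, _, _ => []
  | s :: S, k, x, φ => fg1 s φ ++ fgs S (k + bq0 s) x (fs1 s (x k) φ)

/-- the orientations of the left strands of all cups -/
def oss : List Bd → ℕ → (ℕ → Bool) → List Bool → List Bool
  | [], _, _, _ => []
  | s :: S, k, x, φ => os1 s (x k) φ ++ oss S (k + bq0 s) x (fs1 s (x k) φ)

/-- the orientations of all edges of the bands, from left to right -/
def flo (φ : List Bool) : List Bool := φ.flatMap (fun b => [!b, b])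

/-- coefficient of the piece `v` in a row, constant part; `f` is the flag -/
def cP (f : Bool) (v : ℕ) : Row → ℤ
  | .mg a b => (if v = a then 1 else 0) - (if v = b then 1 else 0)
  | .ps a n b =>
    if f then (if v = b then 1 else 0) - (if v = n then 1 else 0)
    else (if v = a then 1 else 0) - (if v = b then 1 else 0)

/-- coefficient of the piece `v` in a row, the part multiplied by `T` -/
def cQ (f : Bool) (v : ℕ) : Row → ℤ
  | .mg _ _ => 0
  | .ps a n b =>
    if f then (if v = a then 1 else 0) - (if v = b then 1 else 0)
    else (if v = b then 1 else 0) - (if v = n then 1 else 0)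

/-- constant part of the matrix of the rows -/
def MP (R : List Row) (F : ℕ → Bool) (m : ℕ) : Matrix (Fin m) (Fin m) ℤ :=
  fun i j => cP (F i) ((j : ℕ) + 1) (R.getD i (.mg 0 0))

/-- the part of the matrix of the rows that is multiplied by `T` -/
def MQ (R : List Row) (F : ℕ → Bool) (m : ℕ) : Matrix (Fin m) (Fin m) ℤ :=
  fun i j => cQ (F i) ((j : ℕ) + 1) (R.getD i (.mg 0 0))

/-- value of a row -/
def rvl {A : Type} [AddCommGroup A] (T : A ≃+ A) (f : Bool) (u : ℕ → A) : Row → A
  | .mg a b => u a - u b
  | .ps a n b =>
    if f then T (u a - u b) + (u b - u n) else (u a - u b) + T (u b - u n)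

/-- the kernel of `P + Q T` on `A ^ m` -/
def Kr {A : Type} [AddCommGroup A] [Fintype A] [DecidableEq A] (T : A ≃+ A) {m : ℕ}
    (P Q : Matrix (Fin m) (Fin m) ℤ) : Finset (Fin m → A) :=
  Finset.univ.filter (fun v => ∀ i, ∑ j, P i j • v j + T (∑ j, Q i j • v j) = 0)

end Pool.Agent.H86.RT
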