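import Pool.Agent.H86.RT.FCut
import Pool.Agent.H86.RB.OddD

/-!
# [H86 RT FACX] The facings of a ribbon disk

PROOF of `fac_ex`. Every band belongs to a piece (names as in `rst`, `RB/Defs.lean`); within a piece the facing changes
only at twists. For a list of relative facings `τ` (in `ZMod 2`, one for every band) define the evolution `ts1`:
as `fs1`, but a new piece gets `0` (birth: new entry `0`; death, split, merge: as `fs1`; twist: entry `j + 1` plus
`1`; cross: exchange; passR: `.. τ_(j+2) :: 0 :: ..`; passL: `.. 0 :: τ_(j+1) :: ..`), and the right-hand sides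
`rh1`: merge: `[τ_j - τ_(j+1)]` (equation `u_a + τ_j = u_b + τ_(j+1)`, so `u_a - u_b = τ_(j+1) - τ_j`, which is the same
in `ZMod 2`); pass of the band with relative facing `τ` : `[τ]` (equation `u_n = u_a + τ`, so `u_a + u_n - 2 u_b = τ` in
`ZMod 2`); other slices `[]`; `rhs` for lists of slices by recursion, parallel to `rows` (`rows_cons`).
(1) There is `u : ℕ → ZMod 2` with `u 0 = 1` and `(rows S 1 [0]).getD i` has value `u`-value `g i` for all
`i < m = (rows S 1 [0]).length`, for every `g`: the matrix `Mt (rows S 1 [0]) m` has odd determinant (`odd_det`), so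
its reduction modulo `2` is invertible (`map_det_ne`, `kf_two_trivial`; `Matrix.mulVec` is surjective: multiply by the
inverse `Matrix.mul_nonsing_inv`), which gives `w : Fin m → ZMod 2` with `Mt w = g`; `u := fun v => ext w v + 1`;
`row_sum` (RB/Cnt.lean) identifies the value of a row; adding a constant to `u` does not change the value of a row
modulo `2` (`2 = 0`).
(2) Induction on `S` (general `k`, `vs`, `τ`, `φ`; `vs`, `τ`, `φ` of the same length `n + 1` where `bty S n = some _`;
all names in `vs` less than `k`): if the values of `u` on `rows S k vs` are `rhs S τ` and `φ_i = decide (u (vs_i) +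
τ_i = 1)` for all `i`, then `okk S k x φ` with `x v = decide (u v = 1)`. For the slice: the new lists satisfy the same
relation. (It is convenient to write `φ = (vs.zip τ).map (fun p => decide (u p.1 + p.2 = 1))` or to use
`List.zipWith`, and to cut the lists at the slice: `rst_birth`, ..., `rst_passL` in `RB/Zip.lean`.) birth: `x k` is the
facing of the new band, `τ = 0`. merge: the equation of the row says that the two facings are equal (`ok1`). pass:
the new piece `k` has `u k + 0 = u_a + τ_a`, so the facing is kept, as in `fs1`. twist: `u + τ + 1`.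
(3) Start: `vs = [0]`, `τ = [0]`, `φ = [true]`, `u 0 = 1`.
`fss_one`: the number of bands is given by `bty`, and `fs1` keeps the head of the list (all entries of the form
`φ.take (j + 1) ++ ..` with `φ` not empty); as for `rst_head`, `nms_dsk` in `RB/Names.lean`.
`fss_len`: as `rst_len`, `nms_len` in `RB/Names.lean`.
-/

set_option autoImplicit false
set_option linter.unusedSectionVars false
set_option linter.unusedSimpArgs false

namespace Pool.Agent.H86.RT

open Pool.Agent.H86.RB

theorem fs1_len (s : Bd) (n m : ℕ) (h : bt s n = some m) (b : Bool) (φ : List Bool)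
    (hφ : φ.length = n + 1) : (fs1 s b φ).length = m + 1 := by
  cases s <;> simp only [bt] at h <;> split_ifs at h with h1 <;>
    simp only [Option.some.injEq] at h <;> subst h <;>
    simp only [fs1, List.length_append, List.length_take, List.length_cons, List.length_drop] <;>
    omega

private theorem take_head' {α : Type} (vs w : List α) (j : ℕ) (h : vs ≠ []) :
    (vs.take (j + 1) ++ w).head? = vs.head? := by
  cases vs with
  | nil => exact absurd rfl h
  | cons a l => simp

private theorem fs1_head (s : Bd) (b : Bool) (φ : List Bool) (h : φ ≠ []) :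
    (fs1 s b φ).head? = φ.head? := by
  cases s <;> exact take_head' _ _ _ h

private theorem fs1_ne (s : Bd) (b : Bool) (φ : List Bool) (h : φ ≠ []) : fs1 s b φ ≠ [] := by
  intro h0
  have := fs1_head s b φ h
  rw [h0] at this
  cases φ with
  | nil => exact h rfl
  | cons a l => simp at this

private theorem fss_head (S : List Bd) (k : ℕ) (x : ℕ → Bool) (φ : List Bool) (h : φ ≠ []) :
    (fss S k x φ).head? = φ.head? := by
  induction S generalizing k φ with
  | nil => rfl
  | cons s S ih => rw [fss, ih _ _ (fs1_ne s _ φ h), fs1_head s _ φ h]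

private theorem fss_len (S : List Bd) (n m k : ℕ) (x : ℕ → Bool) (φ : List Bool)
    (h : bty S n = some m) (hφ : φ.length = n + 1) : (fss S k x φ).length = m + 1 := by
  induction S generalizing n k φ with
  | nil =>
    simp only [bty, Option.some.injEq] at h
    subst h
    exact hφ
  | cons s S ih =>
    simp only [bty] at h
    cases h1 : bt s n with
    | none => rw [h1] at h; simp at h
    | some q =>
      rw [h1] at h
      exact ih q _ _ h (fs1_len s n q h1 _ φ hφ)

theorem fss_one (S : List Bd) (h : bty S 0 = some 0) (k : ℕ) (x : ℕ → Bool) :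
    fss S k x [true] = [true] := by
  have h1 := fss_len S 0 0 k x [true] h rfl
  have h2 := fss_head S k x [true] (by simp)
  obtain ⟨a, ha⟩ := List.length_eq_one_iff.1 h1
  rw [ha] at h2 ⊢
  simpa using h2

/-- every right-hand side is attained -/
private theorem solve (S : List Bd) (h : Dsk S) (g : ℕ → ZMod 2) :
    ∃ u : ℕ → ZMod 2, u 0 = 1 ∧ ∀ i < (rows S 1 [0]).length,
      ((rows S 1 [0]).getD i (.mg 0 0)).val u = g i := by
  obtain ⟨m, hm⟩ : ∃ m, (rows S 1 [0]).length = m := ⟨_, rfl⟩
  obtain ⟨hbm, hle⟩ := rows_le S h.2.2 hm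
  have hdet := map_det_ne _ (kf_two_trivial S h hm)
  set M := (Mt (rows S 1 [0]) m).map (Int.castRingHom (ZMod 2)) with hM
  have hu : IsUnit M.det := isUnit_iff_ne_zero.2 hdet
  set w : Fin m → ZMod 2 := M⁻¹.mulVec (fun i : Fin m => g (i : ℕ)) with hw
  have h1 : M.mulVec w = fun i : Fin m => g (i : ℕ) := by
    rw [hw, Matrix.mulVec_mulVec, Matrix.mul_nonsing_inv _ hu, Matrix.one_mulVec]
  refine ⟨fun v => ext w v + 1, by simp [ext_zero], fun i hi => ?_⟩
  have hmem : (rows S 1 [0]).getD i (.mg 0 0) ∈ rows S 1 [0] := by
    rw [List.getD_eq_getElem _ _ hi]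
    exact List.getElem_mem hi
  have h2 := row_sum (m := m) (ext w) (ext_zero w) _ (hle _ hmem)
  have h3 : ((rows S 1 [0]).getD i (.mg 0 0)).val (fun v => ext w v + 1) =
      ((rows S 1 [0]).getD i (.mg 0 0)).val (ext w) := by
    cases (rows S 1 [0]).getD i (.mg 0 0) with
    | mg a b => simp only [Row.val]; ring
    | ps a n b =>
      simp only [Row.val]
      ring
  rw [h3, ← h2]
  have h4 : ∑ j, M (⟨i, by omega⟩ : Fin m) j * w j = g i := congrFun h1 ⟨i, by omega⟩
  rw [← h4]
  refine Finset.sum_congr rfl fun j _ => ?_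
  rw [ext_succ]
  rfl

/-- names and relative facings above a slice -/
private def ts1 : Bd → ℕ → List (ℕ × ZMod 2) → List (ℕ × ZMod 2)
  | .birth j, k, z => z.take (j + 1) ++ (k, 0) :: z.drop (j + 1)
  | .death j, _, z => z.take (j + 1) ++ z.drop (j + 2)
  | .split j, _, z => z.take (j + 1) ++ z.drop j
  | .merge j, _, z => z.take (j + 1) ++ z.drop (j + 2)
  | .twist _ j, _, z => z.take (j + 1) ++
      ((z.getD (j + 1) (0, 0)).1, (z.getD (j + 1) (0, 0)).2 + 1) :: z.drop (j + 2)
  | .cross _ j, _, z =>
    z.take (j + 1) ++ z.getD (j + 2) (0, 0) :: z.getD (j + 1) (0, 0) :: z.drop (j + 3)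
  | .passR _ j, k, z => z.take (j + 1) ++ z.getD (j + 2) (0, 0) :: (k, 0) :: z.drop (j + 3)
  | .passL _ j, k, z => z.take (j + 1) ++ (k, 0) :: z.getD (j + 1) (0, 0) :: z.drop (j + 3)

/-- right-hand sides of a slice -/
private def rh1 : Bd → List (ℕ × ZMod 2) → List (ZMod 2)
  | .merge j, z => [(z.getD j (0, 0)).2 + (z.getD (j + 1) (0, 0)).2]
  | .passR _ j, z => [(z.getD (j + 1) (0, 0)).2]
  | .passL _ j, z => [(z.getD (j + 2) (0, 0)).2]
  | _, _ => []

private def rhs : List Bd → ℕ → List (ℕ × ZMod 2) → List (ZMod 2)
  | [], _, _ => []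
  | s :: S, k, z => rh1 s z ++ rhs S (k + bq0 s) (ts1 s k z)

private theorem rh1_len (s : Bd) (k : ℕ) (vs : List ℕ) (z : List (ℕ × ZMod 2)) :
    (rh1 s z).length = (rst s k vs).1.length := by
  cases s <;> rfl

/-- the facing -/
private def dc (u : ℕ → ZMod 2) (p : ℕ × ZMod 2) : Bool := decide (u p.1 + p.2 = 1)

private theorem dc_eq {a b c d : ZMod 2} (h : a - b = c + d) :
    decide (a + c = 1) = decide (b + d = 1) := by
  revert a b c d
  decide

private theorem dc_not (a c : ZMod 2) : (!decide (a + c = 1)) = decide (a + (c + 1) = 1) := by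
  revert a c
  decide

private theorem dc_new {a b n t : ZMod 2} (h : a + n - 2 * b = t) :
    decide (n + 0 = 1) = decide (a + t = 1) := by
  revert a b n t
  decide

private theorem cgetD0 {x y : List (ℕ × ZMod 2)} {a : ℕ × ZMod 2} {i : ℕ} (h : x.length = i) :
    (x ++ a :: y).getD i (0, 0) = a := by
  subst h
  simp [List.getD_eq_getElem?_getD]

private theorem cgetD1 {x y : List (ℕ × ZMod 2)} {a b : ℕ × ZMod 2} {i : ℕ} (h : x.length = i) :
    (x ++ a :: b :: y).getD (i + 1) (0, 0) = b := by
  subst h
  simp [List.getD_eq_getElem?_getD]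

private theorem ctake1 {x y : List (ℕ × ZMod 2)} {a : ℕ × ZMod 2} {i : ℕ} (h : x.length = i) :
    (x ++ a :: y).take (i + 1) = x ++ [a] := by
  subst h
  simp [List.take_append]

private theorem cdrop1 {x y : List (ℕ × ZMod 2)} {a : ℕ × ZMod 2} {i : ℕ} (h : x.length = i) :
    (x ++ a :: y).drop (i + 1) = y := by
  subst h
  simp [List.drop_append]

private theorem cdrop2 {x y : List (ℕ × ZMod 2)} {a b : ℕ × ZMod 2} {i : ℕ} (h : x.length = i) :
    (x ++ a :: b :: y).drop (i + 2) = y := by
  subst h
  simp [List.drop_append]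

private theorem csplit0 (st : List (ℕ × ZMod 2)) (i : ℕ) (h : i ≤ st.length) :
    ∃ x y, st = x ++ y ∧ x.length = i :=
  ⟨st.take i, st.drop i, (List.take_append_drop i st).symm, by rw [List.length_take]; omega⟩

private theorem csplit1 (st : List (ℕ × ZMod 2)) (i : ℕ) (h : i + 1 ≤ st.length) :
    ∃ x a y, st = x ++ a :: y ∧ x.length = i := by
  obtain ⟨x, y, rfl, hx⟩ := csplit0 st i (by omega)
  rw [List.length_append] at h
  match y, h with
  | a :: y, _ => exact ⟨x, a, y, rfl, hx⟩
  | [], h => simp at h; omega

private theorem csplit2 (st : List (ℕ × ZMod 2)) (i : ℕ) (h : i + 2 ≤ st.length) :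
    ∃ x a b y, st = x ++ a :: b :: y ∧ x.length = i := by
  obtain ⟨x, y, rfl, hx⟩ := csplit0 st i (by omega)
  rw [List.length_append] at h
  match y, h with
  | a :: b :: y, _ => exact ⟨x, a, b, y, rfl, hx⟩
  | [_], h => simp at h; omega
  | [], h => simp at h; omega

private theorem one_slice (s : Bd) (n m : ℕ) (h : bt s n = some m) (k : ℕ) (z : List (ℕ × ZMod 2))
    (hz : z.length = n + 1) (u : ℕ → ZMod 2)
    (hu : ∀ p ∈ (rst s k (z.map Prod.fst)).1.zip (rh1 s z), p.1.val u = p.2) :
    (ts1 s k z).map Prod.fst = (rst s k (z.map Prod.fst)).2.2 ∧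
      (ts1 s k z).map (dc u) = fs1 s (decide (u k = 1)) (z.map (dc u)) ∧
      ok1 s (z.map (dc u)) := by
  cases s with
  | birth j =>
    simp only [bt] at h
    split_ifs at h with h1
    obtain ⟨x, y, rfl, hx⟩ := csplit0 z (j + 1) (by omega)
    have hx1 : (x.map Prod.fst).length = j + 1 := by rw [List.length_map, hx]
    have hx2 : (x.map (dc u)).length = j + 1 := by rw [List.length_map, hx]
    simp only [ts1, List.take_left' hx, List.drop_left' hx, List.map_append, List.map_cons,
      rst_birth hx1, fs1_birth hx2, dc, add_zero, ok1, and_self]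
  | death j =>
    simp only [bt] at h
    split_ifs at h with h1
    obtain ⟨x, a, y, rfl, hx⟩ := csplit1 z (j + 1) (by omega)
    have hx1 : (x.map Prod.fst).length = j + 1 := by rw [List.length_map, hx]
    have hx2 : (x.map (dc u)).length = j + 1 := by rw [List.length_map, hx]
    have hd : (x ++ a :: y).drop (j + 2) = y := cdrop1 hx
    simp only [ts1, List.take_left' hx, hd, List.map_append, List.map_cons,
      rst_death hx1, fs1_death hx2, ok1, and_self]
  | split j =>
    simp only [bt] at h
    split_ifs at h with h1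
    obtain ⟨x, a, y, rfl, hx⟩ := csplit1 z j (by omega)
    have hx1 : (x.map Prod.fst).length = j := by rw [List.length_map, hx]
    have hx2 : (x.map (dc u)).length = j := by rw [List.length_map, hx]
    simp only [ts1, ctake1 hx, List.drop_left' hx, List.map_append, List.map_cons, List.map_nil,
      rst_split hx1, fs1_split hx2, ok1, List.append_assoc, List.cons_append, List.nil_append,
      and_self]
  | merge j =>
    simp only [bt] at h
    split_ifs at h with h1
    obtain ⟨x, a, b, y, rfl, hx⟩ := csplit2 z j (by omega)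
    have hx1 : (x.map Prod.fst).length = j := by rw [List.length_map, hx]
    have hx2 : (x.map (dc u)).length = j := by rw [List.length_map, hx]
    simp only [List.map_append, List.map_cons, rst_merge hx1, rh1, cgetD0 hx, cgetD1 hx,
      List.zip_cons_cons, List.zip_nil_right, List.mem_singleton, forall_eq, Row.val] at hu
    simp only [ts1, ctake1 hx, cdrop2 hx, List.map_append, List.map_cons, List.map_nil,
      rst_merge hx1, fs1_merge hx2, ok1, List.append_assoc, List.cons_append, List.nil_append,
      bgetD0 hx2, bgetD1 hx2, true_and]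
    exact dc_eq hu
  | twist p j =>
    simp only [bt] at h
    split_ifs at h with h1
    obtain ⟨x, a, y, rfl, hx⟩ := csplit1 z (j + 1) (by omega)
    have hx2 : (x.map (dc u)).length = j + 1 := by rw [List.length_map, hx]
    have hd : (x ++ a :: y).drop (j + 2) = y := cdrop1 hx
    simp only [ts1, List.take_left' hx, hd, cgetD0 hx, List.map_append, List.map_cons,
      rst_twist, fs1_twist hx2, ok1, and_true, true_and]
    congr 2
    exact (dc_not _ _).symm
  | cross p j =>
    simp only [bt] at h
    split_ifs at h with h1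
    obtain ⟨x, a, b, y, rfl, hx⟩ := csplit2 z (j + 1) (by omega)
    have hx1 : (x.map Prod.fst).length = j + 1 := by rw [List.length_map, hx]
    have hx2 : (x.map (dc u)).length = j + 1 := by rw [List.length_map, hx]
    have hd : (x ++ a :: b :: y).drop (j + 3) = y := cdrop2 hx
    have hg : (x ++ a :: b :: y).getD (j + 2) (0, 0) = b := cgetD1 hx
    simp only [ts1, List.take_left' hx, hd, cgetD0 hx, hg, List.map_append, List.map_cons,
      rst_cross hx1, fs1_cross hx2, ok1, and_self]
  | passR p j =>
    simp only [bt] at h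
    split_ifs at h with h1
    obtain ⟨x, a, b, y, rfl, hx⟩ := csplit2 z (j + 1) (by omega)
    have hx1 : (x.map Prod.fst).length = j + 1 := by rw [List.length_map, hx]
    have hx2 : (x.map (dc u)).length = j + 1 := by rw [List.length_map, hx]
    have hd : (x ++ a :: b :: y).drop (j + 3) = y := cdrop2 hx
    have hg : (x ++ a :: b :: y).getD (j + 2) (0, 0) = b := cgetD1 hx
    simp only [List.map_append, List.map_cons, rst_passR hx1, rh1, cgetD0 hx, hg,
      List.zip_cons_cons, List.zip_nil_right, List.mem_singleton, forall_eq, Row.val] at hu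
    simp only [ts1, List.take_left' hx, hd, hg, List.map_append, List.map_cons,
      rst_passR hx1, fs1_passR hx2, ok1, and_true, true_and]
    congr 3
    exact dc_new hu
  | passL p j =>
    simp only [bt] at h
    split_ifs at h with h1
    obtain ⟨x, a, b, y, rfl, hx⟩ := csplit2 z (j + 1) (by omega)
    have hx1 : (x.map Prod.fst).length = j + 1 := by rw [List.length_map, hx]
    have hx2 : (x.map (dc u)).length = j + 1 := by rw [List.length_map, hx]
    have hd : (x ++ a :: b :: y).drop (j + 3) = y := cdrop2 hx
    have hg : (x ++ a :: b :: y).getD (j + 2) (0, 0) = b := cgetD1 hx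
    simp only [List.map_append, List.map_cons, rst_passL hx1, rh1, hg,
      List.zip_cons_cons, List.zip_nil_right, List.mem_singleton, forall_eq, Row.val] at hu
    simp only [ts1, List.take_left' hx, hd, cgetD0 hx, List.map_append, List.map_cons,
      rst_passL hx1, fs1_passL hx2, ok1, and_true, true_and]
    congr 2
    exact dc_new hu

private theorem okk_of (S : List Bd) (n m : ℕ) (h : bty S n = some m) (k : ℕ)
    (z : List (ℕ × ZMod 2)) (hz : z.length = n + 1) (u : ℕ → ZMod 2)
    (hu : ∀ p ∈ (rows S k (z.map Prod.fst)).zip (rhs S k z), p.1.val u = p.2) :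
    okk S k (fun v => decide (u v = 1)) (z.map (dc u)) := by
  induction S generalizing n k z with
  | nil => trivial
  | cons s S ih =>
    simp only [bty] at h
    cases h1 : bt s n with
    | none => rw [h1] at h; simp at h
    | some q =>
      rw [h1] at h
      have hr : rows (s :: S) k (z.map Prod.fst) = (rst s k (z.map Prod.fst)).1 ++
        rows S (k + bq0 s) (rst s k (z.map Prod.fst)).2.2 := rows_cons s S k _
      rw [hr, rhs, List.zip_append (rh1_len s k _ z).symm] at hu
      obtain ⟨g1, g2, g3⟩ := one_slice s n q h1 k z hz u fun p hp => hu p (List.mem_append_left _ hp)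
      refine ⟨g3, ?_⟩
      rw [← g2]
      refine ih q h (k + bq0 s) (ts1 s k z) ?_ fun p hp => hu p (List.mem_append_right _ ?_)
      · have := fs1_len s n q h1 (decide (u k = 1)) (z.map (dc u)) (by rw [List.length_map, hz])
        rwa [← g2, List.length_map] at this
      · rw [← g1]
        exact hp

theorem fac_ex (S : List Bd) (h : Dsk S) : ∃ x : ℕ → Bool, okk S 1 x [true] := by
  obtain ⟨u, h0, hu⟩ := solve S h (fun i => (rhs S 1 [(0, 0)]).getD i 0)
  refine ⟨fun v => decide (u v = 1), ?_⟩
  have h1 := okk_of S 0 0 h.1 1 [(0, 0)] rfl u (by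
    intro p hp
    obtain ⟨i, hi, rfl⟩ := List.mem_iff_getElem.1 hp
    rw [List.length_zip] at hi
    rw [List.getElem_zip]
    have h2 := hu i (by
      have : ([(0, (0 : ZMod 2))] : List (ℕ × ZMod 2)).map Prod.fst = [0] := rfl
      rw [this] at hi
      omega)
    have h3 : (rows S 1 [0]).getD i (.mg 0 0) =
        (rows S 1 (([(0, (0 : ZMod 2))] : List (ℕ × ZMod 2)).map Prod.fst))[i]'(by omega) := by
      rw [List.getD_eq_getElem]
      rfl
    rw [h3, List.getD_eq_getElem _ _ (by omega)] at h2
    exact h2)
  have h2 : ([(0, (0 : ZMod 2))] : List (ℕ × ZMod 2)).map (dc u) = [true] := by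
    simp [dc, h0]
  rw [h2] at h1
  exact h1

end Pool.Agent.H86.RT
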