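import Pool.Agent.H86.RT.Alx
import Pool.Agent.H86.RB.Run

/-!
# [H86 RT ORI] Orientations of a diagram and its 2-colourings

`bq` is the symmetric quandle of the orientations: a colouring with values in it is an orientation. If there is one
orientation `Oe w os l l'`, then all the others are obtained from it by reversing the strands of colour `1` of a
Fox `2`-colouring (`RB.run 2`); so their number is the number of `2`-colourings.

PROOFS.
`oe_mem`: induction on `Oe` (`srun_cons`, `Multiset.mem_bind`; the slice gives the next list: `sstp` with `List.take_left`,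
`List.drop_left`; at a cup take `c = o` in `Finset.univ`).
`oe_len`: `l'.length` is determined: not needed.
`oe_xor`: for `y : List (ZMod 2)` with `y.length = l.length` one has
`srun bq w (xr l y) = (run 2 w y).map (fun y' => xr l' y')`, where `xr l y` reverses `l` at the places where `y` is not
`0`. Induction on `Oe`, splitting `y` at the place of the slice (`List.length` gives `y = y1 ++ ...`), with
`xr (l1 ++ l2) (y1 ++ y2) = xr l1 y1 ++ xr l2 y2` for `l1.length = y1.length`.
cup: on the left the colours `c :: (!c) :: _` for `c : Bool`, on the right `d :: d :: _` for `d : ZMod 2`, and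
`xr [o, !o] [d, d] = [c, !c]` for `c = o` if `d = 0`, `c = !o` if `d = 1` (both `Finset.univ` have two elements:
write them out with `decide`/`rfl`, or use a bijection and `Multiset.map_congr`).
cap: `xr [o, !o] [d, d'] = [o'', o''']`, and `o''' = !o''` iff `d = d'`.
pos: `(2 * a - b) = b` in `ZMod 2`, neg the same.
(for `loc 2` and `stp 2` see `Pool/Agent/H86/RB/Defs.lean`, `stp_shift`, `run_cons` in `RB/Run.lean`; it may be
convenient to treat the slice with `sstp_shift`, `stp_shift`: both sides commute with a prefix).
`oe_card`: take `y = replicate l.length 0`; then `xr l y = l`.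
-/

set_option autoImplicit false

namespace Pool.Agent.H86.RT

open Pool.Agent.H86.RB

/-- orientations as a symmetric quandle -/
def bq : Sq Bool where
  bar := not
  op _ := Equiv.refl Bool
  bar_bar a := by simp
  op_bar a := rfl
  bar_op a b := rfl
  op_self a := rfl
  dist a b c := rfl

/-- `Oe w os l l'`: the orientations `l` of the lower ends continue over the diagram `w` to the orientations `l'` of
the upper ends, the left strands of the cups having the orientations `os` -/
inductive Oe : Wd → List Bool → List Bool → List Bool → Prop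
  | nil (l : List Bool) : Oe [] [] l l
  | cup (x y l' os : List Bool) (o : Bool) (w : Wd) (h : Oe w os (x ++ o :: (!o) :: y) l') :
      Oe (⟨.cup, x.length⟩ :: w) (o :: os) (x ++ y) l'
  | cap (x y l' os : List Bool) (o : Bool) (w : Wd) (h : Oe w os (x ++ y) l') :
      Oe (⟨.cap, x.length⟩ :: w) os (x ++ o :: (!o) :: y) l'
  | pos (x y l' os : List Bool) (a b : Bool) (w : Wd) (h : Oe w os (x ++ b :: a :: y) l') :
      Oe (⟨.pos, x.length⟩ :: w) os (x ++ a :: b :: y) l'
  | neg (x y l' os : List Bool) (a b : Bool) (w : Wd) (h : Oe w os (x ++ b :: a :: y) l') :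
      Oe (⟨.neg, x.length⟩ :: w) os (x ++ a :: b :: y) l'

private theorem sstp_at {C : Type} [Fintype C] [DecidableEq C] (Q : Sq C) (k : Kd) (x l : List C) :
    sstp Q ⟨k, x.length⟩ (x ++ l) = (sloc Q k l).map (fun r => x ++ r) := by
  have := sstp_shift Q k 0 x l
  rwa [Nat.add_zero, sstp_zero] at this

private theorem stp_at (N : ℕ) [NeZero N] (k : Kd) (x l : List (ZMod N)) :
    stp N ⟨k, x.length⟩ (x ++ l) = (loc N k l).map (fun r => x ++ r) := by
  have := stp_shift (N := N) k 0 x l
  rw [Nat.add_zero] at this
  rw [this]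
  simp [stp]

theorem oe_mem {w : Wd} {os l l' : List Bool} (h : Oe w os l l') : l' ∈ srun bq w l := by
  induction h with
  | nil l => simp [srun_nil]
  | cup x y l' os o w h ih =>
    rw [srun_cons, Multiset.mem_bind]
    refine ⟨_, ?_, ih⟩
    rw [sstp_at, Multiset.mem_map]
    refine ⟨o :: (!o) :: y, ?_, rfl⟩
    simp only [sloc, Multiset.mem_map]
    exact ⟨o, Finset.mem_univ_val o, rfl⟩
  | cap x y l' os o w h ih =>
    rw [srun_cons, Multiset.mem_bind]
    refine ⟨_, ?_, ih⟩
    rw [sstp_at, Multiset.mem_map]
    refine ⟨y, ?_, rfl⟩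
    simp [sloc, bq]
  | pos x y l' os a b w h ih =>
    rw [srun_cons, Multiset.mem_bind]
    refine ⟨_, ?_, ih⟩
    rw [sstp_at, Multiset.mem_map]
    refine ⟨b :: a :: y, ?_, rfl⟩
    simp [sloc, bq]
  | neg x y l' os a b w h ih =>
    rw [srun_cons, Multiset.mem_bind]
    refine ⟨_, ?_, ih⟩
    rw [sstp_at, Multiset.mem_map]
    refine ⟨b :: a :: y, ?_, rfl⟩
    simp [sloc, bq]

/-- reverse the strands of colour `1` -/
private def xf (o : Bool) (d : ZMod 2) : Bool := if d = 0 then o else !o

private def xr (l : List Bool) (y : List (ZMod 2)) : List Bool := List.zipWith xf l y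

private theorem xr_app {l1 l2 : List Bool} {y1 y2 : List (ZMod 2)} (h : l1.length = y1.length) :
    xr (l1 ++ l2) (y1 ++ y2) = xr l1 y1 ++ xr l2 y2 := by
  unfold xr
  exact List.zipWith_append h

private theorem xr_cons (o : Bool) (d : ZMod 2) (l : List Bool) (y : List (ZMod 2)) :
    xr (o :: l) (d :: y) = xf o d :: xr l y := rfl

private theorem xr_len {l : List Bool} {y : List (ZMod 2)} (h : y.length = l.length) :
    (xr l y).length = l.length := by
  simp [xr, h]

private theorem xf_not (o : Bool) (d : ZMod 2) : xf (!o) d = !(xf o d) := by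
  unfold xf
  split_ifs <;> rfl

private theorem xf_cap (o : Bool) (d d' : ZMod 2) : (xf (!o) d' = !(xf o d)) ↔ d = d' := by
  revert o d d'
  decide

private theorem cut0 (y : List (ZMod 2)) {x z : List Bool} (h : y.length = (x ++ z).length) :
    ∃ y1 y2, y = y1 ++ y2 ∧ y1.length = x.length ∧ y2.length = z.length := by
  rw [List.length_append] at h
  exact ⟨y.take x.length, y.drop x.length, (List.take_append_drop _ y).symm,
    by rw [List.length_take]; omega, by rw [List.length_drop]; omega⟩

private theorem cut2 (y : List (ZMod 2)) {x z : List Bool} {a b : Bool}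
    (h : y.length = (x ++ a :: b :: z).length) :
    ∃ y1 d d' y2, y = y1 ++ d :: d' :: y2 ∧ y1.length = x.length ∧ y2.length = z.length := by
  obtain ⟨y1, y2, h1, h2, h3⟩ := cut0 y h
  match y2, h3 with
  | d :: d' :: y2, h3 => exact ⟨y1, d, d', y2, h1, h2, by simpa using h3⟩
  | [_], h3 => simp at h3
  | [], h3 => simp at h3

private theorem bind_bool {β : Type} (o : Bool) (g : Bool → Multiset β) :
    (Finset.univ : Finset Bool).val.bind g =
      (Finset.univ : Finset (ZMod 2)).val.bind (fun d => g (xf o d)) := by
  have h1 : (Finset.univ : Finset Bool).val = {true, false} := rfl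
  have h2 : (Finset.univ : Finset (ZMod 2)).val = {0, 1} := rfl
  rw [h1, h2]
  have e0 : ∀ o, xf o 0 = o := fun o => by simp [xf]
  have e1 : ∀ o, xf o 1 = !o := fun o => by simp [xf]
  simp only [Multiset.insert_eq_cons, Multiset.cons_bind, Multiset.singleton_bind, e0, e1]
  cases o
  · simp only [Bool.not_false]
    exact add_comm _ _
  · rfl

private theorem bq_bar (o : Bool) : bq.bar o = !o := rfl

private theorem two_sub (a b : ZMod 2) : 2 * a - b = b := by
  revert a b
  decide

private theorem oe_xor {w : Wd} {os l l' : List Bool} (h : Oe w os l l') (y : List (ZMod 2))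
    (hy : y.length = l.length) :
    srun bq w (xr l y) = (run 2 w y).map (fun y' => xr l' y') := by
  induction h generalizing y with
  | nil l => simp [srun_nil, run_nil]
  | cup x z l' os o w h ih =>
    obtain ⟨y1, y2, rfl, h1, h2⟩ := cut0 y hy
    have e1 := sstp_at bq .cup (xr x y1) (xr z y2)
    rw [xr_len h1] at e1
    have e2 := stp_at 2 .cup y1 y2
    rw [h1] at e2
    rw [srun_cons, run_cons, xr_app h1.symm, e1, e2]
    simp only [sloc, loc, Multiset.map_map, Multiset.bind_map, Multiset.map_bind, Function.comp_def,
      bq_bar]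
    rw [bind_bool o]
    refine Multiset.bind_congr fun d _ => ?_
    rw [← ih (y1 ++ d :: d :: y2) (by simp [h1, h2])]
    rw [xr_app h1.symm, xr_cons, xr_cons, xf_not]
  | cap x z l' os o w h ih =>
    obtain ⟨y1, d, d', y2, rfl, h1, h2⟩ := cut2 y hy
    have e1 := sstp_at bq .cap (xr x y1) (xf o d :: xf (!o) d' :: xr z y2)
    rw [xr_len h1] at e1
    have e2 := stp_at 2 .cap y1 (d :: d' :: y2)
    rw [h1] at e2
    rw [srun_cons, run_cons, xr_app h1.symm, xr_cons, xr_cons, e1, e2]
    simp only [sloc, loc, bq_bar]
    by_cases hd : d = d'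
    · rw [if_pos hd, if_pos ((xf_cap o d d').2 hd)]
      simp only [Multiset.map_singleton, Multiset.singleton_bind]
      rw [← ih (y1 ++ y2) (by simp [h1, h2]), xr_app h1.symm]
    · rw [if_neg hd, if_neg (fun e => hd ((xf_cap o d d').1 e))]
      simp
  | pos x z l' os a b w h ih =>
    obtain ⟨y1, d, d', y2, rfl, h1, h2⟩ := cut2 y hy
    have e1 := sstp_at bq .pos (xr x y1) (xf a d :: xf b d' :: xr z y2)
    rw [xr_len h1] at e1
    have e2 := stp_at 2 .pos y1 (d :: d' :: y2)
    rw [h1] at e2
    rw [srun_cons, run_cons, xr_app h1.symm, xr_cons, xr_cons, e1, e2]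
    simp only [sloc, loc, Multiset.map_singleton, Multiset.singleton_bind, two_sub]
    rw [← ih (y1 ++ d' :: d :: y2) (by simp [h1, h2]), xr_app h1.symm, xr_cons, xr_cons]
    rfl
  | neg x z l' os a b w h ih =>
    obtain ⟨y1, d, d', y2, rfl, h1, h2⟩ := cut2 y hy
    have e1 := sstp_at bq .neg (xr x y1) (xf a d :: xf b d' :: xr z y2)
    rw [xr_len h1] at e1
    have e2 := stp_at 2 .neg y1 (d :: d' :: y2)
    rw [h1] at e2
    rw [srun_cons, run_cons, xr_app h1.symm, xr_cons, xr_cons, e1, e2]
    simp only [sloc, loc, Multiset.map_singleton, Multiset.singleton_bind, two_sub]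
    rw [← ih (y1 ++ d' :: d :: y2) (by simp [h1, h2]), xr_app h1.symm, xr_cons, xr_cons]
    rfl

private theorem xr_zero (l : List Bool) : xr l (List.replicate l.length 0) = l := by
  induction l with
  | nil => rfl
  | cons a l ih =>
    rw [List.length_cons, List.replicate_succ, xr_cons, ih]
    simp [xf]

theorem oe_card {w : Wd} {os l l' : List Bool} (h : Oe w os l l') :
    Multiset.card (srun bq w l) = Multiset.card (run 2 w (List.replicate l.length 0)) := by
  have h1 := oe_xor h (List.replicate l.length 0) (by simp)
  rw [xr_zero] at h1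
  rw [h1, Multiset.card_map]

end Pool.Agent.H86.RT
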