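import Pool.Agent.H86.RT.FCut
import Pool.Agent.H86.RT.Ori
import Pool.Agent.H86.RB.Flat

/-!
# [H86 RT OEF] Consistent facings orient the boundary of a ribbon surface

PROOF of `oe_bdw`. Lemma `oe_app`: `Oe v os l l1 → Oe w os' l1 l' → Oe (v ++ w) (os ++ os') l l'` (induction on the
first). Lemma for one slice: `bt s n = some m`, `φ.length = n + 1`, `ok1 s φ` imply
`Oe (up (bd s)) (os1 s b φ) (flo φ) (flo (fs1 s b φ))`; by cases on `s`, cutting `φ` at the slice
(`φ = x ++ a :: c :: y` with `x.length = j + 1` or `j`), `flo (x ++ y) = flo x ++ flo y`, `flo (a :: y) = (!a) :: a :: flo y`,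
`(flo x).length = 2 * x.length`, `up [⟨k, i⟩] = [⟨k, 1 + i⟩]`.
birth: cup at `2 (j + 1)`, left strand `!b`: `Oe.cup` with `o = !b` gives `(!b) :: (!!b) :: ..`, `Bool.not_not`.
death: `(!a) :: a` is capped: `Oe.cap` with `o = !a`.
split: the band `(!a, a)` becomes `(!a, a, !a, a)`: cup in the middle with `o = a` (this is `os1`).
merge: `(!a, a, !a, a)` (both bands have the facing `a` by `ok1`) becomes `(!a, a)`: cap in the middle with `o = a`.
twist: `(!a, a)` becomes `(a, !a)`: `Oe.pos` or `Oe.neg`; the new facing is `!a`.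
cross, passR, passL: four crossings that take `(!a, a, !c, c)` to `(!c, c, !a, a)`: four steps `Oe.pos`/`Oe.neg`
(the sign of the crossing does not matter).
Then induction on `S`: `bdw_cons`, `up_append`, `fs1_len` (in `FacX.lean`; or prove the length here).
-/

set_option autoImplicit false
set_option linter.unusedSectionVars false
set_option linter.unusedSimpArgs false

namespace Pool.Agent.H86.RT

open Pool.Agent.H86.RB

private theorem oe_app {v w : Wd} {o1 o2 l l1 l' : List Bool} (h : Oe v o1 l l1)
    (h2 : Oe w o2 l1 l') : Oe (v ++ w) (o1 ++ o2) l l' := by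
  induction h with
  | nil l => exact h2
  | cup x y l1 os o v h ih => exact Oe.cup x y l' _ o _ (ih h2)
  | cap x y l1 os o v h ih => exact Oe.cap x y l' _ o _ (ih h2)
  | pos x y l1 os a b v h ih => exact Oe.pos x y l' _ a b _ (ih h2)
  | neg x y l1 os a b v h ih => exact Oe.neg x y l' _ a b _ (ih h2)

private theorem flo_app (x y : List Bool) : flo (x ++ y) = flo x ++ flo y := by
  simp [flo]

private theorem flo_cons (a : Bool) (y : List Bool) : flo (a :: y) = (!a) :: a :: flo y := rfl

private theorem flo_len (x : List Bool) : (flo x).length = 2 * x.length := by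
  induction x with
  | nil => rfl
  | cons a x ih =>
    rw [flo_cons, List.length_cons, List.length_cons, ih, List.length_cons]
    omega

/-- a crossing -/
private theorem oe_X (p : Bool) (i : ℕ) (x y l' os : List Bool) (a b : Bool) (w : Wd)
    (hi : x.length = i) (h : Oe w os (x ++ b :: a :: y) l') :
    Oe (X p i :: w) os (x ++ a :: b :: y) l' := by
  subst hi
  cases p
  · exact Oe.neg x y l' os a b w h
  · exact Oe.pos x y l' os a b w h

private theorem up_X (p : Bool) (i : ℕ) (w : Wd) : up (X p i :: w) = X p (1 + i) :: up w := rfl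

private theorem split0 (st : List Bool) (i : ℕ) (h : i ≤ st.length) :
    ∃ x y, st = x ++ y ∧ x.length = i :=
  ⟨st.take i, st.drop i, (List.take_append_drop i st).symm, by rw [List.length_take]; omega⟩

private theorem split1 (st : List Bool) (i : ℕ) (h : i + 1 ≤ st.length) :
    ∃ x a y, st = x ++ a :: y ∧ x.length = i := by
  obtain ⟨x, y, rfl, hx⟩ := split0 st i (by omega)
  rw [List.length_append] at h
  match y, h with
  | a :: y, _ => exact ⟨x, a, y, rfl, hx⟩
  | [], h => simp at h; omega

private theorem split2 (st : List Bool) (i : ℕ) (h : i + 2 ≤ st.length) :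
    ∃ x a b y, st = x ++ a :: b :: y ∧ x.length = i := by
  obtain ⟨x, y, rfl, hx⟩ := split0 st i (by omega)
  rw [List.length_append] at h
  match y, h with
  | a :: b :: y, _ => exact ⟨x, a, b, y, rfl, hx⟩
  | [_], h => simp at h; omega
  | [], h => simp at h; omega

/-- four crossings exchange two bands -/
private theorem oe_four (p1 p2 p3 p4 : Bool) (i : ℕ) (x y : List Bool) (a c : Bool)
    (hi : x.length = i) :
    (Oe [X p1 (i + 1), X p2 i, X p3 (i + 2), X p4 (i + 1)] []
      (x ++ (!a) :: a :: (!c) :: c :: y) (x ++ (!c) :: c :: (!a) :: a :: y)) ∧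
    (Oe [X p1 (i + 1), X p2 (i + 2), X p3 i, X p4 (i + 1)] []
      (x ++ (!a) :: a :: (!c) :: c :: y) (x ++ (!c) :: c :: (!a) :: a :: y)) := by
  have h1 : ∀ (z : Bool), (x ++ [z]).length = i + 1 := fun z => by simp [hi]
  have h2 : ∀ (z z' : Bool), (x ++ [z, z']).length = i + 2 := fun z z' => by simp [hi]
  constructor
  · have e1 : x ++ (!a) :: a :: (!c) :: c :: y = (x ++ [!a]) ++ a :: (!c) :: (c :: y) := by simp
    rw [e1]
    refine oe_X p1 _ _ _ _ _ _ _ _ (h1 _) ?_
    have e2 : (x ++ [!a]) ++ (!c) :: a :: (c :: y) = x ++ (!a) :: (!c) :: (a :: c :: y) := by simp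
    rw [e2]
    refine oe_X p2 _ _ _ _ _ _ _ _ hi ?_
    have e3 : x ++ (!c) :: (!a) :: (a :: c :: y) = (x ++ [!c, !a]) ++ a :: c :: y := by simp
    rw [e3]
    refine oe_X p3 _ _ _ _ _ _ _ _ (h2 _ _) ?_
    have e4 : (x ++ [!c, !a]) ++ c :: a :: y = (x ++ [!c]) ++ (!a) :: c :: (a :: y) := by simp
    rw [e4]
    refine oe_X p4 _ _ _ _ _ _ _ _ (h1 _) ?_
    have e5 : (x ++ [!c]) ++ c :: (!a) :: (a :: y) = x ++ (!c) :: c :: (!a) :: a :: y := by simp
    rw [e5]
    exact Oe.nil _
  · have e1 : x ++ (!a) :: a :: (!c) :: c :: y = (x ++ [!a]) ++ a :: (!c) :: (c :: y) := by simp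
    rw [e1]
    refine oe_X p1 _ _ _ _ _ _ _ _ (h1 _) ?_
    have e2 : (x ++ [!a]) ++ (!c) :: a :: (c :: y) = (x ++ [!a, !c]) ++ a :: c :: y := by simp
    rw [e2]
    refine oe_X p2 _ _ _ _ _ _ _ _ (h2 _ _) ?_
    have e3 : (x ++ [!a, !c]) ++ c :: a :: y = x ++ (!a) :: (!c) :: (c :: a :: y) := by simp
    rw [e3]
    refine oe_X p3 _ _ _ _ _ _ _ _ hi ?_
    have e4 : x ++ (!c) :: (!a) :: (c :: a :: y) = (x ++ [!c]) ++ (!a) :: c :: (a :: y) := by simp
    rw [e4]
    refine oe_X p4 _ _ _ _ _ _ _ _ (h1 _) ?_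
    have e5 : (x ++ [!c]) ++ c :: (!a) :: (a :: y) = x ++ (!c) :: c :: (!a) :: a :: y := by simp
    rw [e5]
    exact Oe.nil _

private theorem oe_bd (s : Bd) (n m : ℕ) (h : bt s n = some m) (b : Bool) (φ : List Bool)
    (hl : φ.length = n + 1) (hk : ok1 s φ) :
    Oe (up (bd s)) (os1 s b φ) (flo φ) (flo (fs1 s b φ)) ∧ (fs1 s b φ).length = m + 1 := by
  cases s with
  | birth j =>
    simp only [bt] at h
    split_ifs at h with h1
    simp only [Option.some.injEq] at h
    subst h
    obtain ⟨x, y, rfl, hx⟩ := split0 φ (j + 1) (by omega)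
    have hi : (flo x).length = 1 + (2 * j + 1) := by rw [flo_len, hx]; omega
    rw [fs1_birth hx]
    refine ⟨?_, by simp only [List.length_append, List.length_cons] at hl ⊢; omega⟩
    simp only [up, bd, List.map_cons, List.map_nil, os1, flo_app, flo_cons, ← hi]
    refine Oe.cup (flo x) (flo y) _ [] (!b) [] ?_
    rw [Bool.not_not]
    exact Oe.nil _
  | death j =>
    simp only [bt] at h
    split_ifs at h with h1
    simp only [Option.some.injEq] at h
    subst h
    obtain ⟨x, a, y, rfl, hx⟩ := split1 φ (j + 1) (by omega)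
    have hi : (flo x).length = 1 + (2 * j + 1) := by rw [flo_len, hx]; omega
    rw [fs1_death hx]
    refine ⟨?_, by simp only [List.length_append, List.length_cons] at hl ⊢; omega⟩
    simp only [up, bd, List.map_cons, List.map_nil, os1, flo_app, flo_cons, ← hi]
    have := Oe.cap (flo x) (flo y) _ [] (!a) [] (Oe.nil _)
    rwa [Bool.not_not] at this
  | split j =>
    simp only [bt] at h
    split_ifs at h with h1
    simp only [Option.some.injEq] at h
    subst h
    obtain ⟨x, a, y, rfl, hx⟩ := split1 φ j (by omega)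
    have hi : (flo x ++ [!a]).length = 1 + 2 * j := by
      rw [List.length_append, flo_len, hx, List.length_singleton]; omega
    rw [fs1_split hx]
    refine ⟨?_, by simp only [List.length_append, List.length_cons] at hl ⊢; omega⟩
    have e1 : flo (x ++ a :: y) = (flo x ++ [!a]) ++ a :: flo y := by
      rw [flo_app, flo_cons]; simp
    have e2 : flo (x ++ a :: a :: y) = (flo x ++ [!a]) ++ a :: (!a) :: a :: flo y := by
      rw [flo_app, flo_cons, flo_cons]; simp
    simp only [up, bd, List.map_cons, List.map_nil, os1, e1, e2, bgetD0 hx, ← hi]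
    exact Oe.cup _ _ _ [] a [] (Oe.nil _)
  | merge j =>
    simp only [bt] at h
    split_ifs at h with h1
    simp only [Option.some.injEq] at h
    subst h
    obtain ⟨x, a, c, y, rfl, hx⟩ := split2 φ j (by omega)
    simp only [ok1, bgetD0 hx, bgetD1 hx] at hk
    subst hk
    have hi : (flo x ++ [!a]).length = 1 + 2 * j := by
      rw [List.length_append, flo_len, hx, List.length_singleton]; omega
    rw [fs1_merge hx]
    refine ⟨?_, by simp only [List.length_append, List.length_cons] at hl ⊢; omega⟩
    have e1 : flo (x ++ a :: a :: y) = (flo x ++ [!a]) ++ a :: (!a) :: a :: flo y := by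
      rw [flo_app, flo_cons, flo_cons]; simp
    have e2 : flo (x ++ a :: y) = (flo x ++ [!a]) ++ a :: flo y := by
      rw [flo_app, flo_cons]; simp
    simp only [up, bd, List.map_cons, List.map_nil, os1, e1, e2, ← hi]
    exact Oe.cap _ _ _ [] a [] (Oe.nil _)
  | twist p j =>
    simp only [bt] at h
    split_ifs at h with h1
    simp only [Option.some.injEq] at h
    subst h
    obtain ⟨x, a, y, rfl, hx⟩ := split1 φ (j + 1) (by omega)
    have hi : (flo x).length = 1 + (2 * j + 1) := by rw [flo_len, hx]; omega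
    rw [fs1_twist hx]
    refine ⟨?_, by simp only [List.length_append, List.length_cons] at hl ⊢; omega⟩
    rw [bd, up_X, flo_app, flo_app, flo_cons, flo_cons, Bool.not_not]
    exact oe_X p _ _ _ _ _ _ _ _ hi (Oe.nil _)
  | cross p j =>
    simp only [bt] at h
    split_ifs at h with h1
    simp only [Option.some.injEq] at h
    subst h
    obtain ⟨x, a, c, y, rfl, hx⟩ := split2 φ (j + 1) (by omega)
    have hi : (flo x).length = 1 + (2 * j + 1) := by rw [flo_len, hx]; omega
    rw [fs1_cross hx]
    refine ⟨?_, by simp only [List.length_append, List.length_cons] at hl ⊢; omega⟩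
    rw [bd, up_X, up_X, up_X, up_X, flo_app, flo_app, flo_cons, flo_cons, flo_cons, flo_cons]
    have := (oe_four p p p p (1 + (2 * j + 1)) (flo x) (flo y) a c hi).1
    have e1 : 1 + (2 * j + 2) = 1 + (2 * j + 1) + 1 := by omega
    have e2 : 1 + (2 * j + 3) = 1 + (2 * j + 1) + 2 := by omega
    rw [e1, e2]
    exact this
  | passR p j =>
    simp only [bt] at h
    split_ifs at h with h1
    simp only [Option.some.injEq] at h
    subst h
    obtain ⟨x, a, c, y, rfl, hx⟩ := split2 φ (j + 1) (by omega)
    have hi : (flo x).length = 1 + (2 * j + 1) := by rw [flo_len, hx]; omega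
    rw [fs1_passR hx]
    refine ⟨?_, by simp only [List.length_append, List.length_cons] at hl ⊢; omega⟩
    rw [bd, up_X, up_X, up_X, up_X, flo_app, flo_app, flo_cons, flo_cons, flo_cons, flo_cons]
    have := (oe_four p p (!p) (!p) (1 + (2 * j + 1)) (flo x) (flo y) a c hi).1
    have e1 : 1 + (2 * j + 2) = 1 + (2 * j + 1) + 1 := by omega
    have e2 : 1 + (2 * j + 3) = 1 + (2 * j + 1) + 2 := by omega
    rw [e1, e2]
    exact this
  | passL p j =>
    simp only [bt] at h
    split_ifs at h with h1
    simp only [Option.some.injEq] at h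
    subst h
    obtain ⟨x, a, c, y, rfl, hx⟩ := split2 φ (j + 1) (by omega)
    have hi : (flo x).length = 1 + (2 * j + 1) := by rw [flo_len, hx]; omega
    rw [fs1_passL hx]
    refine ⟨?_, by simp only [List.length_append, List.length_cons] at hl ⊢; omega⟩
    rw [bd, up_X, up_X, up_X, up_X, flo_app, flo_app, flo_cons, flo_cons, flo_cons, flo_cons]
    have := (oe_four p p (!p) (!p) (1 + (2 * j + 1)) (flo x) (flo y) a c hi).2
    have e1 : 1 + (2 * j + 2) = 1 + (2 * j + 1) + 1 := by omega
    have e2 : 1 + (2 * j + 3) = 1 + (2 * j + 1) + 2 := by omega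
    rw [e1, e2]
    exact this

theorem oe_bdw (S : List Bd) (n m k : ℕ) (x : ℕ → Bool) (φ : List Bool) (h : bty S n = some m)
    (hl : φ.length = n + 1) (hk : okk S k x φ) :
    Oe (up (bdw S)) (oss S k x φ) (flo φ) (flo (fss S k x φ)) := by
  induction S generalizing n k φ with
  | nil => exact Oe.nil _
  | cons s S ih =>
    simp only [bty] at h
    cases h1 : bt s n with
    | none => rw [h1] at h; simp at h
    | some q =>
      rw [h1] at h
      obtain ⟨h2, h3⟩ := oe_bd s n q h1 (x k) φ hl hk.1
      rw [bdw_cons, up_append]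
      exact oe_app h2 (ih q (k + bq0 s) (fs1 s (x k) φ) h h3 hk.2)

end Pool.Agent.H86.RT
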