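import Pool.Agent.H86.RT.OCnt
import Pool.Agent.H86.RT.Oef
import Pool.Agent.H86.RT.FacX
import Pool.Agent.H86.RB.OddD

/-!
# [H86 RT OONE] The number of Alexander colourings of the boundary of a ribbon disk

PROOF of `cola_bdw`. Let `w = bdw S`. `srun_shift` with the prefix `[(0, false)]` (as in `col_bdw`, `RB/Flat.lean`): `cola T w`
is the number of elements of `srun (aq T) (up w) [(0, false), (0, true)]` and `ofl [(true, 0, 0)] = [(0, false), (0, true)]`.
By `oe_bdw` (`flo [true] = [false, true]`) there is `Oe (up w) (oss S 1 x [true]) [false, true] _`. By `oe_card`,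
`card (srun bq (up w) [false, true]) = card (run 2 (up w) [0, 0]) = card (run 2 w [0]) = col 2 w = 1` (`run_shift`,
`kn_bdw`). So `arun_card` and `arun_bdw` apply (`fcs [(true, 0, 0)] = [true]`).
-/

set_option autoImplicit false

namespace Pool.Agent.H86.RT

open Pool.Agent.H86.RB

variable {A : Type} [AddCommGroup A] [Fintype A] [DecidableEq A]

theorem cola_bdw (T : A ≃+ A) (x : ℕ → Bool) (S : List Bd) (h : Dsk S) (hx : okk S 1 x [true]) :
    cola T (bdw S) = Multiset.card (obrun T x S 1 [(true, (0 : A), (0 : A))]) := by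
  have h1 : cola T (bdw S) = Multiset.card (srun (aq T) (up (bdw S)) [((0 : A), false), (0, true)]) := by
    have := srun_shift (aq T) (bdw S) [((0 : A), false)] [((0 : A), true)]
    have h2 : up (bdw S) =
        (bdw S).map (fun s => (⟨s.k, ([((0 : A), false)] : List (A × Bool)).length + s.i⟩ : Sl)) := rfl
    have h3 : ([((0 : A), false), (0, true)] : List (A × Bool)) = [((0 : A), false)] ++ [((0 : A), true)] := rfl
    rw [h2, h3, this, Multiset.card_map]
    rfl
  have h2 := oe_bdw S 0 0 1 x [true] h.1 rfl hx
  have e : flo [true] = [false, true] := rfl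
  rw [e] at h2
  have h3 : Multiset.card (srun bq (up (bdw S)) [false, true]) = 1 := by
    rw [oe_card h2]
    have h4 := run_shift (N := 2) (bdw S) [0] [0]
    have h5 : up (bdw S) = (bdw S).map (fun s => (⟨s.k, ([0] : List (ZMod 2)).length + s.i⟩ : Sl)) := rfl
    have h6 : List.replicate ([false, true] : List Bool).length (0 : ZMod 2) = [0] ++ [0] := rfl
    rw [h5, h6, h4, Multiset.card_map]
    exact (kn_bdw S h).2
  rw [h1, arun_card T h2 h3 [((0 : A), false), (0, true)] rfl]
  exact arun_bdw T x S 0 0 1 h.1 [(true, (0 : A), (0 : A))] rfl hx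

end Pool.Agent.H86.RT
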