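import Pool.Agent.H86.RT.SqInv

/-!
# Alexander colourings

`A` is an abelian group with an automorphism `T`. The colour of a strand is an element of `A` together with an
orientation (`true`: upwards).
-/

set_option autoImplicit false

namespace Pool.Agent.H86.RT

open Pool.Agent.H86.RB

/-- the action of a strand with orientation `o` -/
def ax {A : Type} [AddCommGroup A] (T : A ≃+ A) (o : Bool) : A ≃+ A := if o then T else T.symm

theorem ax_true {A : Type} [AddCommGroup A] (T : A ≃+ A) : ax T true = T := rfl

theorem ax_false {A : Type} [AddCommGroup A] (T : A ≃+ A) : ax T false = T.symm := rfl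

theorem ax_not {A : Type} [AddCommGroup A] (T : A ≃+ A) (o : Bool) (x : A) :
    ax T o (ax T (!o) x) = x := by
  cases o
  · exact T.symm_apply_apply x
  · exact T.apply_symm_apply x

theorem ax_not' {A : Type} [AddCommGroup A] (T : A ≃+ A) (o : Bool) (x : A) :
    ax T (!o) (ax T o x) = x := by
  cases o
  · exact T.apply_symm_apply x
  · exact T.symm_apply_apply x

theorem ax_comm {A : Type} [AddCommGroup A] (T : A ≃+ A) (o o' : Bool) (x : A) :
    ax T o (ax T o' x) = ax T o' (ax T o x) := by
  cases o <;> cases o' <;> simp [ax_true, ax_false]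

/-- the Alexander quandle of `T`, with orientations -/
def aq {A : Type} [AddCommGroup A] (T : A ≃+ A) : Sq (A × Bool) where
  bar c := (c.1, !c.2)
  op a :=
    { toFun := fun b => (a.1 + ax T a.2 (b.1 - a.1), b.2)
      invFun := fun b => (a.1 + ax T (!a.2) (b.1 - a.1), b.2)
      left_inv := fun b => by
        obtain ⟨a, o⟩ := a
        obtain ⟨b, o'⟩ := b
        simp only [add_sub_cancel_left, ax_not', Prod.mk.injEq, and_true]
        abel
      right_inv := fun b => by
        obtain ⟨a, o⟩ := a
        obtain ⟨b, o'⟩ := b
        simp only [add_sub_cancel_left, ax_not, Prod.mk.injEq, and_true]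
        abel }
  bar_bar := fun a => by simp
  op_bar := fun a => by
    ext b
    · rfl
    · rfl
  bar_op := fun a b => rfl
  op_self := fun a => by
    ext
    · simp
    · rfl
  dist := fun a b c => by
    obtain ⟨a, o⟩ := a
    obtain ⟨b, o'⟩ := b
    obtain ⟨c, o''⟩ := c
    simp only [Equiv.coe_fn_mk, Prod.mk.injEq, and_true, map_sub, map_add]
    rw [ax_comm T o' o c, ax_comm T o' o b]
    abel

/-- the number of `(A, T)`-colourings of an oriented long knot whose lower end has colour `0` -/
def cola {A : Type} [AddCommGroup A] [Fintype A] [DecidableEq A] (T : A ≃+ A) (w : Wd) : ℕ :=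
  Multiset.card (srun (aq T) w [((0 : A), true)])

theorem cola_iso {A : Type} [AddCommGroup A] [Fintype A] [DecidableEq A] (T : A ≃+ A) {v w : Wd}
    (h : Iso v w) : cola T v = cola T w := by
  unfold cola
  rw [srun_iso (aq T) h]

/-- the weighted sum of the colours of the strands -/
def wsm {A : Type} [AddCommGroup A] (T : A ≃+ A) : List (A × Bool) → A
  | [] => 0
  | (a, true) :: l => a + T (wsm T l)
  | (a, false) :: l => T.symm (wsm T l - a)

/-- the number of strands going up minus the number of strands going down -/
def lvl {A : Type} : List (A × Bool) → ℤ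
  | [] => 0
  | (_, o) :: l => (if o then 1 else -1) + lvl l

theorem wsm_app {A : Type} [AddCommGroup A] (T : A ≃+ A) (x : List (A × Bool))
    {l l' : List (A × Bool)} (h : wsm T l = wsm T l') : wsm T (x ++ l) = wsm T (x ++ l') := by
  induction x with
  | nil => exact h
  | cons a x ih =>
    obtain ⟨a, o⟩ := a
    cases o <;> simp only [List.cons_append, wsm, ih]

theorem lvl_app {A : Type} (x l : List (A × Bool)) : lvl (x ++ l) = lvl x + lvl l := by
  induction x with
  | nil => simp [lvl]
  | cons a x ih =>
    obtain ⟨a, o⟩ := a
    simp only [List.cons_append, lvl, ih]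
    ring

section

variable {A : Type} [AddCommGroup A] [Fintype A] [DecidableEq A] (T : A ≃+ A)

theorem wsm_loc (k : Kd) (l t : List (A × Bool)) (ht : t ∈ sloc (aq T) k l) :
    wsm T t = wsm T l ∧ lvl t = lvl l := by
  match k, l, ht with
  | .cup, l, ht =>
    simp only [sloc, Multiset.mem_map] at ht
    obtain ⟨⟨c, o⟩, _, rfl⟩ := ht
    cases o
    · constructor
      · simp only [aq, wsm, Bool.not_false]
        rw [add_sub_cancel_left, T.symm_apply_apply]
      · simp [aq, lvl]
    · constructor
      · simp only [aq, wsm, Bool.not_true]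
        rw [T.apply_symm_apply]
        abel
      · simp [aq, lvl]
  | .cap, (a, o) :: (b, o') :: r, ht =>
    simp only [sloc] at ht
    split_ifs at ht with h
    · rw [Multiset.mem_singleton] at ht
      subst ht
      rw [h]
      cases o
      · constructor
        · simp only [aq, wsm, Bool.not_false]
          rw [add_sub_cancel_left, T.symm_apply_apply]
        · simp [aq, lvl]
      · constructor
        · simp only [aq, wsm, Bool.not_true]
          rw [T.apply_symm_apply]
          abel
        · simp [aq, lvl]
    · simp at ht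
  | .cap, [], ht => simp [sloc] at ht
  | .cap, [a], ht => simp [sloc] at ht
  | .pos, (a, o) :: (b, o') :: r, ht =>
    simp only [sloc, Multiset.mem_singleton] at ht
    subst ht
    constructor
    · cases o <;> cases o' <;>
        simp only [aq, Equiv.coe_fn_mk, wsm, ax_true, ax_false, map_sub, map_add,
          AddEquiv.symm_apply_apply, AddEquiv.apply_symm_apply] <;> abel
    · simp only [aq, Equiv.coe_fn_mk, lvl]
      ring_nf
  | .pos, [], ht => simp [sloc] at ht
  | .pos, [a], ht => simp [sloc] at ht
  | .neg, (a, o) :: (b, o') :: r, ht =>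
    simp only [sloc, Multiset.mem_singleton] at ht
    subst ht
    constructor
    · cases o <;> cases o' <;>
        simp only [aq, Equiv.coe_fn_symm_mk, wsm, ax_true, ax_false, map_sub, map_add, Bool.not_true,
          Bool.not_false, AddEquiv.symm_apply_apply, AddEquiv.apply_symm_apply] <;> abel
    · simp only [aq, Equiv.coe_fn_symm_mk, lvl]
      ring_nf
  | .neg, [], ht => simp [sloc] at ht
  | .neg, [a], ht => simp [sloc] at ht

theorem wsm_stp (s : Sl) (l t : List (A × Bool)) (ht : t ∈ sstp (aq T) s l) :
    wsm T t = wsm T l ∧ lvl t = lvl l := by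
  simp only [sstp, Multiset.mem_map] at ht
  obtain ⟨r, hr, rfl⟩ := ht
  obtain ⟨h1, h2⟩ := wsm_loc T s.k _ r hr
  constructor
  · rw [wsm_app T (l.take s.i) h1, List.take_append_drop]
  · rw [lvl_app, h2, ← lvl_app, List.take_append_drop]

theorem wsm_run (w : Wd) (l : List (A × Bool)) :
    ∀ t ∈ srun (aq T) w l, wsm T t = wsm T l ∧ lvl t = lvl l := by
  induction w generalizing l with
  | nil =>
    intro t ht
    rw [srun_nil, Multiset.mem_singleton] at ht
    rw [ht]
    exact ⟨rfl, rfl⟩
  | cons s w ih =>
    intro t ht
    rw [srun_cons, Multiset.mem_bind] at ht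
    obtain ⟨r, hr, ht⟩ := ht
    have h1 := ih r t ht
    have h2 := wsm_stp T s l r hr
    exact ⟨h1.1.trans h2.1, h1.2.trans h2.2⟩

/-- the upper end of a long knot has the colour of the lower end -/
theorem srun_long (w : Wd) (h : ty w 1 = some 1) :
    srun (aq T) w [((0 : A), true)] = Multiset.replicate (cola T w) [((0 : A), true)] := by
  rw [Multiset.eq_replicate]
  refine ⟨rfl, fun t ht => ?_⟩
  have h1 := srun_len (aq T) w [((0 : A), true)] 1 (by simpa using h) t ht
  have h2 := wsm_run T w [((0 : A), true)] t ht
  obtain ⟨⟨a, o⟩, rfl⟩ := List.length_eq_one_iff.1 h1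
  obtain ⟨h3, h4⟩ := h2
  cases o
  · simp [lvl] at h4
  · simp only [wsm, map_zero, add_zero] at h3
    rw [h3]

theorem cola_append (v w : Wd) (h : ty v 1 = some 1) :
    cola T (v ++ w) = cola T v * cola T w := by
  have h1 : cola T (v ++ w) = Multiset.card (srun (aq T) (v ++ w) [((0 : A), true)]) := rfl
  rw [h1, srun_append, srun_long T v h]
  simp [Multiset.card_bind, Multiset.map_replicate, Multiset.sum_replicate, cola]

theorem cola_nil : cola T [] = 1 := by simp [cola, srun_nil]

theorem cola_flatten (L : List Wd) (h : ∀ K ∈ L, ty K 1 = some 1) :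
    cola T L.flatten = (L.map (fun K => cola T K)).prod := by
  induction L with
  | nil => simp [cola_nil]
  | cons K L ih =>
    rw [List.flatten_cons, cola_append T K _ (h K (by simp)), ih fun K' hK' => h K' (by simp [hK'])]
    simp

end

end Pool.Agent.H86.RT
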