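import Pool.Agent.H86.RT.Fdef
import Pool.Agent.H86.RB.Zip

/-!
# Facings and flags, when the list is cut at the slice
-/

set_option autoImplicit false

namespace Pool.Agent.H86.RT

open Pool.Agent.H86.RB

theorem bgetD0 {x y : List Bool} {a : Bool} {i : ℕ} (h : x.length = i) :
    (x ++ a :: y).getD i true = a := by
  subst h
  simp [List.getD_eq_getElem?_getD]

theorem bgetD1 {x y : List Bool} {a b : Bool} {i : ℕ} (h : x.length = i) :
    (x ++ a :: b :: y).getD (i + 1) true = b := by
  subst h
  simp [List.getD_eq_getElem?_getD]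

theorem btake1 {x y : List Bool} {a : Bool} {i : ℕ} (h : x.length = i) :
    (x ++ a :: y).take (i + 1) = x ++ [a] := by
  subst h
  simp [List.take_append]

theorem bdrop1 {x y : List Bool} {a : Bool} {i : ℕ} (h : x.length = i) :
    (x ++ a :: y).drop (i + 1) = y := by
  subst h
  simp [List.drop_append]

theorem bdrop2 {x y : List Bool} {a b : Bool} {i : ℕ} (h : x.length = i) :
    (x ++ a :: b :: y).drop (i + 2) = y := by
  subst h
  simp [List.drop_append]

theorem fs1_birth {j : ℕ} {b : Bool} {x y : List Bool} (h : x.length = j + 1) :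
    fs1 (.birth j) b (x ++ y) = x ++ b :: y := by
  simp only [fs1, List.take_left' h, List.drop_left' h]

theorem fs1_death {j : ℕ} {b a : Bool} {x y : List Bool} (h : x.length = j + 1) :
    fs1 (.death j) b (x ++ a :: y) = x ++ y := by
  have hd : (x ++ a :: y).drop (j + 2) = y := bdrop1 h
  simp only [fs1, List.take_left' h, hd]

theorem fs1_split {j : ℕ} {b a : Bool} {x y : List Bool} (h : x.length = j) :
    fs1 (.split j) b (x ++ a :: y) = x ++ a :: a :: y := by
  simp only [fs1, btake1 h, List.drop_left' h, List.append_assoc, List.cons_append, List.nil_append]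

theorem fs1_merge {j : ℕ} {b a c : Bool} {x y : List Bool} (h : x.length = j) :
    fs1 (.merge j) b (x ++ a :: c :: y) = x ++ a :: y := by
  simp only [fs1, btake1 h, bdrop2 h, List.append_assoc, List.cons_append, List.nil_append]

theorem fs1_twist {p : Bool} {j : ℕ} {b a : Bool} {x y : List Bool} (h : x.length = j + 1) :
    fs1 (.twist p j) b (x ++ a :: y) = x ++ (!a) :: y := by
  have hd : (x ++ a :: y).drop (j + 2) = y := bdrop1 h
  simp only [fs1, List.take_left' h, hd, bgetD0 h]

theorem fs1_cross {p : Bool} {j : ℕ} {b a c : Bool} {x y : List Bool} (h : x.length = j + 1) :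
    fs1 (.cross p j) b (x ++ a :: c :: y) = x ++ c :: a :: y := by
  have hd : (x ++ a :: c :: y).drop (j + 3) = y := bdrop2 h
  have hg : (x ++ a :: c :: y).getD (j + 2) true = c := bgetD1 h
  simp only [fs1, List.take_left' h, hd, bgetD0 h, hg]

theorem fs1_passR {p : Bool} {j : ℕ} {b a c : Bool} {x y : List Bool} (h : x.length = j + 1) :
    fs1 (.passR p j) b (x ++ a :: c :: y) = x ++ c :: a :: y := fs1_cross (p := p) (b := b) h

theorem fs1_passL {p : Bool} {j : ℕ} {b a c : Bool} {x y : List Bool} (h : x.length = j + 1) :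
    fs1 (.passL p j) b (x ++ a :: c :: y) = x ++ c :: a :: y := fs1_cross (p := p) (b := b) h

theorem fg1_passR {p : Bool} {j : ℕ} {a c : Bool} {x y : List Bool} (h : x.length = j + 1) :
    fg1 (.passR p j) (x ++ a :: c :: y) = [if p then !c else c] := by
  have hg : (x ++ a :: c :: y).getD (j + 2) true = c := bgetD1 h
  simp only [fg1, hg]

theorem fg1_passL {p : Bool} {j : ℕ} {a c : Bool} {x y : List Bool} (h : x.length = j + 1) :
    fg1 (.passL p j) (x ++ a :: c :: y) = [if p then a else !a] := by
  simp only [fg1, bgetD0 h]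

theorem fg1_len (s : Bd) (φ : List Bool) (k : ℕ) (vs : List ℕ) :
    (fg1 s φ).length = (rst s k vs).1.length := by
  cases s <;> rfl

end Pool.Agent.H86.RT
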