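import Mathlib

/-!
# The modules used in the examples

`T4 v = - v + (v shifted)` on `(ZMod 3) ^ 4`; so `N = T4 + 1` is the shift `(N v) 0 = 0`, `(N v) (i + 1) = v i`, and
`lam4 v = v 3`.
-/

set_option autoImplicit false

namespace Pool.Agent.H86.RT

/-- the shift plus `-1` on `(ZMod 3) ^ 4` -/
def T4 : (Fin 4 → ZMod 3) ≃ₗ[ZMod 3] (Fin 4 → ZMod 3) where
  toFun v := ![- v 0, - v 1 + v 0, - v 2 + v 1, - v 3 + v 2]
  map_add' v w := by
    ext i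
    fin_cases i <;> simp <;> ring
  map_smul' a v := by
    ext i
    fin_cases i <;> simp <;> ring
  invFun v := ![- v 0, - v 1 - v 0, - v 2 - v 1 - v 0, - v 3 - v 2 - v 1 - v 0]
  left_inv v := by
    ext i
    fin_cases i <;> simp <;> ring
  right_inv v := by
    ext i
    fin_cases i <;> simp <;> ring

/-- the last coordinate -/
def lam4 : (Fin 4 → ZMod 3) →ₗ[ZMod 3] ZMod 3 := LinearMap.proj 3

theorem hsep4 : ∀ v : Fin 4 → ZMod 3, (∀ i : ℕ, lam4 ((T4 ^ i) v) = 0) → v = 0 := by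
  intro v hv
  have h0 := hv 0
  have h1 := hv 1
  have h2 := hv 2
  have h3 := hv 3
  have e1 : (T4 ^ 2) v = T4 (T4 v) := by
    rw [pow_succ, pow_one]
    rfl
  have e2 : (T4 ^ 3) v = T4 (T4 (T4 v)) := by
    rw [pow_succ, pow_succ, pow_one]
    rfl
  rw [pow_zero] at h0
  rw [pow_one] at h1
  rw [e1] at h2
  rw [e2] at h3
  have a0 : v 3 = 0 := h0
  have a1 : - v 3 + v 2 = 0 := h1
  have a2 : - (- v 3 + v 2) + (- v 2 + v 1) = 0 := h2
  have a3 : - (- (- v 3 + v 2) + (- v 2 + v 1)) + (- (- v 2 + v 1) + (- v 1 + v 0)) = 0 := h3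
  have b2 : v 2 = 0 := by rw [a0] at a1; simpa using a1
  have b1 : v 1 = 0 := by rw [a0, b2] at a2; simpa using a2
  have b0 : v 0 = 0 := by rw [a0, b2, b1] at a3; simpa using a3
  funext i
  fin_cases i
  · exact b0
  · exact b1
  · exact b2
  · exact a0

theorem exists_T3 : ∃ Tk : ∀ k : ℕ, (Fin 1 → ZMod (3 ^ k)) ≃+ (Fin 1 → ZMod (3 ^ k)),
    ∀ k v a, Tk k v a = ∑ b : Fin 1, (((fun _ _ => 2 : Matrix (Fin 1) (Fin 1) ℤ) a b : ℤ) :
      ZMod (3 ^ k)) * v b := by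
  have hc : ∀ k : ℕ, ((2 : ℕ) : ZMod (3 ^ k)) * ((2 : ℕ) : ZMod (3 ^ k))⁻¹ = 1 := fun k =>
    ZMod.coe_mul_inv_eq_one 2 (Nat.Coprime.pow_right k (by norm_num))
  refine ⟨fun k =>
    { toFun := fun v a => ((2 : ℕ) : ZMod (3 ^ k)) * v a
      invFun := fun v a => ((2 : ℕ) : ZMod (3 ^ k))⁻¹ * v a
      left_inv := ?_
      right_inv := ?_
      map_add' := ?_ }, ?_⟩
  · intro v
    funext a
    show ((2 : ℕ) : ZMod (3 ^ k))⁻¹ * (((2 : ℕ) : ZMod (3 ^ k)) * v a) = v a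
    rw [← mul_assoc, mul_comm (((2 : ℕ) : ZMod (3 ^ k))⁻¹), hc, one_mul]
  · intro v
    funext a
    show ((2 : ℕ) : ZMod (3 ^ k)) * (((2 : ℕ) : ZMod (3 ^ k))⁻¹ * v a) = v a
    rw [← mul_assoc, hc, one_mul]
  · intro v w
    funext a
    rw [Pi.add_apply, mul_add]
    rfl
  · intro k v a
    rw [Fin.sum_univ_one, Subsingleton.elim a 0]
    show ((2 : ℕ) : ZMod (3 ^ k)) * v 0 = ((2 : ℤ) : ZMod (3 ^ k)) * v 0
    push_cast
    rfl

end Pool.Agent.H86.RT
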