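import Pool.Agent.H86.RT.ExE
import Pool.Agent.H86.RT.ExT
import Pool.Agent.H86.RT.OOne

/-!
# The pretzel knots P(3, -3, n): numbers of colourings

`T4 v = - v + N v` on `(ZMod 3) ^ 4`, `N` the shift `(N v) 0 = 0`, `(N v) (i + 1) = v i`.
-/

set_option autoImplicit false

namespace Pool.Agent.H86.RT

open Pool.Agent.H86.RB

private theorem gen {A : Type} [AddCommGroup A] [Fintype A] [DecidableEq A] (T : A ≃+ A) (p : Bool)
    (n : ℕ) {X : Type} [Fintype X] (g : X → A × A) (hg : Function.Injective g)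
    (hev : ∀ x, ∃ f st', OEv T (fun _ => true) (spz p n) 1 [(true, (0 : A), (0 : A))]
      [(g x).1, (g x).2] f st') : Fintype.card X ≤ cola T (kpz p n) := by
  classical
  rw [kpz, cola_bdw T (fun _ => true) (spz p n) (dsk_spz p n) (okk_spz p n)]
  choose f st' h using hev
  refine le_trans ?_ (Multiset.toFinset_card_le _)
  rw [← Finset.card_univ]
  apply Finset.card_le_card_of_injOn (fun x => ([(g x).1, (g x).2], f x))
  · intro x _
    rw [Finset.mem_coe, Multiset.mem_toFinset]
    exact mem_of_oev (h x)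
  · intro x _ y _ hxy
    have h1 : [(g x).1, (g x).2] = [(g y).1, (g y).2] := congrArg Prod.fst hxy
    rw [List.cons.injEq, List.cons.injEq] at h1
    exact hg (Prod.ext h1.1 h1.2.1)

private theorem three : (3 : ZMod 3) = 0 := by decide

private theorem t4 (v : Fin 4 → ZMod 3) :
    T4.toAddEquiv v = ![- v 0, - v 1 + v 0, - v 2 + v 1, - v 3 + v 2] := rfl

private theorem d0 (a b : ZMod 3) : (![0, 0, a, b] : Fin 4 → ZMod 3) - T4.toAddEquiv ![0, 0, a, b] +
    T4.toAddEquiv (T4.toAddEquiv ![0, 0, a, b]) = 0 := by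
  funext i
  fin_cases i
  · simp [t4]
  · simp [t4]
  · simp [t4]
    linear_combination a * three
  · simp [t4]
    linear_combination (b - a) * three

private theorem d1 (a b : ZMod 3) : (![a, b, 0, 0] : Fin 4 → ZMod 3) - T4.toAddEquiv ![a, b, 0, 0] +
    T4.toAddEquiv (T4.toAddEquiv ![a, b, 0, 0]) = ![0, 0, a, b] := by
  funext i
  fin_cases i
  · simp [t4]
    linear_combination a * three
  · simp [t4]
    linear_combination (b - a) * three
  · simp [t4]
    linear_combination (- b) * three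
  · simp [t4]

theorem cola_even (p : Bool) (j : ℕ) : 3 ^ 4 ≤ cola T4.toAddEquiv (kpz p (2 * j)) := by
  have h := gen (X := ZMod 3 × ZMod 3 × ZMod 3 × ZMod 3) T4.toAddEquiv p (2 * j)
    (fun x => (![0, 0, x.1, x.2.1], (if p then -1 else 1 : ℤ) • (j • T4.toAddEquiv ![x.1, x.2.1, 0, 0]) +
      ![0, 0, x.2.2.1, x.2.2.2])) ?_ ?_
  · refine le_trans (le_of_eq ?_) h
    simp [Fintype.card_prod, ZMod.card]
  · rintro ⟨a, b, c, d⟩ ⟨a', b', c', d'⟩ h
    rw [Prod.mk.injEq] at h
    obtain ⟨h1, h2⟩ := h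
    have e1 : a = a' := congrFun h1 2
    have e2 : b = b' := congrFun h1 3
    subst e1 e2
    have h3 := add_left_cancel h2
    have e3 : c = c' := congrFun h3 2
    have e4 : d = d' := congrFun h3 3
    rw [e3, e4]
  · rintro ⟨a, b, c, d⟩
    apply ev_even
    · exact d0 a b
    · have h1 := d0 c d
      have h2 := d1 a b
      simp only
      rw [← h2]
      set w : Fin 4 → ZMod 3 := ![a, b, 0, 0]
      set z : Fin 4 → ZMod 3 := ![0, 0, c, d]
      simp only [map_add, map_sub, map_zsmul, map_nsmul, smul_add, smul_sub]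
      rw [← sub_eq_zero, ← h1]
      abel

theorem cola_odd (p : Bool) (j : ℕ) : 3 ^ 2 ≤ cola T4.toAddEquiv (kpz p (2 * j + 1)) := by
  have h := gen (X := ZMod 3 × ZMod 3) T4.toAddEquiv p (2 * j + 1)
    (fun x => (![0, 0, 0, x.1],
      ![0, 0, (((if p then -((j : ℤ) + 1) else (j : ℤ) : ℤ) : ZMod 3) - 1) * x.1, x.2])) ?_ ?_
  · refine le_trans (le_of_eq ?_) h
    simp [Fintype.card_prod, ZMod.card]
  · rintro ⟨a, b⟩ ⟨a', b'⟩ h
    rw [Prod.mk.injEq] at h
    obtain ⟨h1, h2⟩ := h
    have e1 : a = a' := congrFun h1 3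
    have e2 : b = b' := congrFun h2 3
    rw [e1, e2]
  · rintro ⟨a, b⟩
    have h0 : T4.toAddEquiv ![0, 0, 0, a] = - ![0, 0, 0, a] := by
      rw [t4]
      funext i
      fin_cases i <;> simp
    have h0' : T4.toAddEquiv.symm ![0, 0, 0, a] = - ![0, 0, 0, a] := by
      rw [AddEquiv.symm_apply_eq, map_neg, h0, neg_neg]
    apply ev_odd
    · simp only
      rw [h0]
      funext i
      fin_cases i
      · simp
      · simp
      · simp
      · simp
        linear_combination a * three
    · simp only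
      rw [h0, h0', t4]
      generalize (if p then -((j : ℤ) + 1) else (j : ℤ)) = m
      funext i
      fin_cases i
      · simp
      · simp
      · simp
        linear_combination ((m - 1) * a : ZMod 3) * three
      · simp
        linear_combination (b + m * a : ZMod 3) * three

theorem cola_three (p : Bool) (j k : ℕ) (T : (Fin 1 → ZMod (3 ^ k)) ≃+ (Fin 1 → ZMod (3 ^ k)))
    (hT : ∀ v a, T v a = ∑ b : Fin 1, (((fun _ _ => 2 : Matrix (Fin 1) (Fin 1) ℤ) a b : ℤ) :
      ZMod (3 ^ k)) * v b) : 3 ^ (k * 1) ≤ cola T (kpz p (2 * j + 1)) := by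
  have h := gen (X := Fin 1 → ZMod (3 ^ k)) T p (2 * j + 1) (fun x => (0, x)) ?_ ?_
  · refine le_trans (le_of_eq ?_) h
    simp [ZMod.card]
  · intro x y h
    exact congrArg Prod.snd h
  · intro x
    apply ev_odd
    · simp
    · have h1 : T x = x + x := by
        funext a
        rw [hT, Fin.sum_univ_one, Subsingleton.elim a 0, Pi.add_apply]
        push_cast
        ring
      simp [h1]

theorem cola_pos {A : Type} [AddCommGroup A] [Fintype A] [DecidableEq A] (T : A ≃+ A) (p : Bool)
    (j : ℕ) : 1 ≤ cola T (kpz p (2 * j)) := by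
  have h := gen (X := Unit) T p (2 * j) (fun _ => (0, 0)) ?_ ?_
  · simpa using h
  · intro x y _
    rfl
  · intro x
    apply ev_even <;> simp

end Pool.Agent.H86.RT
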