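import Pool.Agent.H86.RT.Bnd
import Pool.Agent.H86.RT.ExC

/-!
# Additivity of the ribbon number
-/

set_option autoImplicit false

namespace Pool.Agent.H86.RT

open Pool.Agent.H86.RB

section

variable {l : ℕ} [Fact l.Prime] [NeZero l] {V : Type} [AddCommGroup V]
  [Module (ZMod l) V] [Fintype V] [DecidableEq V] (T : V ≃ₗ[ZMod l] V)
  {s : ℕ} (N : ℕ) [NeZero N]
  (Tk : ∀ k : ℕ, (Fin s → ZMod (N ^ k)) ≃+ (Fin s → ZMod (N ^ k)))

/-- `K` is a ribbon knot with at least `l ^ e` colourings by `(V, T)` and at least `N ^ (k d)` colourings by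
`((ZMod (N ^ k)) ^ s, Tk k)` for all `k`, where `s * e + 2 * d = 2 * s * rib K` -/
def Cl (K : Wd) : Prop :=
  Kn K ∧ Rb K ∧ ∃ e d : ℕ, l ^ e ≤ cola T.toAddEquiv K ∧ (∀ k, N ^ (k * d) ≤ cola (Tk k) K) ∧
    s * e + 2 * d = 2 * s * rib K

theorem cl_flatten (lam : V →ₗ[ZMod l] ZMod l) (hsep : ∀ v : V, (∀ i : ℕ, lam ((T ^ i) v) = 0) → v = 0)
    (q : ℕ) [Fact q.Prime] [NeZero q] (hs : 0 < s) (Θ : Matrix (Fin s) (Fin s) ℤ)
    (hΘ : ∀ a b, a ≤ b → (q : ℤ) ∣ Θ a b) (hN : 1 < N)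
    (hT : ∀ k v a, Tk k v a = ∑ b, ((Θ a b : ℤ) : ZMod (N ^ k)) * v b)
    (L : List Wd) (h : ∀ K ∈ L, Cl T N Tk K) :
    rib L.flatten = (L.map rib).sum ∧ Cl T N Tk L.flatten := by
  have h1 : ∃ e d : ℕ, l ^ e ≤ cola T.toAddEquiv L.flatten ∧
      (∀ k, N ^ (k * d) ≤ cola (Tk k) L.flatten) ∧ s * e + 2 * d = 2 * s * (L.map rib).sum := by
    induction L with
    | nil =>
      refine ⟨0, 0, ?_, fun k => ?_, by simp⟩
      · rw [List.flatten_nil, cola_nil, pow_zero]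
      · rw [List.flatten_nil, cola_nil, mul_zero, pow_zero]
    | cons K L ih =>
      obtain ⟨e, d, g1, g2, g3⟩ := ih fun K' hK' => h K' (by simp [hK'])
      obtain ⟨g0, _, e', d', g4, g5, g6⟩ := h K (by simp)
      refine ⟨e' + e, d' + d, ?_, fun k => ?_, ?_⟩
      · rw [List.flatten_cons, cola_append _ _ _ g0.1, pow_add]
        exact Nat.mul_le_mul g4 g1
      · rw [List.flatten_cons, cola_append _ _ _ g0.1, mul_add, pow_add]
        exact Nat.mul_le_mul (g5 k) (g2 k)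
      · rw [List.map_cons, List.sum_cons]
        calc s * (e' + e) + 2 * (d' + d) = (s * e' + 2 * d') + (s * e + 2 * d) := by ring
          _ = 2 * s * rib K + 2 * s * (L.map rib).sum := by rw [g6, g3]
          _ = _ := by ring
  have hL : ∀ K ∈ L, Kn K ∧ Rb K := fun K hK => ⟨(h K hK).1, (h K hK).2.1⟩
  obtain ⟨e, d, g1, g2, g3⟩ := h1
  have hR := rb_flatten L hL
  have h2 := bnd L.flatten hR T lam hsep q Θ hΘ N hN Tk hT e d g1 g2
  have h3 := rib_flatten_le L hL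
  have h4 : rib L.flatten = (L.map rib).sum := by
    refine le_antisymm h3 ?_
    rw [g3] at h2
    exact Nat.le_of_mul_le_mul_left h2 (by omega)
  exact ⟨h4, kn_flatten L fun K hK => (hL K hK).1, hR, e, d, g1, g2, by rw [g3, h4]⟩

end

theorem rb_kpz (p : Bool) (n : ℕ) : Kn (kpz p n) ∧ Rb (kpz p n) :=
  ⟨kn_bdw _ (dsk_spz p n), spz p n, dsk_spz p n, Relation.ReflTransGen.refl⟩

theorem rib_kpz (p : Bool) (n : ℕ) : rib (kpz p n) = 2 := by
  obtain ⟨Tk, hT⟩ := exists_T3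
  have h1 : rib (kpz p n) ≤ 2 := by
    have := rib_le (kpz p n) (spz p n) (dsk_spz p n) Relation.ReflTransGen.refl
    rwa [passes_spz] at this
  have : Fact (Nat.Prime 3) := ⟨Nat.prime_three⟩
  have : Fact (Nat.Prime 2) := ⟨Nat.prime_two⟩
  have hΘ : ∀ a b : Fin 1, a ≤ b → ((2 : ℕ) : ℤ) ∣ (fun _ _ => 2 : Matrix (Fin 1) (Fin 1) ℤ) a b :=
    fun a b _ => dvd_refl _
  rcases Nat.even_or_odd' n with ⟨j, rfl | rfl⟩
  · have := bnd (kpz p (2 * j)) (rb_kpz p _).2 T4 lam4 hsep4 2 (fun _ _ => 2) hΘ 3 (by norm_num) Tk hT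
      4 0 (cola_even p j) (fun k => by rw [mul_zero, pow_zero]; exact cola_pos _ p j)
    omega
  · have := bnd (kpz p (2 * j + 1)) (rb_kpz p _).2 T4 lam4 hsep4 2 (fun _ _ => 2) hΘ 3 (by norm_num) Tk
      hT 2 1 (cola_odd p j) (fun k => cola_three p j k (Tk k) (hT k))
    omega

theorem kpz_cl (Tk : ∀ k : ℕ, (Fin 1 → ZMod (3 ^ k)) ≃+ (Fin 1 → ZMod (3 ^ k)))
    (hT : ∀ k v a, Tk k v a = ∑ b : Fin 1, (((fun _ _ => 2 : Matrix (Fin 1) (Fin 1) ℤ) a b : ℤ) :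
      ZMod (3 ^ k)) * v b) (p : Bool) (n : ℕ) :
    Cl (l := 3) T4 3 Tk (kpz p n) := by
  refine ⟨(rb_kpz p n).1, (rb_kpz p n).2, ?_⟩
  rw [rib_kpz]
  rcases Nat.even_or_odd' n with ⟨j, rfl | rfl⟩
  · exact ⟨4, 0, cola_even p j, fun k => by rw [mul_zero, pow_zero]; exact cola_pos _ p j, by norm_num⟩
  · exact ⟨2, 1, cola_odd p j, fun k => cola_three p j k (Tk k) (hT k), by norm_num⟩

/-- the ribbon number is additive on the pretzel knots `P(3, -3, n)` -/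
theorem rib_kpz_list (L : List (Bool × ℕ)) :
    rib (L.map (fun t => kpz t.1 t.2)).flatten = 2 * L.length := by
  obtain ⟨Tk, hT⟩ := exists_T3
  have : Fact (Nat.Prime 3) := ⟨Nat.prime_three⟩
  have : Fact (Nat.Prime 2) := ⟨Nat.prime_two⟩
  have hΘ : ∀ a b : Fin 1, a ≤ b → ((2 : ℕ) : ℤ) ∣ (fun _ _ => 2 : Matrix (Fin 1) (Fin 1) ℤ) a b :=
    fun a b _ => dvd_refl _
  have h := (cl_flatten (l := 3) T4 3 Tk lam4 hsep4 2 Nat.one_pos (fun _ _ => 2) hΘ (by norm_num) hT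
    (L.map (fun t => kpz t.1 t.2)) (by
      intro K hK
      obtain ⟨t, _, rfl⟩ := List.mem_map.1 hK
      exact kpz_cl Tk hT t.1 t.2)).1
  rw [h, List.map_map]
  have h2 : (rib ∘ fun t : Bool × ℕ => kpz t.1 t.2) = fun _ => 2 := by
    funext t
    exact rib_kpz t.1 t.2
  rw [h2]
  simp [mul_comm]

end Pool.Agent.H86.RT
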