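import Pool.Agent.H86.RT.Ori

/-!
# [H86 RT ARU] Colourings with a given orientation

`arun T w os l`: the colourings of `w` whose orientation is given by `os` (the orientations of the left strands of the
cups). If `w` has only one orientation, every colouring is of this kind.

PROOF of `arun_card`. First: `(proj)` if `t ∈ srun (aq T) w st` then `t.map Prod.snd ∈ srun bq w (st.map Prod.snd)`
(induction on `w`: `srun_cons`, `Multiset.mem_bind`; for one slice by cases on the piece; `List.map_take`,
`List.map_drop`). So `srun bq w (st.map Prod.snd) = 0` implies `srun (aq T) w st = 0`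
(`Multiset.eq_zero_of_forall_notMem`).
Then induction on `Oe`, generalizing `st`.
nil: both multisets have one element.
cup: `srun (aq T) (cup :: w) st` is the sum over `(c, o') : A × Bool` of `srun (aq T) w (x ++ (c, o') :: (c, !o') :: y)`
(`Multiset.bind_map`, `Multiset.card_bind`; `Finset.univ` of the product: `Finset.univ_product_univ`,
`Finset.sum_product` or `Fintype.sum_prod_type`; rewrite `(Finset.univ.val.map f).sum` as a `Finset` sum).
`card (srun bq (cup :: w) l) = card (srun bq w (x ++ o :: !o :: y)) + card (srun bq w (x ++ !o :: o :: y)) = 1`, and the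
first one is at least `1` by `oe_mem`; so it is `1` and the second is `0`; by `(proj)` the terms with `o' = !o`
vanish. For `o' = o` use the induction hypothesis; this is the sum over `c` in `arun`.
cap: `st = x ++ (a, o) :: (b, !o) :: y`; if `a = b` both sides continue (and `card (srun bq w ..) = 1`), otherwise
both are `0`.
pos, neg: one new state with the orientations exchanged; `card (srun bq (pos :: w) l) = card (srun bq w ..)`.
-/

set_option autoImplicit false

namespace Pool.Agent.H86.RT

open Pool.Agent.H86.RB

variable {A : Type} [AddCommGroup A] [Fintype A] [DecidableEq A]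

/-- one slice, the left strand of a cup having orientation `o` -/
def astp (T : A ≃+ A) (s : Sl) (o : Bool) (l : List (A × Bool)) : Multiset (List (A × Bool)) :=
  match s.k with
  | .cup => (Finset.univ : Finset A).val.map
      (fun c => l.take s.i ++ (c, o) :: (c, !o) :: l.drop s.i)
  | k => sstp (aq T) ⟨k, s.i⟩ l

/-- the orientations that are left after a piece -/
def nxt (k : Kd) (os : List Bool) : List Bool :=
  match k with
  | .cup => os.tail
  | _ => os

/-- the colourings with given orientation -/
def arun (T : A ≃+ A) : Wd → List Bool → List (A × Bool) → Multiset (List (A × Bool))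
  | [], _, l => {l}
  | s :: w, os, l => (astp T s (os.headD true) l).bind (arun T w (nxt s.k os))

private theorem sstp_at {C : Type} [Fintype C] [DecidableEq C] (Q : Sq C) (k : Kd) (x l : List C) :
    sstp Q ⟨k, x.length⟩ (x ++ l) = (sloc Q k l).map (fun r => x ++ r) := by
  have := sstp_shift Q k 0 x l
  rwa [Nat.add_zero, sstp_zero] at this

private theorem proj_loc (T : A ≃+ A) (k : Kd) (l t : List (A × Bool)) (ht : t ∈ sloc (aq T) k l) :
    t.map Prod.snd ∈ sloc bq k (l.map Prod.snd) := by
  match k, l, ht with
  | .cup, l, ht =>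
    simp only [sloc, Multiset.mem_map] at ht ⊢
    obtain ⟨⟨c, o⟩, _, rfl⟩ := ht
    exact ⟨o, Finset.mem_univ_val o, rfl⟩
  | .cap, (a, o) :: (b, o') :: r, ht =>
    simp only [sloc] at ht
    split_ifs at ht with h
    · rw [Multiset.mem_singleton] at ht
      subst ht
      have h2 : o' = !o := congrArg Prod.snd h
      simp [sloc, bq, h2]
    · simp at ht
  | .cap, [], ht => simp [sloc] at ht
  | .cap, [a], ht => simp [sloc] at ht
  | .pos, (a, o) :: (b, o') :: r, ht =>
    simp only [sloc, Multiset.mem_singleton] at ht
    subst ht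
    simp [sloc, bq, aq]
  | .pos, [], ht => simp [sloc] at ht
  | .pos, [a], ht => simp [sloc] at ht
  | .neg, (a, o) :: (b, o') :: r, ht =>
    simp only [sloc, Multiset.mem_singleton] at ht
    subst ht
    simp [sloc, bq, aq]
  | .neg, [], ht => simp [sloc] at ht
  | .neg, [a], ht => simp [sloc] at ht

private theorem proj_stp (T : A ≃+ A) (s : Sl) (l t : List (A × Bool))
    (ht : t ∈ sstp (aq T) s l) : t.map Prod.snd ∈ sstp bq s (l.map Prod.snd) := by
  simp only [sstp, Multiset.mem_map] at ht ⊢
  obtain ⟨r, hr, rfl⟩ := ht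
  refine ⟨r.map Prod.snd, ?_, by simp⟩
  rw [← List.map_drop]
  exact proj_loc T s.k _ r hr

private theorem proj_run (T : A ≃+ A) (w : Wd) (l : List (A × Bool)) :
    ∀ t ∈ srun (aq T) w l, t.map Prod.snd ∈ srun bq w (l.map Prod.snd) := by
  induction w generalizing l with
  | nil =>
    intro t ht
    rw [srun_nil, Multiset.mem_singleton] at ht
    rw [srun_nil, Multiset.mem_singleton, ht]
  | cons s w ih =>
    intro t ht
    rw [srun_cons, Multiset.mem_bind] at ht ⊢
    obtain ⟨r, hr, ht⟩ := ht
    exact ⟨r.map Prod.snd, proj_stp T s l r hr, ih r t ht⟩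

private theorem run_zero (T : A ≃+ A) (w : Wd) (l : List (A × Bool))
    (h : Multiset.card (srun bq w (l.map Prod.snd)) = 0) : Multiset.card (srun (aq T) w l) = 0 := by
  rw [Multiset.card_eq_zero] at h ⊢
  apply Multiset.eq_zero_of_forall_notMem
  intro t ht
  have := proj_run T w l t ht
  rw [h] at this
  simp at this

private theorem arun_cons (T : A ≃+ A) (s : Sl) (w : Wd) (os : List Bool) (l : List (A × Bool)) :
    arun T (s :: w) os l = (astp T s (os.headD true) l).bind (arun T w (nxt s.k os)) := rfl

private theorem map_eq_app {st : List (A × Bool)} {x z : List Bool} (h : st.map Prod.snd = x ++ z) :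
    ∃ xs zs, st = xs ++ zs ∧ xs.map Prod.snd = x ∧ zs.map Prod.snd = z :=
  List.map_eq_append_iff.1 h

private theorem map_eq_two {st : List (A × Bool)} {x z : List Bool} {a b : Bool}
    (h : st.map Prod.snd = x ++ a :: b :: z) :
    ∃ xs ca cb zs, st = xs ++ (ca, a) :: (cb, b) :: zs ∧ xs.map Prod.snd = x ∧
      zs.map Prod.snd = z := by
  obtain ⟨xs, zs, rfl, h1, h2⟩ := map_eq_app h
  obtain ⟨p, zs, rfl, h3, h4⟩ := List.map_eq_cons_iff.1 h2
  obtain ⟨p', zs, rfl, h5, h6⟩ := List.map_eq_cons_iff.1 h4
  obtain ⟨ca, a'⟩ := p
  obtain ⟨cb, b'⟩ := p'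
  simp only at h3 h5
  subst h3 h5
  exact ⟨xs, ca, cb, zs, rfl, h1, h6⟩

theorem arun_card (T : A ≃+ A) {w : Wd} {os l l' : List Bool} (h : Oe w os l l')
    (h1 : Multiset.card (srun bq w l) = 1) (st : List (A × Bool)) (hst : st.map Prod.snd = l) :
    Multiset.card (srun (aq T) w st) = Multiset.card (arun T w os st) := by
  induction h generalizing st with
  | nil l => simp [srun_nil, arun]
  | cup x z l' os o w h ih =>
    obtain ⟨xs, zs, rfl, hx, hz⟩ := map_eq_app hst
    have hlen : xs.length = x.length := by rw [← hx, List.length_map]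
    -- the two orientations of the cup
    have e1 := sstp_at bq .cup x z
    have e2 : Multiset.card (srun bq w (x ++ o :: (!o) :: z)) +
        Multiset.card (srun bq w (x ++ (!o) :: o :: z)) = 1 := by
      rw [srun_cons, e1] at h1
      have h2 : (Finset.univ : Finset Bool).val = {true, false} := rfl
      have h3 : ∀ a, bq.bar a = !a := fun _ => rfl
      simp only [sloc, Multiset.map_map, Multiset.bind_map, h2, Multiset.insert_eq_cons,
        Multiset.cons_bind, Multiset.singleton_bind, Function.comp_def, Multiset.card_add, h3] at h1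
      cases o
      · simp only [Bool.not_false, Bool.not_true] at h1 ⊢
        omega
      · simp only [Bool.not_false, Bool.not_true] at h1 ⊢
        omega
    have e3 : 1 ≤ Multiset.card (srun bq w (x ++ o :: (!o) :: z)) :=
      Multiset.card_pos_iff_exists_mem.2 ⟨_, oe_mem h⟩
    have e4 : Multiset.card (srun bq w (x ++ o :: (!o) :: z)) = 1 := by omega
    have e5 : Multiset.card (srun bq w (x ++ (!o) :: o :: z)) = 0 := by omega
    have e6 := sstp_at (aq T) .cup xs zs
    rw [hlen] at e6
    have e7 : astp T ⟨.cup, x.length⟩ o (xs ++ zs) =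
        (Finset.univ : Finset A).val.map (fun c => xs ++ (c, o) :: (c, !o) :: zs) := by
      simp only [astp]
      rw [List.take_left' hlen, List.drop_left' hlen]
    rw [srun_cons, e6, arun_cons, List.headD_cons, e7]
    simp only [sloc, Multiset.map_map, Multiset.bind_map, Multiset.card_bind, Function.comp_def, nxt,
      List.tail_cons]
    have e8 : ∀ (f : A × Bool → ℕ), ((Finset.univ : Finset (A × Bool)).val.map f).sum =
        ∑ c : A, (f (c, o) + f (c, !o)) := by
      intro f
      have : ((Finset.univ : Finset (A × Bool)).val.map f).sum = ∑ p : A × Bool, f p := rfl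
      rw [this, Fintype.sum_prod_type]
      refine Finset.sum_congr rfl fun c _ => ?_
      rw [Fintype.sum_bool]
      cases o
      · exact add_comm _ _
      · rfl
    rw [e8]
    have : ((Finset.univ : Finset A).val.map
        (fun c => Multiset.card (arun T w os (xs ++ (c, o) :: (c, !o) :: zs)))).sum =
        ∑ c : A, Multiset.card (arun T w os (xs ++ (c, o) :: (c, !o) :: zs)) := rfl
    rw [this]
    refine Finset.sum_congr rfl fun c _ => ?_
    have f1 := ih e4 (xs ++ (c, o) :: (c, !o) :: zs) (by simp [hx, hz])
    have f2 := run_zero T w (xs ++ (c, !o) :: (c, !(!o)) :: zs) (by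
      rw [Bool.not_not]
      simpa [hx, hz] using e5)
    have f3 : ∀ o', (aq T).bar (c, o') = (c, !o') := fun _ => rfl
    rw [f3, f3, f1, f2, add_zero]
  | cap x z l' os o w h ih =>
    obtain ⟨xs, a, b, zs, rfl, hx, hz⟩ := map_eq_two hst
    have hlen : xs.length = x.length := by rw [← hx, List.length_map]
    have e1 := sstp_at bq .cap x (o :: (!o) :: z)
    have e6 := sstp_at (aq T) .cap xs ((a, o) :: (b, !o) :: zs)
    rw [hlen] at e6
    have h3 : ∀ a, bq.bar a = !a := fun _ => rfl
    rw [srun_cons, e1] at h1
    simp only [sloc, h3, if_true, Multiset.map_singleton, Multiset.singleton_bind] at h1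
    have e7 : astp T ⟨.cap, x.length⟩ (os.headD true) (xs ++ (a, o) :: (b, !o) :: zs) =
      sstp (aq T) ⟨.cap, x.length⟩ (xs ++ (a, o) :: (b, !o) :: zs) := rfl
    rw [srun_cons, arun_cons, e7, e6]
    have f3 : (aq T).bar (a, o) = (a, !o) := rfl
    simp only [sloc, f3]
    split_ifs with hab
    · simp only [Multiset.map_singleton, Multiset.singleton_bind]
      exact ih h1 (xs ++ zs) (by simp [hx, hz])
    · simp
  | pos x z l' os a b w h ih =>
    obtain ⟨xs, ca, cb, zs, rfl, hx, hz⟩ := map_eq_two hst
    have hlen : xs.length = x.length := by rw [← hx, List.length_map]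
    have e1 := sstp_at bq .pos x (a :: b :: z)
    have e6 := sstp_at (aq T) .pos xs ((ca, a) :: (cb, b) :: zs)
    rw [hlen] at e6
    rw [srun_cons, e1] at h1
    have h3 : bq.op a b = b := rfl
    simp only [sloc, h3, Multiset.map_singleton, Multiset.singleton_bind] at h1
    have e7 : astp T ⟨.pos, x.length⟩ (os.headD true) (xs ++ (ca, a) :: (cb, b) :: zs) =
      sstp (aq T) ⟨.pos, x.length⟩ (xs ++ (ca, a) :: (cb, b) :: zs) := rfl
    rw [srun_cons, arun_cons, e7, e6]
    simp only [sloc, Multiset.map_singleton, Multiset.singleton_bind]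
    refine ih h1 _ ?_
    simp [hx, hz, aq]
  | neg x z l' os a b w h ih =>
    obtain ⟨xs, ca, cb, zs, rfl, hx, hz⟩ := map_eq_two hst
    have hlen : xs.length = x.length := by rw [← hx, List.length_map]
    have e1 := sstp_at bq .neg x (a :: b :: z)
    have e6 := sstp_at (aq T) .neg xs ((ca, a) :: (cb, b) :: zs)
    rw [hlen] at e6
    rw [srun_cons, e1] at h1
    have h3 : (bq.op b).symm a = a := rfl
    simp only [sloc, h3, Multiset.map_singleton, Multiset.singleton_bind] at h1
    have e7 : astp T ⟨.neg, x.length⟩ (os.headD true) (xs ++ (ca, a) :: (cb, b) :: zs) =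
      sstp (aq T) ⟨.neg, x.length⟩ (xs ++ (ca, a) :: (cb, b) :: zs) := rfl
    rw [srun_cons, arun_cons, e7, e6]
    simp only [sloc, Multiset.map_singleton, Multiset.singleton_bind]
    refine ih h1 _ ?_
    simp [hx, hz, aq]

end Pool.Agent.H86.RT
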