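import Pool.Agent.H86.RT.LDefs
import Pool.Agent.H86.RB.Ker

/-!
# Growth of the kernel modulo `M`
-/

set_option autoImplicit false

namespace Pool.Agent.H86.RT

open Pool.Agent.H86.RB

private theorem kg_le {ι : Type} [Fintype ι] [DecidableEq ι] (W : Matrix ι ι ℤ) (h : W.det ≠ 0)
    (M : ℕ) [NeZero M] : (Kg M W).card ≤ W.det.natAbs := by
  classical
  set e := Fintype.equivFin ι
  have h1 : (W.submatrix e.symm e.symm).det = W.det := Matrix.det_submatrix_equiv_self _ _
  have h2 := ker_le (N := M) (W.submatrix e.symm e.symm) (by rw [h1]; exact h)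
  rw [h1] at h2
  refine le_trans ?_ h2
  apply Finset.card_le_card_of_injOn (fun v => v ∘ e.symm)
  · intro v hv
    rw [Finset.mem_coe, Kg, Finset.mem_filter] at hv
    rw [Finset.mem_coe, Kf, Finset.mem_filter]
    refine ⟨Finset.mem_univ _, fun i => ?_⟩
    have h3 := hv.2 (e.symm i)
    rw [← Equiv.sum_comp e.symm] at h3
    exact h3
  · intro v _ w _ hvw
    funext i
    have h3 := congrFun hvw (e i)
    simpa using h3

private theorem mat {ι : Type} [Fintype ι] [DecidableEq ι] (B : Matrix ι ι ℤ) (q : ℕ)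
    [Fact q.Prime] [NeZero q] (c : ℕ) (hc : (Kg q B).card ≤ q ^ c) :
    ∃ (L1 : Matrix ι ι (ZMod q)) (L2 : Matrix ι (Fin c) (ZMod q)) (L3 : Matrix (Fin c) ι (ZMod q)),
      L1 * B.map (Int.castRingHom (ZMod q)) + L2 * L3 = 1 := by
  classical
  have hq : q.Prime := Fact.out
  set B' := Matrix.mulVecLin (B.map (Int.castRingHom (ZMod q))) with hB'
  have h1 : (Kg q B).card = Nat.card (LinearMap.ker B') := by
    rw [← Fintype.card_coe, ← Nat.card_eq_fintype_card]
    apply Nat.card_congr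
    apply Equiv.subtypeEquivRight
    intro v
    rw [Kg, Finset.mem_filter, LinearMap.mem_ker, hB', Matrix.mulVecLin_apply, funext_iff]
    simp only [Finset.mem_univ, true_and]
    rfl
  have h2 : Module.finrank (ZMod q) (LinearMap.ker B') ≤ c := by
    rw [h1, Module.natCard_eq_pow_finrank (K := ZMod q), Nat.card_zmod] at hc
    exact (Nat.pow_le_pow_iff_right hq.one_lt).1 hc
  obtain ⟨k, hk⟩ := (finrank_le_iff_exists_linearMap (R := ZMod q) (M := LinearMap.ker B')
    (M' := Fin c → ZMod q)).1 (by rw [Module.finrank_fin_fun]; exact h2)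
  obtain ⟨π, hπ⟩ := LinearMap.exists_extend k
  obtain ⟨g, hg⟩ := LinearMap.exists_leftInverse_of_injective (B'.prod π) (by
    rw [LinearMap.ker_eq_bot']
    intro v hv
    rw [LinearMap.prod_apply] at hv
    have hv1 : B' v = 0 := congrArg Prod.fst hv
    have hv2 : π v = 0 := congrArg Prod.snd hv
    have h3 : k ⟨v, LinearMap.mem_ker.2 hv1⟩ = 0 := by
      rw [← hπ]
      exact hv2
    have h4 := hk (h3.trans (map_zero k).symm)
    exact congrArg Subtype.val h4)
  refine ⟨LinearMap.toMatrix' (g.comp (LinearMap.inl _ _ _)),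
    LinearMap.toMatrix' (g.comp (LinearMap.inr _ _ _)), LinearMap.toMatrix' π, ?_⟩
  have h5 : B.map (Int.castRingHom (ZMod q)) = LinearMap.toMatrix' B' := by
    rw [hB', ← Matrix.toLin'_apply', LinearMap.toMatrix'_toLin']
  rw [h5, ← LinearMap.toMatrix'_comp, ← LinearMap.toMatrix'_comp, ← map_add, ← LinearMap.toMatrix'_id]
  congr 1
  rw [← hg]
  ext v i
  simp only [LinearMap.add_apply, LinearMap.comp_apply, LinearMap.inl_apply, LinearMap.inr_apply,
    ← map_add, Prod.mk_add_mk, add_zero, zero_add, LinearMap.prod_apply]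
  rfl

theorem lin_ab {ι : Type} [Fintype ι] [DecidableEq ι] (B : Matrix ι ι ℤ) (q : ℕ) [Fact q.Prime]
    [NeZero q] (c : ℕ) (hc : (Kg q B).card ≤ q ^ c) :
    ∃ C : ℕ, ∀ (M : ℕ) [NeZero M], (Kg M B).card ≤ C * M ^ c := by
  classical
  obtain ⟨L1, L2, L3, hL⟩ := mat B q c hc
  set Z1 : Matrix ι ι ℤ := L1.map (fun x => (x.val : ℤ)) with hZ1
  set Z2 : Matrix ι (Fin c) ℤ := L2.map (fun x => (x.val : ℤ)) with hZ2
  set Z3 : Matrix (Fin c) ι ℤ := L3.map (fun x => (x.val : ℤ)) with hZ3
  have e1 : Z1.map (Int.castRingHom (ZMod q)) = L1 := by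
    ext i j; simp [hZ1]
  have e2 : Z2.map (Int.castRingHom (ZMod q)) = L2 := by
    ext i j; simp [hZ2]
  have e3 : Z3.map (Int.castRingHom (ZMod q)) = L3 := by
    ext i j; simp [hZ3]
  set W := Z1 * B + Z2 * Z3 with hW
  have hW1 : W.map (Int.castRingHom (ZMod q)) = 1 := by
    rw [hW, Matrix.map_add _ (fun a b => map_add _ a b), Matrix.map_mul, Matrix.map_mul, e1, e2, e3, hL]
  have hdet : W.det ≠ 0 := by
    intro h0
    have h1 : (Int.castRingHom (ZMod q)) W.det = 1 := by
      rw [RingHom.map_det, RingHom.mapMatrix_apply, hW1, Matrix.det_one]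
    rw [h0, map_zero] at h1
    exact zero_ne_one h1
  refine ⟨W.det.natAbs, fun M _ => ?_⟩
  set f : (ι → ZMod M) → (Fin c → ZMod M) := fun v k => ∑ j, ((Z3 k j : ℤ) : ZMod M) * v j with hf
  have h1 : (Kg M B).card ≤ W.det.natAbs * ((Kg M B).image f).card := by
    apply Finset.card_le_mul_card_image
    intro w hw
    obtain ⟨v0, hv0, rfl⟩ := Finset.mem_image.1 hw
    refine le_trans ?_ (kg_le W hdet M)
    apply Finset.card_le_card_of_injOn (fun v => v - v0)
    · intro v hv
      rw [Finset.mem_coe, Finset.mem_filter] at hv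
      have hv1 := hv.1
      have hv2 := congrFun hv.2
      rw [Kg, Finset.mem_filter] at hv1 hv0
      rw [Finset.mem_coe, Kg, Finset.mem_filter]
      refine ⟨Finset.mem_univ _, fun i => ?_⟩
      have h3 : ∀ k, ∑ j, ((Z3 k j : ℤ) : ZMod M) * (v j - v0 j) = 0 := by
        intro k
        have h4 := hv2 k
        simp only [hf] at h4
        simp only [mul_sub, Finset.sum_sub_distrib, h4, sub_self]
      have h5 : ∀ k, ∑ j, ((B k j : ℤ) : ZMod M) * (v j - v0 j) = 0 := by
        intro k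
        simp only [mul_sub, Finset.sum_sub_distrib, hv1.2 k, hv0.2 k, sub_self]
      have h6 : ∀ j, ((W i j : ℤ) : ZMod M) = ∑ k, ((Z1 i k : ℤ) : ZMod M) * ((B k j : ℤ) : ZMod M) +
          ∑ k, ((Z2 i k : ℤ) : ZMod M) * ((Z3 k j : ℤ) : ZMod M) := by
        intro j
        rw [hW, Matrix.add_apply, Matrix.mul_apply, Matrix.mul_apply]
        push_cast
        rfl
      show ∑ j, ((W i j : ℤ) : ZMod M) * (v j - v0 j) = 0
      simp only [h6, add_mul, Finset.sum_add_distrib, Finset.sum_mul]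
      rw [Finset.sum_comm, Finset.sum_comm (f := fun j k => ((Z2 i k : ℤ) : ZMod M) *
        ((Z3 k j : ℤ) : ZMod M) * (v j - v0 j))]
      simp only [mul_assoc, ← Finset.mul_sum, h3, h5, mul_zero, Finset.sum_const_zero, add_zero]
    · intro v _ v' _ h
      exact sub_left_injective h
  refine h1.trans (Nat.mul_le_mul_left _ ?_)
  refine (Finset.card_le_univ _).trans ?_
  rw [Fintype.card_fun, ZMod.card, Fintype.card_fin]

end Pool.Agent.H86.RT
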