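import Pool.Agent.H86.RT.LDefs

/-!
# Block matrices with a strictly triangular reduction
-/

set_option autoImplicit false

namespace Pool.Agent.H86.RT

open Pool.Agent.H86.RB

private theorem blk_sum {m s : ℕ} (P Q : Matrix (Fin m) (Fin m) ℤ) (Θ : Matrix (Fin s) (Fin s) ℤ)
    (M : ℕ) (v : Fin m × Fin s → ZMod M) (i : Fin m) (a : Fin s) :
    ∑ p, ((Blk P Q Θ (i, a) p : ℤ) : ZMod M) * v p =
      ∑ j, ((P i j : ℤ) : ZMod M) * v (j, a) +
        ∑ b, ((Θ a b : ℤ) : ZMod M) * ∑ j, ((Q i j : ℤ) : ZMod M) * v (j, b) := by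
  have h1 : ∀ j b, ((Blk P Q Θ (i, a) (j, b) : ℤ) : ZMod M) * v (j, b) =
      (if a = b then ((P i j : ℤ) : ZMod M) * v (j, b) else 0) +
        ((Θ a b : ℤ) : ZMod M) * (((Q i j : ℤ) : ZMod M) * v (j, b)) := by
    intro j b
    simp only [Blk]
    split_ifs <;> push_cast <;> ring
  rw [Fintype.sum_prod_type]
  simp only [h1, Finset.sum_add_distrib, Finset.sum_ite_eq, Finset.mem_univ, if_true]
  congr 1
  rw [Finset.sum_comm]
  exact Finset.sum_congr rfl fun b _ => (Finset.mul_sum _ _ _).symm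

theorem kr_blk {m s : ℕ} (P Q : Matrix (Fin m) (Fin m) ℤ) (Θ : Matrix (Fin s) (Fin s) ℤ) (M : ℕ)
    [NeZero M] (T : (Fin s → ZMod M) ≃+ (Fin s → ZMod M))
    (hT : ∀ v a, T v a = ∑ b, ((Θ a b : ℤ) : ZMod M) * v b) :
    (Kr T P Q).card = (Kg M (Blk P Q Θ)).card := by
  have key : ∀ (v : Fin m → Fin s → ZMod M) (i : Fin m) (a : Fin s),
      (∑ j, P i j • v j + T (∑ j, Q i j • v j)) a =
        ∑ p, ((Blk P Q Θ (i, a) p : ℤ) : ZMod M) * v p.1 p.2 := by
    intro v i a
    rw [blk_sum P Q Θ M (fun p => v p.1 p.2), Pi.add_apply, hT]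
    simp only [Finset.sum_apply, Pi.smul_apply]
    simp only [zsmul_eq_mul]
  apply Finset.card_bij (fun v _ => fun p : Fin m × Fin s => v p.1 p.2)
  · intro v hv
    rw [Kr, Finset.mem_filter] at hv
    rw [Kg, Finset.mem_filter]
    refine ⟨Finset.mem_univ _, ?_⟩
    rintro ⟨i, a⟩
    rw [← key v i a, hv.2 i]
    rfl
  · intro v _ w _ h
    funext i a
    exact congrFun h (i, a)
  · intro w hw
    rw [Kg, Finset.mem_filter] at hw
    refine ⟨fun i a => w (i, a), ?_, rfl⟩
    rw [Kr, Finset.mem_filter]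
    refine ⟨Finset.mem_univ _, ?_⟩
    intro i
    funext a
    rw [key (fun i a => w (i, a)) i a]
    exact hw.2 (i, a)

theorem lin_c {m s : ℕ} (P Q : Matrix (Fin m) (Fin m) ℤ) (Θ : Matrix (Fin s) (Fin s) ℤ) (q : ℕ)
    [Fact q.Prime] [NeZero q] (hΘ : ∀ a b, a ≤ b → (q : ℤ) ∣ Θ a b) :
    (Kg q (Blk P Q Θ)).card ≤ (Kf q P).card ^ s := by
  classical
  set K : ℕ → Finset (Fin m × Fin s → ZMod q) := fun t =>
    (Kg q (Blk P Q Θ)).filter (fun v => ∀ i (a : Fin s), (a : ℕ) < t → v (i, a) = 0) with hK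
  have hmem : ∀ t v, v ∈ K t ↔ (∀ p, ∑ r, ((Blk P Q Θ p r : ℤ) : ZMod q) * v r = 0) ∧
      ∀ i (a : Fin s), (a : ℕ) < t → v (i, a) = 0 := by
    intro t v
    rw [hK]
    simp only [Finset.mem_filter, Kg, Finset.mem_univ, true_and]
  have hstep : ∀ t, t < s → (K t).card ≤ (K (t + 1)).card * (Kf q P).card := by
    intro t ht
    set f : (Fin m × Fin s → ZMod q) → (Fin m → ZMod q) := fun v j => v (j, ⟨t, ht⟩) with hf
    have h1 : (K t).card ≤ (K (t + 1)).card * ((K t).image f).card := by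
      apply Finset.card_le_mul_card_image
      intro w hw
      obtain ⟨v0, hv0, rfl⟩ := Finset.mem_image.1 hw
      apply Finset.card_le_card_of_injOn (fun v => v - v0)
      · intro v hv
        rw [Finset.mem_coe, Finset.mem_filter] at hv
        have hv1 := (hmem t v).1 hv.1
        have hv2 := (hmem t v0).1 hv0
        rw [Finset.mem_coe, hmem]
        constructor
        · intro p
          simp only [Pi.sub_apply, mul_sub, Finset.sum_sub_distrib, hv1.1 p, hv2.1 p, sub_zero]
        · intro i a ha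
          show v (i, a) - v0 (i, a) = 0
          rcases Nat.lt_succ_iff_lt_or_eq.1 ha with h | h
          · rw [hv1.2 i a h, hv2.2 i a h, sub_zero]
          · have h3 : a = ⟨t, ht⟩ := Fin.ext h
            have h4 := congrFun hv.2 i
            simp only [hf] at h4
            rw [h3, h4, sub_self]
      · intro v _ v' _ h
        exact sub_left_injective h
    have h2 : (K t).image f ⊆ Kf q P := by
      intro w hw
      obtain ⟨v, hv, rfl⟩ := Finset.mem_image.1 hw
      rw [hmem] at hv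
      rw [Kf, Finset.mem_filter]
      refine ⟨Finset.mem_univ _, fun i => ?_⟩
      have h3 := hv.1 (i, ⟨t, ht⟩)
      rw [blk_sum] at h3
      have h4 : ∑ b, ((Θ ⟨t, ht⟩ b : ℤ) : ZMod q) * ∑ j, ((Q i j : ℤ) : ZMod q) * v (j, b) = 0 := by
        apply Finset.sum_eq_zero
        intro b _
        rcases Nat.lt_or_ge (b : ℕ) t with hb | hb
        · have h5 : ∑ j, ((Q i j : ℤ) : ZMod q) * v (j, b) = 0 := by
            apply Finset.sum_eq_zero
            intro j _
            rw [hv.2 j b hb, mul_zero]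
          rw [h5, mul_zero]
        · have h5 : ((Θ ⟨t, ht⟩ b : ℤ) : ZMod q) = 0 := by
            rw [ZMod.intCast_zmod_eq_zero_iff_dvd]
            exact hΘ _ _ hb
          rw [h5, zero_mul]
      rw [h4, add_zero] at h3
      exact h3
    exact h1.trans (Nat.mul_le_mul_left _ (Finset.card_le_card h2))
  have hall : ∀ d, d ≤ s → (K (s - d)).card ≤ (Kf q P).card ^ d := by
    intro d
    induction d with
    | zero =>
      intro _
      rw [pow_zero, Nat.sub_zero]
      apply Finset.card_le_one.2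
      intro v hv w hw
      rw [hmem] at hv hw
      funext ⟨i, a⟩
      rw [hv.2 i a a.2, hw.2 i a a.2]
    | succ d ih =>
      intro hd
      have h1 := hstep (s - (d + 1)) (by omega)
      have h2 : s - (d + 1) + 1 = s - d := by omega
      rw [h2] at h1
      rw [pow_succ]
      exact h1.trans (Nat.mul_le_mul_right _ (ih (by omega)))
  have h3 := hall s le_rfl
  rw [Nat.sub_self] at h3
  refine le_trans (le_of_eq ?_) h3
  congr 1
  ext v
  rw [hmem, Kg, Finset.mem_filter]
  simp

end Pool.Agent.H86.RT
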