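import Pool.Agent.H86.RT.LDefs
import Pool.Agent.H86.RB.OddD

/-!
# The kernel of a matrix of differences has the same dimension over all fields
-/

set_option autoImplicit false

namespace Pool.Agent.H86.RT

open Pool.Agent.H86.RB

private theorem kf_iff {m : ℕ} (a b : Fin m → ℕ) (ha : ∀ i, a i ≤ m) (hb : ∀ i, b i ≤ m)
    (D : Matrix (Fin m) (Fin m) ℤ)
    (hD : ∀ i j, D i j = (if (j : ℕ) + 1 = a i then 1 else 0) - (if (j : ℕ) + 1 = b i then 1 else 0))
    (q : ℕ) [NeZero q] (w : Fin m → ZMod q) : w ∈ Kf q D ↔ ∀ i, ext w (a i) = ext w (b i) := by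
  rw [Kf, Finset.mem_filter]
  have h1 : ∀ i, ∑ j, ((D i j : ℤ) : ZMod q) * w j = ext w (a i) - ext w (b i) := by
    intro i
    have h2 : ∀ j : Fin m, ((D i j : ℤ) : ZMod q) * w j =
        (if (j : ℕ) + 1 = a i then (1 : ZMod q) else 0) * ext w (j + 1) -
          (if (j : ℕ) + 1 = b i then (1 : ZMod q) else 0) * ext w (j + 1) := by
      intro j
      rw [hD, ext_succ]
      push_cast
      ring
    rw [Finset.sum_congr rfl fun j _ => h2 j, Finset.sum_sub_distrib,
      ind_sum (ext w) (ext_zero w) _ (ha i), ind_sum (ext w) (ext_zero w) _ (hb i)]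
  simp only [Finset.mem_univ, true_and, h1, sub_eq_zero]

theorem lin_d {m : ℕ} (a b : Fin m → ℕ) (ha : ∀ i, a i ≤ m) (hb : ∀ i, b i ≤ m)
    (D : Matrix (Fin m) (Fin m) ℤ)
    (hD : ∀ i j, D i j = (if (j : ℕ) + 1 = a i then 1 else 0) - (if (j : ℕ) + 1 = b i then 1 else 0)) :
    ∃ κ : ℕ, ∀ (q : ℕ) [Fact q.Prime] [NeZero q], (Kf q D).card = q ^ κ := by
  classical
  set r : Fin (m + 1) → Fin (m + 1) → Prop := fun x y => ∃ i, (x : ℕ) = a i ∧ (y : ℕ) = b i with hr
  have : Finite (Quot r) := Finite.of_surjective (Quot.mk r) Quot.mk_surjective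
  have : Fintype {c : Quot r // c ≠ Quot.mk r 0} := Fintype.ofFinite _
  refine ⟨Fintype.card {c : Quot r // c ≠ Quot.mk r 0}, ?_⟩
  intro q _ _
  have key : ∀ w : Fin m → ZMod q, w ∈ Kf q D → ∀ x y, r x y →
      ext w (x : ℕ) = ext w (y : ℕ) := by
    intro w hw x y ⟨i, h1, h2⟩
    rw [h1, h2]
    exact (kf_iff a b ha hb D hD q w).1 hw i
  let e : Kf q D ≃ ({c : Quot r // c ≠ Quot.mk r 0} → ZMod q) :=
    { toFun := fun w c => Quot.lift (fun x : Fin (m + 1) => ext w.1 (x : ℕ)) (key w.1 w.2) c.1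
      invFun := fun g => ⟨fun j => if h : Quot.mk r j.succ ≠ Quot.mk r 0 then g ⟨_, h⟩ else 0, by
        rw [kf_iff a b ha hb D hD q]
        have h1 : ∀ x : Fin (m + 1), ext (fun j : Fin m =>
            if h : Quot.mk r j.succ ≠ Quot.mk r 0 then g ⟨_, h⟩ else 0) (x : ℕ) =
              if h : Quot.mk r x ≠ Quot.mk r 0 then g ⟨_, h⟩ else 0 := by
          intro x
          refine Fin.cases ?_ (fun j => ?_) x
          · rw [Fin.val_zero, ext_zero, dif_neg (by simp)]
          · rw [Fin.val_succ, ext_succ]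
        intro i
        have h2 := h1 ⟨a i, Nat.lt_succ_of_le (ha i)⟩
        have h3 := h1 ⟨b i, Nat.lt_succ_of_le (hb i)⟩
        have h4 : Quot.mk r ⟨a i, Nat.lt_succ_of_le (ha i)⟩ = Quot.mk r ⟨b i, Nat.lt_succ_of_le (hb i)⟩ :=
          Quot.sound ⟨i, rfl, rfl⟩
        rw [h4] at h2
        exact h2.trans h3.symm⟩
      left_inv := by
        intro w
        apply Subtype.ext
        funext j
        simp only
        split_ifs with h
        · exact ext_succ w.1 j
        · rw [not_not] at h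
          have h1 : Quot.lift (fun x : Fin (m + 1) => ext w.1 (x : ℕ)) (key w.1 w.2) (Quot.mk r j.succ) =
              Quot.lift (fun x : Fin (m + 1) => ext w.1 (x : ℕ)) (key w.1 w.2) (Quot.mk r 0) := by
            rw [h]
          have h2 : ext w.1 ((j : ℕ) + 1) = ext w.1 0 := h1
          rw [ext_succ, ext_zero] at h2
          exact h2.symm
      right_inv := by
        intro g
        funext c
        obtain ⟨c, hc⟩ := c
        induction c using Quot.ind with
        | mk x =>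
          revert hc
          refine Fin.cases (fun hc => absurd rfl hc) (fun j hc => ?_) x
          show ext (fun j : Fin m => if h : Quot.mk r j.succ ≠ Quot.mk r 0 then g ⟨_, h⟩ else 0)
            ((j : ℕ) + 1) = _
          rw [ext_succ, dif_pos hc] }
  rw [← Fintype.card_coe, Fintype.card_congr e, Fintype.card_fun, ZMod.card]

theorem mp_d (R : List Row) (F : ℕ → Bool) (m : ℕ) (hm : R.length = m)
    (hle : ∀ r ∈ R, r.x ≤ m ∧ r.y ≤ m ∧ r.z ≤ m) :
    ∃ κ : ℕ, ∀ (q : ℕ) [Fact q.Prime] [NeZero q], (Kf q (MP R F m)).card = q ^ κ := by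
  have h1 : ∀ (f : Bool) (r : Row), (r.x ≤ m ∧ r.y ≤ m ∧ r.z ≤ m) → ∃ p : ℕ × ℕ, p.1 ≤ m ∧ p.2 ≤ m ∧
      ∀ v, cP f v r = (if v = p.1 then 1 else 0) - (if v = p.2 then 1 else 0) := by
    intro f r hr
    cases r with
    | mg x y => exact ⟨(x, y), hr.1, hr.2.1, fun v => rfl⟩
    | ps x n y =>
      cases f
      · exact ⟨(x, y), hr.1, hr.2.2, fun v => rfl⟩
      · exact ⟨(y, n), hr.2.2, hr.2.1, fun v => rfl⟩
  have h2 : ∀ i : Fin m, ∃ p : ℕ × ℕ, p.1 ≤ m ∧ p.2 ≤ m ∧ ∀ v, cP (F i) v (R.getD i (.mg 0 0)) =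
      (if v = p.1 then 1 else 0) - (if v = p.2 then 1 else 0) := by
    intro i
    apply h1
    rw [List.getD_eq_getElem _ _ (by omega)]
    exact hle _ (List.getElem_mem _)
  choose p hp using h2
  exact lin_d (fun i => (p i).1) (fun i => (p i).2) (fun i => (hp i).1) (fun i => (hp i).2.1) _
    (fun i j => (hp i).2.2 _)

end Pool.Agent.H86.RT
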