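import Pool.Agent.H86.RT.LDefs

/-!
# [H86 RT LF] The kernel of a pencil on a cyclic module

`V` is a finite vector space over `ZMod l` with an automorphism `T` and a linear form `lam` such that the forms
`lam ∘ T ^ i` separate the points of `V`.

PROOF of `lin_f`. Let `F = ZMod l`, `U = P' + Q'` (reductions), `B = U⁻¹ * Q'`, so `1 - B = U⁻¹ * P'`. Matrices over `F` act on
`F ^ m = (Fin m → F)` (`Matrix.mulVec`) and on `V ^ m = (Fin m → V)` by `(X w) i = ∑ j, X i j • w j`; these actions are
compatible with products, commute with `T` (applied to every coordinate) and with `lam` (applied to every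
coordinate): `lam (X w) = X (lam w)`.
`K = {w : V ^ m | P w + Q (T w) = 0}` (this is `Kr`; `(P i j : ℤ) • w = ((P i j : ℤ) : F) • w`,
`Int.cast_smul_eq_zsmul`). Multiplying with `U⁻¹`: `w ∈ K ↔ (1 - B) w + B (T w) = 0`, i.e. `w = B (w - T w)`.
(1) `K` is a subspace, invariant under `T` and `B`. On `K`: `w = B (1 - T) w`; `B` commutes with `1 - T`; so `B` is injective on
`K` (`B w = 0` gives `w = (1 - T) B w = 0`), hence bijective on `K` (finite). Also `(B - 1) w = B (T w)` for `w ∈ K`, so `B - 1` is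
injective on `K` (`B`, `T` are).
(2) `lam : K → F ^ m`, `w ↦ (lam (w i))_i` is injective: let `K0 = {w ∈ K | lam w = 0}`. `K0` is invariant under `B`, which is
injective, so `B K0 = K0`. For `w ∈ K0`: `B (T w) = (B - 1) w ∈ K0 = B K0`, so `B (T w) = B w'` with `w' ∈ K0`, and as `B` is
injective on `K`: `T w = w' ∈ K0`. So `T ^ i w ∈ K0` for all `i`, so `lam (T ^ i (w j)) = 0` for all `i, j` and `w = 0`
by `hsep`.
(3) Let `W = lam K`, a subspace of `F ^ m` of the same size as `K`, invariant under `B`; `B` and `B - 1` are injective on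
`W` (they correspond to `B`, `B - 1` on `K` by (2)), so `W = B W = B (B W)` is in the range of `B ^ 2`.
(4) `N = ker P' ⊆ F ^ m`: `P' v = 0 ↔ (1 - B) v = 0 ↔ B v = v`; so `N` is in the range of `B ^ 2`; `W ∩ N = 0` as `B - 1` is injective
on `W`. So `dim W + dim N ≤ dim range (B ^ 2) = rank (B ^ 2)` (`Submodule.finrank_sup_add_finrank_inf_eq`), which in
numbers of elements is the claim (`Module.natCard_eq_pow_finrank`, `Nat.card_zmod`; `(Kf l P).card` is the number of
elements of `N`).
-/

set_option autoImplicit false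

namespace Pool.Agent.H86.RT

open Pool.Agent.H86.RB

section

variable {F V : Type} [Field F] [AddCommGroup V] [Module F V] {m : ℕ}

/-- action of a matrix on `V ^ m` -/
private def lfA (X : Matrix (Fin m) (Fin m) F) : (Fin m → V) →ₗ[F] (Fin m → V) where
  toFun w := fun i => ∑ j, X i j • w j
  map_add' w w' := by
    funext i
    simp [smul_add, Finset.sum_add_distrib]
  map_smul' c w := by
    funext i
    simp only [Pi.smul_apply, RingHom.id_apply, Finset.smul_sum]
    exact Finset.sum_congr rfl fun j _ => smul_comm _ _ _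

private theorem lfA_apply (X : Matrix (Fin m) (Fin m) F) (w : Fin m → V) (i : Fin m) :
    lfA X w i = ∑ j, X i j • w j := rfl

private theorem lfA_mul (X Y : Matrix (Fin m) (Fin m) F) (w : Fin m → V) :
    lfA (X * Y) w = lfA X (lfA Y w) := by
  funext i
  simp only [lfA_apply, Matrix.mul_apply, Finset.sum_smul, Finset.smul_sum, mul_smul]
  rw [Finset.sum_comm]

private theorem lfA_one (w : Fin m → V) : lfA (1 : Matrix (Fin m) (Fin m) F) w = w := by
  funext i
  simp only [lfA_apply, Matrix.one_apply, ite_smul, one_smul, zero_smul, Finset.sum_ite_eq,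
    Finset.mem_univ, if_true]

private theorem lfA_add (X Y : Matrix (Fin m) (Fin m) F) (w : Fin m → V) :
    lfA (X + Y) w = lfA X w + lfA Y w := by
  funext i
  simp only [lfA_apply, Matrix.add_apply, add_smul, Finset.sum_add_distrib, Pi.add_apply]

private theorem lfA_lam (lam : V →ₗ[F] F) (X : Matrix (Fin m) (Fin m) F) (w : Fin m → V) :
    lam.compLeft (Fin m) (lfA X w) = X.mulVec (lam.compLeft (Fin m) w) := by
  funext i
  simp only [LinearMap.compLeft_apply, Function.comp, lfA_apply, map_sum, map_smul, smul_eq_mul,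
    Matrix.mulVec, dotProduct]

private theorem lfA_T (T : V →ₗ[F] V) (X : Matrix (Fin m) (Fin m) F) (w : Fin m → V) :
    lfA X (T.compLeft (Fin m) w) = T.compLeft (Fin m) (lfA X w) := by
  funext i
  simp only [LinearMap.compLeft_apply, Function.comp, lfA_apply, map_sum, map_smul]

/-- the dimension statement -/
private theorem lf_dim [FiniteDimensional F V] (T : V ≃ₗ[F] V) (lam : V →ₗ[F] F)
    (hsep : ∀ v : V, (∀ i : ℕ, lam ((T ^ i) v) = 0) → v = 0)
    (P Q : Matrix (Fin m) (Fin m) F) (hu : IsUnit (P + Q).det) (K : Submodule F (Fin m → V))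
    (hK : ∀ w, w ∈ K ↔ lfA P w + (T : V →ₗ[F] V).compLeft (Fin m) (lfA Q w) = 0) :
    Module.finrank F K + Module.finrank F (LinearMap.ker P.mulVecLin) ≤
      ((((P + Q)⁻¹ * Q) ^ 2).rank) := by
  obtain ⟨B, hB⟩ : ∃ B, B = (P + Q)⁻¹ * Q := ⟨_, rfl⟩
  obtain ⟨T', hT'⟩ : ∃ T' : (Fin m → V) →ₗ[F] (Fin m → V),
    T' = (T : V →ₗ[F] V).compLeft (Fin m) := ⟨_, rfl⟩
  obtain ⟨Λ, hΛ⟩ : ∃ Λ : (Fin m → V) →ₗ[F] (Fin m → F), Λ = lam.compLeft (Fin m) := ⟨_, rfl⟩
  obtain ⟨A, hA⟩ : ∃ A : (Fin m → V) →ₗ[F] (Fin m → V), A = lfA B := ⟨_, rfl⟩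
  have hinv : (P + Q)⁻¹ * (P + Q) = 1 := Matrix.nonsing_inv_mul _ hu
  have hinv' : (P + Q) * (P + Q)⁻¹ = 1 := Matrix.mul_nonsing_inv _ hu
  have hPB : (P + Q)⁻¹ * P + B = 1 := by rw [hB, ← mul_add, hinv]
  have hT0 : ∀ w, T' w = 0 → w = 0 := by
    intro w hw
    funext i
    have h1 := congrFun hw i
    rw [hT'] at h1
    simpa using h1
  have hAT : ∀ w, A (T' w) = T' (A w) := by
    intro w
    rw [hA, hT', lfA_T]
  have hΛA : ∀ w, Λ (A w) = B.mulVec (Λ w) := by
    intro w
    rw [hA, hΛ, lfA_lam]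
  have hKB : ∀ w, w ∈ K ↔ w = A w - A (T' w) := by
    intro w
    rw [hK, ← hT']
    have e1 : lfA (P + Q)⁻¹ (lfA P w + T' (lfA Q w)) = w - A w + A (T' w) := by
      rw [map_add, ← lfA_mul, hT', lfA_T, ← lfA_mul, ← hB, ← hT', hAT, hA]
      have := lfA_add ((P + Q)⁻¹ * P) B w
      rw [hPB, lfA_one] at this
      rw [eq_sub_of_add_eq this.symm]
    constructor
    · intro h
      rw [h, map_zero] at e1
      rw [eq_comm, sub_add, sub_eq_zero] at e1
      exact e1
    · intro h
      have e2 : w - A w + A (T' w) = 0 := by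
        rw [sub_add, sub_eq_zero]
        exact h
      rw [e2] at e1
      have e3 := congrArg (lfA (P + Q)) e1
      rw [← lfA_mul, hinv', lfA_one, map_zero] at e3
      exact e3
  have hKA : ∀ w ∈ K, A w ∈ K := by
    intro w hw
    rw [hKB] at hw ⊢
    rw [← hAT, ← map_sub, ← hw]
  have hKT : ∀ w ∈ K, T' w ∈ K := by
    intro w hw
    rw [hKB] at hw ⊢
    rw [hAT, hAT, ← map_sub, ← hw]
  have hA0 : ∀ w ∈ K, A w = 0 → w = 0 := by
    intro w hw h
    have h1 := (hKB w).1 hw
    rw [hAT, h, map_zero, sub_zero] at h1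
    exact h1
  have hA1 : ∀ w ∈ K, A w = w → w = 0 := by
    intro w hw h
    have h1 := (hKB w).1 hw
    rw [h, eq_comm, sub_eq_self] at h1
    exact hT0 w (hA0 _ (hKT w hw) h1)
  have hcore : ∀ w ∈ K, Λ w = 0 → w = 0 := by
    intro w hw hw0
    obtain ⟨K0, hK0⟩ : ∃ K0 : Submodule F (Fin m → V), K0 = K ⊓ LinearMap.ker Λ := ⟨_, rfl⟩
    have hKle : ∀ x ∈ K0, x ∈ K := by
      intro x hx
      rw [hK0] at hx
      exact hx.1
    have hAK0 : ∀ x ∈ K0, A x ∈ K0 := by
      intro x hx
      rw [hK0, Submodule.mem_inf, LinearMap.mem_ker] at hx ⊢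
      exact ⟨hKA x hx.1, by rw [hΛA, hx.2, Matrix.mulVec_zero]⟩
    have hinj : Function.Injective (A.restrict hAK0) := by
      rw [injective_iff_map_eq_zero]
      intro x hx
      have h1 : A (x : Fin m → V) = 0 := by
        have := congrArg Subtype.val hx
        simpa using this
      have h2 : (x : Fin m → V) ∈ K := hKle _ x.2
      exact Subtype.ext (hA0 _ h2 h1)
    have hsur : Function.Surjective (A.restrict hAK0) :=
      LinearMap.injective_iff_surjective.1 hinj
    have hTK0 : ∀ x ∈ K0, T' x ∈ K0 := by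
      intro x hx
      have hxK : x ∈ K := hKle _ hx
      have h1 : A x - x ∈ K0 := K0.sub_mem (hAK0 x hx) hx
      have h2 : A (T' x) = A x - x := by
        have := (hKB x).1 hxK
        rw [eq_sub_iff_add_eq] at this
        rw [eq_sub_iff_add_eq, add_comm]
        exact this
      obtain ⟨y, hy⟩ := hsur ⟨A x - x, h1⟩
      have h3 : A (y : Fin m → V) = A x - x := by
        have := congrArg Subtype.val hy
        simpa using this
      have hyK : (y : Fin m → V) ∈ K := hKle _ y.2
      have h4 : T' x - y = 0 := by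
        refine hA0 _ (K.sub_mem (hKT x hxK) hyK) ?_
        rw [map_sub, h2, h3, sub_self]
      rw [sub_eq_zero] at h4
      rw [h4]
      exact y.2
    have hit : ∀ i : ℕ, (T' ^ i) w ∈ K0 := by
      intro i
      induction i with
      | zero =>
        rw [pow_zero, hK0]
        exact ⟨hw, hw0⟩
      | succ i ih =>
        rw [pow_succ']
        exact hTK0 _ ih
    have hpow : ∀ (i : ℕ) (j : Fin m), ((T' ^ i) w) j = (T ^ i) (w j) := by
      intro i j
      induction i with
      | zero => simp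
      | succ i ih =>
        rw [pow_succ', pow_succ']
        change (T' ((T' ^ i) w)) j = T ((T ^ i) (w j))
        rw [← ih, hT']
        rfl
    funext j
    refine hsep (w j) fun i => ?_
    have h1 := hit i
    rw [hK0, Submodule.mem_inf, LinearMap.mem_ker] at h1
    have h2 := congrFun h1.2 j
    rw [hΛ] at h2
    rw [← hpow]
    simpa using h2
  obtain ⟨W, hW⟩ : ∃ W : Submodule F (Fin m → F), W = K.map Λ := ⟨_, rfl⟩
  obtain ⟨β, hβ⟩ : ∃ β : (Fin m → F) →ₗ[F] (Fin m → F), β = B.mulVecLin := ⟨_, rfl⟩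
  have hβΛ : ∀ w, β (Λ w) = Λ (A w) := by
    intro w
    rw [hΛA, hβ]
    rfl
  have hdim : Module.finrank F W = Module.finrank F K := by
    rw [hW, ← LinearMap.range_domRestrict]
    refine LinearMap.finrank_range_of_inj ?_
    rw [injective_iff_map_eq_zero]
    intro x hx
    exact Subtype.ext (hcore _ x.2 hx)
  have hWW : ∀ x ∈ W, β x ∈ W := by
    intro x hx
    rw [hW, Submodule.mem_map] at hx ⊢
    obtain ⟨w, hw, rfl⟩ := hx
    exact ⟨A w, hKA w hw, (hβΛ w).symm⟩
  have hinjW : Function.Injective (β.restrict hWW) := by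
    rw [injective_iff_map_eq_zero]
    rintro ⟨x, hx⟩ h
    have h1 : β x = 0 := by
      have := congrArg Subtype.val h
      simpa using this
    have hx' := hx
    rw [hW, Submodule.mem_map] at hx'
    obtain ⟨w, hw, hwx⟩ := hx'
    rw [← hwx, hβΛ] at h1
    have h2 := hA0 w hw (hcore _ (hKA w hw) h1)
    refine Subtype.ext ?_
    change x = 0
    rw [← hwx, h2, map_zero]
  have hsurW : Function.Surjective (β.restrict hWW) := LinearMap.injective_iff_surjective.1 hinjW
  have hWr : W ≤ LinearMap.range (β * β) := by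
    intro x hx
    obtain ⟨y, hy⟩ := hsurW ⟨x, hx⟩
    obtain ⟨z, hz⟩ := hsurW y
    refine ⟨z, ?_⟩
    have h1 : β (y : Fin m → F) = x := by
      have := congrArg Subtype.val hy
      simpa using this
    have h2 : β (z : Fin m → F) = y := by
      have := congrArg Subtype.val hz
      simpa using this
    change β (β z) = x
    rw [h2, h1]
  have hNfix : ∀ v ∈ LinearMap.ker P.mulVecLin, β v = v := by
    intro v hv
    rw [LinearMap.mem_ker, Matrix.mulVecLin_apply] at hv
    rw [hβ, Matrix.mulVecLin_apply]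
    have h1 : ((P + Q)⁻¹ * P + B).mulVec v = v := by rw [hPB, Matrix.one_mulVec]
    rw [Matrix.add_mulVec, ← Matrix.mulVec_mulVec, hv, Matrix.mulVec_zero, zero_add] at h1
    exact h1
  have hNr : LinearMap.ker P.mulVecLin ≤ LinearMap.range (β * β) := by
    intro v hv
    refine ⟨v, ?_⟩
    change β (β v) = v
    rw [hNfix v hv, hNfix v hv]
  have hWN : W ⊓ LinearMap.ker P.mulVecLin = ⊥ := by
    rw [eq_bot_iff]
    rintro x ⟨hx, hxN⟩
    have h1 := hNfix x hxN
    have hx' := hx
    rw [SetLike.mem_coe, hW, Submodule.mem_map] at hx'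
    obtain ⟨w, hw, hwx⟩ := hx'
    rw [← hwx, hβΛ, ← sub_eq_zero, ← map_sub] at h1
    have h2 := hcore _ (K.sub_mem (hKA w hw) hw) h1
    have h3 := hA1 w hw (sub_eq_zero.1 h2)
    rw [Submodule.mem_bot, ← hwx, h3, map_zero]
  have hsum := Submodule.finrank_sup_add_finrank_inf_eq W (LinearMap.ker P.mulVecLin)
  rw [hWN, finrank_bot, add_zero, hdim] at hsum
  rw [← hsum]
  have hrank : (((P + Q)⁻¹ * Q) ^ 2).rank = Module.finrank F (LinearMap.range (β * β)) := by
    rw [← hB, pow_two, Matrix.rank, Matrix.mulVecLin_mul, hβ]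
    rfl
  rw [hrank]
  exact Submodule.finrank_mono (sup_le hWr hNr)

end

theorem lin_f {l : ℕ} [Fact l.Prime] [NeZero l] {V : Type} [AddCommGroup V] [Module (ZMod l) V]
    [Fintype V] [DecidableEq V] (T : V ≃ₗ[ZMod l] V) (lam : V →ₗ[ZMod l] ZMod l)
    (hsep : ∀ v : V, (∀ i : ℕ, lam ((T ^ i) v) = 0) → v = 0) {m : ℕ}
    (P Q : Matrix (Fin m) (Fin m) ℤ) (hu : IsUnit (rd l P + rd l Q).det) :
    (Kr T.toAddEquiv P Q).card * (Kf l P).card ≤
      l ^ ((((rd l P + rd l Q)⁻¹ * rd l Q) ^ 2).rank) := by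
  have hfin : Module.Finite (ZMod l) V := Module.Finite.of_finite
  obtain ⟨K, hK⟩ : ∃ K : Submodule (ZMod l) (Fin m → V), ∀ w, w ∈ K ↔
      lfA (rd l P) w + (T : V →ₗ[ZMod l] V).compLeft (Fin m) (lfA (rd l Q) w) = 0 :=
    ⟨LinearMap.ker (lfA (rd l P) + ((T : V →ₗ[ZMod l] V).compLeft (Fin m)).comp (lfA (rd l Q))),
      fun w => Iff.rfl⟩
  have h1 := lf_dim T lam hsep (rd l P) (rd l Q) hu K hK
  have hKc : (Kr T.toAddEquiv P Q).card = l ^ Module.finrank (ZMod l) K := by
    have h2 : Nat.card {w // w ∈ K} = (Kr T.toAddEquiv P Q).card := by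
      refine Nat.subtype_card _ fun w => ?_
      rw [hK]
      unfold Kr
      rw [Finset.mem_filter]
      simp only [Finset.mem_univ, true_and]
      rw [funext_iff]
      refine forall_congr' fun i => ?_
      simp only [Pi.add_apply, LinearMap.compLeft_apply, Function.comp, lfA_apply, rd,
        Matrix.map_apply, Pi.zero_apply, Int.coe_castRingHom, Int.cast_smul_eq_zsmul]
      exact Iff.rfl
    rw [← h2]
    have h3 := Module.natCard_eq_pow_finrank (K := ZMod l) (V := K)
    rw [Nat.card_zmod] at h3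
    exact h3
  have hNc : (Kf l P).card = l ^ Module.finrank (ZMod l) (LinearMap.ker (rd l P).mulVecLin) := by
    have h2 : Nat.card {w // w ∈ LinearMap.ker (rd l P).mulVecLin} = (Kf l P).card := by
      refine Nat.subtype_card _ fun w => ?_
      rw [LinearMap.mem_ker, Matrix.mulVecLin_apply]
      unfold Kf
      rw [Finset.mem_filter]
      simp only [Finset.mem_univ, true_and]
      rw [funext_iff]
      refine forall_congr' fun i => ?_
      simp only [Matrix.mulVec, dotProduct, rd, Matrix.map_apply, Pi.zero_apply,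
        Int.coe_castRingHom]
    rw [← h2]
    have h3 := Module.natCard_eq_pow_finrank (K := ZMod l)
      (V := LinearMap.ker (rd l P).mulVecLin)
    rw [Nat.card_zmod] at h3
    exact h3
  rw [hKc, hNc, ← pow_add]
  exact Nat.pow_le_pow_right (Fact.out : l.Prime).pos h1

end Pool.Agent.H86.RT
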