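import Pool.Agent.H86.RT.LDefs
import Pool.Agent.H86.RB.Exp

/-!
# The pencil of a connected system of rows
-/

set_option autoImplicit false

namespace Pool.Agent.H86.RT

open Pool.Agent.H86.RB

private theorem q_mg (f : Bool) (v : ℕ) (r : Row) (h : r.isps = false) : cQ f v r = 0 := by
  cases r with
  | mg a b => rfl
  | ps a n b => simp [Row.isps] at h

private theorem p_mg (f g : Bool) (v : ℕ) (r : Row) (h : r.isps = false) : cP f v r = cP g v r := by
  cases r with
  | mg a b => rfl
  | ps a n b => simp [Row.isps] at h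

private theorem p_ps (f : Bool) (v : ℕ) (r : Row) (h : r.isps = true) : cP (!f) v r = cQ f v r := by
  cases r with
  | mg a b => simp [Row.isps] at h
  | ps a n b =>
    cases f
    · rfl
    · rfl

theorem lin_r (R : List Row) (F : ℕ → Bool) (m : ℕ) (hm : R.length = m)
    (l : ℕ) [Fact l.Prime] [NeZero l] (hu : IsUnit (rd l (MP R F m) + rd l (MQ R F m)).det) :
    (Kf l (MP R (fun i => !(F i)) m)).card *
      l ^ ((((rd l (MP R F m) + rd l (MQ R F m))⁻¹ * rd l (MQ R F m)) ^ 2).rank) ≤
        l ^ (R.countP Row.isps) := by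
  classical
  have hl : l.Prime := Fact.out
  set P' := rd l (MP R F m) with hP'
  set Q' := rd l (MQ R F m) with hQ'
  set U := P' + Q' with hU
  set B := U⁻¹ * Q' with hB
  set ip : Fin m → Bool := fun i => (R.getD i (.mg 0 0)).isps with hip
  have hUB : ∀ v, U.mulVec (B.mulVec v) = Q'.mulVec v := by
    intro v
    rw [Matrix.mulVec_mulVec, hB, ← Matrix.mul_assoc, Matrix.mul_nonsing_inv U hu, Matrix.one_mul]
  have hinj : ∀ v, U.mulVec v = 0 → v = 0 := by
    intro v hv
    have h1 : U⁻¹.mulVec (U.mulVec v) = v := by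
      rw [Matrix.mulVec_mulVec, Matrix.nonsing_inv_mul U hu, Matrix.one_mulVec]
    rw [← h1, hv, Matrix.mulVec_zero]
  have hQ0 : ∀ i, ip i = false → ∀ v, (Q'.mulVec v) i = 0 := by
    intro i hi v
    rw [Matrix.mulVec, dotProduct]
    apply Finset.sum_eq_zero
    intro j _
    have h1 : Q' i j = 0 := by
      rw [hQ', rd, Matrix.map_apply, MQ, q_mg _ _ _ hi]
      simp
    rw [h1, zero_mul]
  set Z : Submodule (ZMod l) (Fin m → ZMod l) :=
    { carrier := {v | ∀ i, ip i = false → (U.mulVec v) i = 0}
      add_mem' := by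
        intro v w hv hw i hi
        rw [Matrix.mulVec_add, Pi.add_apply, hv i hi, hw i hi, add_zero]
      zero_mem' := by
        intro i _
        rw [Matrix.mulVec_zero]
        rfl
      smul_mem' := by
        intro c v hv i hi
        rw [Matrix.mulVec_smul, Pi.smul_apply, hv i hi, smul_zero] } with hZ
  have hZm : ∀ v, v ∈ Z ↔ ∀ i, ip i = false → (U.mulVec v) i = 0 := fun v => Iff.rfl
  -- dimension of `Z`
  have hdim : Module.finrank (ZMod l) Z ≤ R.countP Row.isps := by
    set g : Z →ₗ[ZMod l] ({i : Fin m // ip i = true} → ZMod l) :=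
      (LinearMap.funLeft (ZMod l) (ZMod l) Subtype.val) ∘ₗ U.mulVecLin ∘ₗ Z.subtype with hg
    have h1 : Function.Injective g := by
      rw [← LinearMap.ker_eq_bot, LinearMap.ker_eq_bot']
      intro v hv
      apply Subtype.ext
      apply hinj
      funext i
      by_cases hi : ip i = true
      · exact congrFun hv ⟨i, hi⟩
      · exact (hZm _).1 v.2 i (by simpa using hi)
    have h2 := LinearMap.finrank_le_finrank_of_injective h1
    rw [Module.finrank_fintype_fun_eq_card, Fintype.card_subtype, card_ps R m hm] at h2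
    exact h2
  set b := B.mulVecLin with hb
  have hbZ : ∀ v, b v ∈ Z := by
    intro v
    rw [hZm]
    intro i hi
    rw [hb, Matrix.mulVecLin_apply, hUB]
    exact hQ0 i hi v
  have hr : (B ^ 2).rank ≤ Module.finrank (ZMod l) (LinearMap.range (b.domRestrict Z)) := by
    rw [Matrix.rank]
    apply Submodule.finrank_mono
    rintro w ⟨v, rfl⟩
    refine ⟨⟨b v, hbZ v⟩, ?_⟩
    show B.mulVec (B.mulVec v) = (B ^ 2).mulVec v
    rw [pow_two, Matrix.mulVec_mulVec]
  have hQP : ∀ i v, (U.mulVec v) i = (P'.mulVec v) i + (Q'.mulVec v) i := by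
    intro i v
    rw [hU, Matrix.add_mulVec, Pi.add_apply]
  have hrow : ∀ (w : Fin m → ZMod l) (i : Fin m),
      ∑ j, ((MP R (fun i => !(F i)) m i j : ℤ) : ZMod l) * w j =
        if ip i = true then (Q'.mulVec w) i else (U.mulVec w) i := by
    intro w i
    split_ifs with hi
    · rw [Matrix.mulVec, dotProduct]
      apply Finset.sum_congr rfl
      intro j _
      congr 1
      rw [hQ', rd, Matrix.map_apply, MP, MQ, p_ps _ _ _ hi]
      rfl
    · have hi' : ip i = false := by simpa using hi
      rw [hQP, hQ0 i hi' w, add_zero, Matrix.mulVec, dotProduct]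
      apply Finset.sum_congr rfl
      intro j _
      congr 1
      rw [hP', rd, Matrix.map_apply, MP, MP, p_mg _ (F i) _ _ hi']
      rfl
  have hmem : ∀ w, w ∈ Kf l (MP R (fun i => !(F i)) m) ↔ w ∈ Z ∧ b w = 0 := by
    intro w
    rw [Kf, Finset.mem_filter]
    simp only [Finset.mem_univ, true_and, hrow]
    constructor
    · intro h
      have h1 : w ∈ Z := by
        rw [hZm]
        intro i hi
        have := h i
        rwa [hi, if_neg (by simp)] at this
      refine ⟨h1, ?_⟩
      apply hinj
      rw [hb, Matrix.mulVecLin_apply, hUB]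
      funext i
      by_cases hi : ip i = true
      · have := h i
        rwa [if_pos hi] at this
      · exact hQ0 i (by simpa using hi) w
    · rintro ⟨h1, h2⟩ i
      split_ifs with hi
      · have h3 : U.mulVec (b w) = 0 := by rw [h2, Matrix.mulVec_zero]
        rw [hb, Matrix.mulVecLin_apply, hUB] at h3
        rw [h3]
        rfl
      · exact (hZm w).1 h1 i (by simpa using hi)
  have hk : (Kf l (MP R (fun i => !(F i)) m)).card = Nat.card (LinearMap.ker (b.domRestrict Z)) := by
    rw [← Fintype.card_coe, ← Nat.card_eq_fintype_card]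
    exact Nat.card_congr
      { toFun := fun w => ⟨⟨w.1, ((hmem w.1).1 w.2).1⟩, ((hmem w.1).1 w.2).2⟩
        invFun := fun z => ⟨z.1.1, (hmem _).2 ⟨z.1.2, z.2⟩⟩
        left_inv := fun _ => rfl
        right_inv := fun _ => rfl }
  rw [hk, Module.natCard_eq_pow_finrank (K := ZMod l), Nat.card_zmod, ← pow_add]
  apply Nat.pow_le_pow_right hl.pos
  have h1 := LinearMap.finrank_range_add_finrank_ker (b.domRestrict Z)
  omega

end Pool.Agent.H86.RT
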