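import Mathlib

/-!
# The transposed pencil
-/

set_option autoImplicit false

namespace Pool.Agent.H86.RT

theorem lin_t {K : Type} [Field K] {m : ℕ} (P Q : Matrix (Fin m) (Fin m) K)
    (hu : IsUnit (P + Q).det) :
    (((P.transpose + Q.transpose)⁻¹ * Q.transpose) ^ 2).rank = (((P + Q)⁻¹ * Q) ^ 2).rank := by
  set U := P + Q with hU
  have h1 : P.transpose + Q.transpose = U.transpose := by rw [hU, Matrix.transpose_add]
  have h2 : (U.transpose)⁻¹ * Q.transpose = (Q * U⁻¹).transpose := by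
    rw [Matrix.transpose_mul, Matrix.transpose_nonsing_inv]
  rw [h1, h2, ← Matrix.transpose_pow, Matrix.rank_transpose]
  have h3 : (Q * U⁻¹) ^ 2 = U * (U⁻¹ * Q) ^ 2 * U⁻¹ := by
    rw [pow_two, pow_two]
    calc Q * U⁻¹ * (Q * U⁻¹) = (U * U⁻¹) * Q * U⁻¹ * (Q * U⁻¹) := by
          rw [Matrix.mul_nonsing_inv U hu, Matrix.one_mul]
      _ = _ := by simp only [Matrix.mul_assoc]
  have hu' : IsUnit (U⁻¹).det := by
    rw [Matrix.det_nonsing_inv]
    exact IsUnit.ringInverse hu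
  rw [h3, Matrix.rank_mul_eq_left_of_isUnit_det _ _ hu', Matrix.rank_mul_eq_right_of_isUnit_det _ _ hu]

end Pool.Agent.H86.RT
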