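import Pool.Agent.H86.RT.LDefs
import Pool.Agent.H86.RB.OddD

/-!
# The sum of the two matrices of a connected system of rows is invertible over every field
-/

set_option autoImplicit false

namespace Pool.Agent.H86.RT

open Pool.Agent.H86.RB

private theorem sum_co (f : Bool) (v : ℕ) (r : Row) :
    cP f v r + cQ f v r = (if v = r.x then 1 else 0) - (if v = r.y then 1 else 0) := by
  cases r with
  | mg a b =>
    unfold cP cQ Row.x Row.y
    simp only [add_zero]
  | ps a n b =>
    cases f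
    · unfold cP cQ Row.x Row.y
      simp only [Bool.false_eq_true, if_false]
      split_ifs <;> omega
    · unfold cP cQ Row.x Row.y
      simp only [if_true]
      split_ifs <;> omega

theorem lin_u (R : List Row) (F : ℕ → Bool) (m : ℕ) (hm : R.length = m)
    (hle : ∀ r ∈ R, r.x ≤ m ∧ r.y ≤ m ∧ r.z ≤ m)
    (hconn : ∀ B : Set ℕ, 0 ∈ B → (∀ r ∈ R, (r.x ∈ B ↔ r.y ∈ B)) → ∀ v ≤ m, v ∈ B)
    (l : ℕ) [Fact l.Prime] [NeZero l] : IsUnit (rd l (MP R F m) + rd l (MQ R F m)).det := by
  rw [isUnit_iff_ne_zero]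
  intro h0
  obtain ⟨v, hv, hv0⟩ := Matrix.exists_mulVec_eq_zero_iff.2 h0
  apply hv
  have hrow : ∀ r ∈ R, ext v r.x = ext v r.y := by
    intro r hr
    obtain ⟨i, hi, rfl⟩ := List.mem_iff_getElem.1 hr
    have h1 : ∑ j, (rd l (MP R F m) + rd l (MQ R F m)) (⟨i, by omega⟩ : Fin m) j * v j = 0 :=
      congrFun hv0 ⟨i, by omega⟩
    have h3 : R.getD i (.mg 0 0) = R[i] := List.getD_eq_getElem _ _ hi
    have h2 : ∀ j : Fin m, (rd l (MP R F m) + rd l (MQ R F m)) (⟨i, by omega⟩ : Fin m) j * v j =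
        (if (j : ℕ) + 1 = R[i].x then (1 : ZMod l) else 0) * ext v (j + 1) -
          (if (j : ℕ) + 1 = R[i].y then (1 : ZMod l) else 0) * ext v (j + 1) := by
      intro j
      have h4 : (rd l (MP R F m) + rd l (MQ R F m)) (⟨i, by omega⟩ : Fin m) j =
          ((cP (F i) ((j : ℕ) + 1) R[i] + cQ (F i) ((j : ℕ) + 1) R[i] : ℤ) : ZMod l) := by
        simp only [rd, Matrix.add_apply, Matrix.map_apply, MP, MQ, h3]
        push_cast
        rfl
      rw [h4, sum_co, ext_succ]
      push_cast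
      ring
    rw [Finset.sum_congr rfl fun j _ => h2 j, Finset.sum_sub_distrib,
      ind_sum (ext v) (ext_zero v) _ (hle _ hr).1, ind_sum (ext v) (ext_zero v) _ (hle _ hr).2.1] at h1
    exact sub_eq_zero.1 h1
  have h5 := hconn {w | ext v w = 0} (ext_zero v) (by
    intro r hr
    rw [Set.mem_ofPred_eq, Set.mem_ofPred_eq, hrow r hr])
  funext j
  have h6 := h5 ((j : ℕ) + 1) j.2
  rw [Set.mem_ofPred_eq, ext_succ] at h6
  exact h6

end Pool.Agent.H86.RT
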