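import Pool.Agent.H86.RT.OOne
import Pool.Agent.H86.RT.LAB
import Pool.Agent.H86.RT.LC
import Pool.Agent.H86.RT.LD
import Pool.Agent.H86.RT.LF
import Pool.Agent.H86.RT.LU
import Pool.Agent.H86.RT.LR
import Pool.Agent.H86.RT.LT
import Pool.Agent.H86.RB.Bound

/-!
# The bound for the ribbon number
-/

set_option autoImplicit false

namespace Pool.Agent.H86.RT

open Pool.Agent.H86.RB

theorem rd_transpose (q : ℕ) {m : ℕ} (P : Matrix (Fin m) (Fin m) ℤ) :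
    rd q P.transpose = (rd q P).transpose := rfl

/-- a product bound implies a bound of exponents -/
theorem exp_le {l e a b κ p : ℕ} (hl : 1 < l) (h : l ^ e ≤ a * b) (ha : a * l ^ κ ≤ l ^ p)
    (hb : b * l ^ κ ≤ l ^ p) : e + 2 * κ ≤ 2 * p := by
  rw [← Nat.pow_le_pow_iff_right hl]
  calc l ^ (e + 2 * κ) = l ^ e * (l ^ κ * l ^ κ) := by rw [pow_add, two_mul, pow_add]
    _ ≤ (a * b) * (l ^ κ * l ^ κ) := Nat.mul_le_mul_right _ h
    _ = (a * l ^ κ) * (b * l ^ κ) := by ring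
    _ ≤ l ^ p * l ^ p := Nat.mul_le_mul ha hb
    _ = l ^ (2 * p) := by rw [two_mul, pow_add]

/-- growth -/
theorem growth_le {N C c d : ℕ} (hN : 1 < N) (h : ∀ k : ℕ, N ^ (k * d) ≤ C * (N ^ k) ^ c) : d ≤ c := by
  by_contra hcd
  push Not at hcd
  have h1 := h C
  have h2 : N ^ (C * (c + 1)) ≤ N ^ (C * d) :=
    Nat.pow_le_pow_right (by omega) (Nat.mul_le_mul_left _ hcd)
  have h3 : N ^ (C * (c + 1)) = N ^ C * (N ^ C) ^ c := by
    rw [mul_add, mul_one, pow_add, mul_comm, pow_mul]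
  have h4 : 0 < (N ^ C) ^ c := pow_pos (pow_pos (by omega) _) _
  have h5 : N ^ C * (N ^ C) ^ c ≤ C * (N ^ C) ^ c := by
    rw [← h3]
    exact h2.trans h1
  have h6 := Nat.le_of_mul_le_mul_right h5 h4
  have h7 := Nat.lt_pow_self (n := C) hN
  omega

theorem bnd (K : Wd) (hK : Rb K) {l : ℕ} [Fact l.Prime] [NeZero l] {V : Type} [AddCommGroup V]
    [Module (ZMod l) V] [Fintype V] [DecidableEq V] (T : V ≃ₗ[ZMod l] V)
    (lam : V →ₗ[ZMod l] ZMod l) (hsep : ∀ v : V, (∀ i : ℕ, lam ((T ^ i) v) = 0) → v = 0)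
    (q : ℕ) [Fact q.Prime] [NeZero q] {s : ℕ} (Θ : Matrix (Fin s) (Fin s) ℤ)
    (hΘ : ∀ a b, a ≤ b → (q : ℤ) ∣ Θ a b) (N : ℕ) [NeZero N] (hN : 1 < N)
    (Tk : ∀ k : ℕ, (Fin s → ZMod (N ^ k)) ≃+ (Fin s → ZMod (N ^ k)))
    (hT : ∀ k v a, Tk k v a = ∑ b, ((Θ a b : ℤ) : ZMod (N ^ k)) * v b) (e d : ℕ)
    (he : l ^ e ≤ cola T.toAddEquiv K) (hd : ∀ k, N ^ (k * d) ≤ cola (Tk k) K) :
    s * e + 2 * d ≤ 2 * s * rib K := by
  obtain ⟨S, hS, hp, hI⟩ := rib_spec K hK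
  obtain ⟨x, hx⟩ := fac_ex S hS
  obtain ⟨m, hm⟩ : ∃ m, (rows S 1 [0]).length = m := ⟨_, rfl⟩
  obtain ⟨F, hF⟩ : ∃ F : ℕ → Bool, ∀ i, F i = (fgs S 1 x [true]).getD i true := ⟨_, fun _ => rfl⟩
  obtain ⟨hbm, hle⟩ := rows_le S hS.2.2 hm
  have hconn : ∀ B : Set ℕ, 0 ∈ B → (∀ r ∈ rows S 1 [0], (r.x ∈ B ↔ r.y ∈ B)) → ∀ v ≤ m, v ∈ B :=
    fun B h0 hB v hv => hS.2.1 B h0 hB v (by rw [hbm]; exact hv)
  have hps : (rows S 1 [0]).countP Row.isps = rib K := by rw [count_ps, hp]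
  obtain ⟨R, hR⟩ : ∃ R, rows S 1 [0] = R := ⟨_, rfl⟩
  obtain ⟨κ0, hκ0⟩ := mp_d (rows S 1 [0]) F m hm hle
  obtain ⟨κ1, hκ1⟩ := mp_d (rows S 1 [0]) (fun i => !(F i)) m hm hle
  have hcnt : ∀ {A : Type} [AddCommGroup A] [Fintype A] [DecidableEq A] (T : A ≃+ A),
      cola T K ≤ (Kr T (MP (rows S 1 [0]) F m) (MQ (rows S 1 [0]) F m)).card *
        (Kr T (MP (rows S 1 [0]) (fun i => !(F i)) m).transpose
          (MQ (rows S 1 [0]) (fun i => !(F i)) m).transpose).card := by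
    intro A _ _ _ T
    rw [← cola_iso T hI, cola_bdw T x S hS hx]
    exact ocnt T x S hS.1 hS.2.2 hx hm F hF
  rw [hR] at hm hle hconn hps hκ0 hκ1
  simp only [hR] at hcnt
  have hnn : (fun i => !((fun i => !(F i)) i)) = F := by funext i; simp
  -- the part over the prime l
  have hl : 1 < l := (Fact.out : l.Prime).one_lt
  have hu := lin_u R F m hm hle hconn l
  have hu' := lin_u R (fun i => !(F i)) m hm hle hconn l
  have a1 := lin_f T lam hsep (MP R F m) (MQ R F m) hu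
  have a2 := lin_r R F m hm l hu
  have hut : IsUnit (rd l (MP R (fun i => !(F i)) m).transpose +
      rd l (MQ R (fun i => !(F i)) m).transpose).det := by
    rw [rd_transpose, rd_transpose, ← Matrix.transpose_add, Matrix.det_transpose]
    exact hu'
  have b1 := lin_f T lam hsep (MP R (fun i => !(F i)) m).transpose
    (MQ R (fun i => !(F i)) m).transpose hut
  rw [kf_transpose, rd_transpose, rd_transpose, lin_t _ _ hu'] at b1
  have b2 := lin_r R (fun i => !(F i)) m hm l hu'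
  rw [hnn] at b2
  rw [hκ0 l] at a1 b2
  rw [hκ1 l] at a2 b1
  rw [hps] at a2 b2
  have e1 : e + 2 * (κ0 + κ1) ≤ 2 * rib K := by
    refine exp_le hl (he.trans (hcnt T.toAddEquiv)) ?_ ?_
    · calc _ = ((Kr T.toAddEquiv (MP R F m) (MQ R F m)).card * l ^ κ0) * l ^ κ1 := by
            rw [pow_add, mul_assoc]
        _ ≤ _ := Nat.mul_le_mul_right _ a1
        _ = _ := mul_comm _ _
        _ ≤ _ := a2
    · calc _ = ((Kr T.toAddEquiv (MP R (fun i => !(F i)) m).transpose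
              (MQ R (fun i => !(F i)) m).transpose).card * l ^ κ1) * l ^ κ0 := by
            rw [pow_add, mul_assoc, mul_comm (l ^ κ0)]
        _ ≤ _ := Nat.mul_le_mul_right _ b1
        _ = _ := mul_comm _ _
        _ ≤ _ := b2
  -- the part with Θ
  obtain ⟨C, hC⟩ := lin_ab (Blk (MP R F m) (MQ R F m) Θ) q (κ0 * s) (by
    rw [pow_mul, ← hκ0 q]
    exact lin_c _ _ Θ q hΘ)
  obtain ⟨C', hC'⟩ := lin_ab (Blk (MP R (fun i => !(F i)) m).transpose
    (MQ R (fun i => !(F i)) m).transpose Θ) q (κ1 * s) (by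
    rw [pow_mul, ← hκ1 q, ← kf_transpose]
    exact lin_c _ _ Θ q hΘ)
  have e2 : d ≤ κ0 * s + κ1 * s := by
    refine growth_le (C := C * C') hN fun k => ?_
    have h1 := hC (N ^ k)
    have h2 := hC' (N ^ k)
    rw [← kr_blk _ _ Θ (N ^ k) (Tk k) (hT k)] at h1 h2
    calc N ^ (k * d) ≤ _ := (hd k).trans (hcnt (Tk k))
      _ ≤ (C * (N ^ k) ^ (κ0 * s)) * (C' * (N ^ k) ^ (κ1 * s)) := Nat.mul_le_mul h1 h2
      _ = C * C' * (N ^ k) ^ (κ0 * s + κ1 * s) := by rw [pow_add]; ring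
  have e3 : s * (e + 2 * (κ0 + κ1)) ≤ s * (2 * rib K) := Nat.mul_le_mul_left _ e1
  calc s * e + 2 * d ≤ s * e + 2 * (κ0 * s + κ1 * s) := by omega
    _ = s * (e + 2 * (κ0 + κ1)) := by ring
    _ ≤ s * (2 * rib K) := e3
    _ = 2 * s * rib K := by ring

end Pool.Agent.H86.RT
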