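import Pool.Agent.H86.RT.Fdef

/-!
# The pretzel knots P(3, -3, n): the disks

`spz p n` is a ribbon disk with two ribbon singularities: a band of the half plane passes through a disk, is twisted by
`n` half twists (of sign `p`), the disk passes through it, then the band ends and the disk is merged with the half plane.
-/

set_option autoImplicit false

namespace Pool.Agent.H86.RT

open Pool.Agent.H86.RB

/-- a ribbon disk of the pretzel knot `P(3, -3, n)` -/
def spz (p : Bool) (n : ℕ) : List Bd :=
  [.split 0, .birth 1, .passR false 0] ++
    (List.replicate n (.twist p 1) ++ [.passR false 0, .death 0, .merge 0])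

/-- the knot -/
def kpz (p : Bool) (n : ℕ) : Wd := bdw (spz p n)

private theorem rep_bty (p : Bool) (n : ℕ) (S : List Bd) :
    bty (List.replicate n (.twist p 1) ++ S) 2 = bty S 2 := by
  induction n with
  | zero => rfl
  | succ n ih =>
    rw [List.replicate_succ, List.cons_append, bty]
    have h : bt (.twist p 1) 2 = some 2 := rfl
    rw [h, Option.bind_some, ih]

private theorem rep_rows (p : Bool) (n : ℕ) (S : List Bd) (k : ℕ) (vs : List ℕ) :
    rows (List.replicate n (.twist p 1) ++ S) k vs = rows S k vs := by
  induction n with
  | zero => rfl
  | succ n ih =>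
    rw [List.replicate_succ, List.cons_append, rows]
    exact ih

private theorem rep_births (p : Bool) (n : ℕ) (S : List Bd) :
    births (List.replicate n (.twist p 1) ++ S) = births S := by
  induction n with
  | zero => rfl
  | succ n ih =>
    rw [List.replicate_succ, List.cons_append, births, List.countP_cons_of_neg (by simp)]
    exact ih

private theorem rep_merges (p : Bool) (n : ℕ) (S : List Bd) :
    merges (List.replicate n (.twist p 1) ++ S) = merges S := by
  induction n with
  | zero => rfl
  | succ n ih =>
    rw [List.replicate_succ, List.cons_append, merges, List.countP_cons_of_neg (by simp)]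
    exact ih

private theorem rep_passes (p : Bool) (n : ℕ) (S : List Bd) :
    passes (List.replicate n (.twist p 1) ++ S) = passes S := by
  induction n with
  | zero => rfl
  | succ n ih =>
    rw [List.replicate_succ, List.cons_append, passes, List.countP_cons_of_neg (by simp)]
    exact ih

private theorem rep_okk (p : Bool) (n : ℕ) (k : ℕ) (x : ℕ → Bool) (c : Bool) :
    okk (List.replicate n (.twist p 1) ++ [.passR false 0, .death 0, .merge 0]) k x [true, true, c] := by
  induction n generalizing k c with
  | zero =>
    exact ⟨trivial, trivial, rfl, trivial⟩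
  | succ n ih =>
    rw [List.replicate_succ, List.cons_append, okk]
    exact ⟨trivial, ih _ _⟩

theorem rows_spz (p : Bool) (n : ℕ) :
    rows (spz p n) 1 [0] = [.ps 0 2 1, .ps 1 3 2, .mg 0 3] := by
  have h : rows (spz p n) 1 [0] = Row.ps 0 2 1 ::
      rows (List.replicate n (.twist p 1) ++ [.passR false 0, .death 0, .merge 0]) 3 [0, 1, 2] := rfl
  rw [h, rep_rows]
  rfl

theorem passes_spz (p : Bool) (n : ℕ) : passes (spz p n) = 2 := by
  have h : passes (spz p n) = passes (List.replicate n (.twist p 1) ++ [.passR false 0, .death 0, .merge 0]) + 1 := by
    rw [spz, List.cons_append, List.cons_append, List.cons_append, List.nil_append]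
    unfold passes
    rw [List.countP_cons_of_neg (by simp), List.countP_cons_of_neg (by simp),
      List.countP_cons_of_pos (by simp)]
  rw [h, rep_passes]
  rfl

theorem births_spz (p : Bool) (n : ℕ) : births (spz p n) = 1 := by
  have h : births (spz p n) = births (List.replicate n (.twist p 1) ++ [.passR false 0, .death 0, .merge 0]) + 1 := by
    rw [spz, List.cons_append, List.cons_append, List.cons_append, List.nil_append]
    unfold births
    rw [List.countP_cons_of_neg (by simp), List.countP_cons_of_pos (by simp),
      List.countP_cons_of_neg (by simp)]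
  rw [h, rep_births]
  rfl

theorem merges_spz (p : Bool) (n : ℕ) : merges (spz p n) = 1 := by
  have h : merges (spz p n) = merges (List.replicate n (.twist p 1) ++ [.passR false 0, .death 0, .merge 0]) := by
    rw [spz, List.cons_append, List.cons_append, List.cons_append, List.nil_append]
    unfold merges
    rw [List.countP_cons_of_neg (by simp), List.countP_cons_of_neg (by simp),
      List.countP_cons_of_neg (by simp)]
  rw [h, rep_merges]
  rfl

theorem dsk_spz (p : Bool) (n : ℕ) : Dsk (spz p n) := by
  refine ⟨?_, ?_, ?_⟩
  · have h : bty (spz p n) 0 = bty (List.replicate n (.twist p 1) ++ [.passR false 0, .death 0, .merge 0]) 2 := rfl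
    rw [h, rep_bty]
    rfl
  · intro A h0 hA v hv
    rw [births_spz, passes_spz] at hv
    rw [rows_spz] at hA
    have h1 := hA (.ps 0 2 1) (by simp)
    have h2 := hA (.ps 1 3 2) (by simp)
    have h3 := hA (.mg 0 3) (by simp)
    simp only [Row.x, Row.y] at h1 h2 h3
    have a3 : 3 ∈ A := h3.1 h0
    have a2 : 2 ∈ A := h1.1 h0
    have a1 : 1 ∈ A := h2.2 a3
    interval_cases v
    · exact h0
    · exact a1
    · exact a2
    · exact a3
  · rw [births_spz, merges_spz]

theorem okk_spz (p : Bool) (n : ℕ) : okk (spz p n) 1 (fun _ => true) [true] :=
  ⟨trivial, trivial, trivial, rep_okk p n _ _ true⟩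

end Pool.Agent.H86.RT
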