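import Pool.Agent.H86.RT.Fdef
import Pool.Agent.H86.RT.Alx

/-!
# Alexander colourings of the boundary of a ribbon surface, band by band

A state is the list of the triples (facing, colour of the left edge, colour of the right edge) of the bands; the half
plane (band `0`) has the virtual left edge of colour `0`.
-/

set_option autoImplicit false

namespace Pool.Agent.H86.RT

open Pool.Agent.H86.RB

variable {A : Type} [AddCommGroup A]

/-- all edges of the bands, from left to right, with their orientations -/
def ofl (st : List (Bool × A × A)) : List (A × Bool) :=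
  st.flatMap (fun p => [(p.2.1, !p.1), (p.2.2, p.1)])

/-- the facings of the bands -/
def fcs (st : List (Bool × A × A)) : List Bool := st.map Prod.fst

/-- normalized flow of a band with facing `φ` and (right colour minus left colour) `x` -/
def nf (T : A ≃+ A) (φ : Bool) (x : A) : A := if φ then x else -(T x)

/-- the flow that is recorded at a pass with flag `ρ` -/
def pf (T : A ≃+ A) (ρ φ : Bool) (x : A) : A := if ρ then nf T φ x else T.symm (nf T φ x)

/-- one band slice: `OSp T s b st c f st'`: the state below is `st`, above `st'`, `b` is the facing of a band that is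
born, `c` is the list of the colours that are chosen (at a birth or split), `f` the list of the recorded flows (at a
merge: minus the normalized flow of the right band; at a pass: the flow of the passing band) -/
inductive OSp (T : A ≃+ A) : Bd → Bool → List (Bool × A × A) → List A → List A →
    List (Bool × A × A) → Prop
  | birth (j : ℕ) (b : Bool) (x y : List (Bool × A × A)) (c : A) (h : x.length = j + 1) :
      OSp T (.birth j) b (x ++ y) [c] [] (x ++ (b, c, c) :: y)
  | death (j : ℕ) (b φ : Bool) (x y : List (Bool × A × A)) (c : A) (h : x.length = j + 1) :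
      OSp T (.death j) b (x ++ (φ, c, c) :: y) [] [] (x ++ y)
  | split (j : ℕ) (b φ : Bool) (x y : List (Bool × A × A)) (a d c : A) (h : x.length = j) :
      OSp T (.split j) b (x ++ (φ, a, d) :: y) [c] [] (x ++ (φ, a, c) :: (φ, c, d) :: y)
  | merge (j : ℕ) (b φ : Bool) (x y : List (Bool × A × A)) (a c d : A) (h : x.length = j) :
      OSp T (.merge j) b (x ++ (φ, a, c) :: (φ, c, d) :: y) [] [nf T φ (c - d)] (x ++ (φ, a, d) :: y)
  | twt (j : ℕ) (b φ : Bool) (x y : List (Bool × A × A)) (a c : A) (h : x.length = j + 1) :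
      OSp T (.twist true j) b (x ++ (φ, a, c) :: y) [] []
        (x ++ (!φ, a + ax T (!φ) (c - a), a) :: y)
  | twf (j : ℕ) (b φ : Bool) (x y : List (Bool × A × A)) (a c : A) (h : x.length = j + 1) :
      OSp T (.twist false j) b (x ++ (φ, a, c) :: y) [] []
        (x ++ (!φ, c, c + ax T (!φ) (a - c)) :: y)
  | crt (j : ℕ) (b0 φ ψ : Bool) (x y : List (Bool × A × A)) (a b c d : A) (h : x.length = j + 1) :
      OSp T (.cross true j) b0 (x ++ (φ, a, b) :: (ψ, c, d) :: y) [] []
        (x ++ (ψ, c - ((b - a) - ax T (!φ) (b - a)), d - ((b - a) - ax T (!φ) (b - a))) ::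
          (φ, a, b) :: y)
  | crf (j : ℕ) (b0 φ ψ : Bool) (x y : List (Bool × A × A)) (a b c d : A) (h : x.length = j + 1) :
      OSp T (.cross false j) b0 (x ++ (φ, a, b) :: (ψ, c, d) :: y) [] []
        (x ++ (ψ, c, d) ::
          (φ, a + ((d - c) - ax T (!ψ) (d - c)), b + ((d - c) - ax T (!ψ) (d - c))) :: y)
  | prt (j : ℕ) (b0 φ ψ : Bool) (x y : List (Bool × A × A)) (a b c d : A) (h : x.length = j + 1) :
      OSp T (.passR true j) b0 (x ++ (φ, a, b) :: (ψ, c, d) :: y) [] [pf T (!ψ) φ (b - a)]
        (x ++ (ψ, c - ((b - a) - ax T (!φ) (b - a)), d) ::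
          (φ, d + ax T (!ψ) (a - d), d + ax T (!ψ) (b - d)) :: y)
  | prf (j : ℕ) (b0 φ ψ : Bool) (x y : List (Bool × A × A)) (a b c d : A) (h : x.length = j + 1) :
      OSp T (.passR false j) b0 (x ++ (φ, a, b) :: (ψ, c, d) :: y) [] [pf T ψ φ (b - a)]
        (x ++ (ψ, c, d - (ax T ψ (b - a) - ax T (!φ) (ax T ψ (b - a)))) ::
          (φ, c + ax T ψ (a - c), c + ax T ψ (b - c)) :: y)
  | plt (j : ℕ) (b0 φ ψ : Bool) (x y : List (Bool × A × A)) (a b c d : A) (h : x.length = j + 1) :
      OSp T (.passL true j) b0 (x ++ (φ, a, b) :: (ψ, c, d) :: y) [] [pf T φ ψ (d - c)]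
        (x ++ (ψ, b + ax T φ (c - b), b + ax T φ (d - b)) ::
          (φ, a + (ax T φ (d - c) - ax T (!ψ) (ax T φ (d - c))), b) :: y)
  | plf (j : ℕ) (b0 φ ψ : Bool) (x y : List (Bool × A × A)) (a b c d : A) (h : x.length = j + 1) :
      OSp T (.passL false j) b0 (x ++ (φ, a, b) :: (ψ, c, d) :: y) [] [pf T (!φ) ψ (d - c)]
        (x ++ (ψ, a + ax T (!φ) (c - a), a + ax T (!φ) (d - a)) ::
          (φ, a, b + ((d - c) - ax T (!ψ) (d - c))) :: y)

/-- the same for a list of slices; `x k` is the facing of the piece `k` at its birth -/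
inductive OEv (T : A ≃+ A) (x : ℕ → Bool) : List Bd → ℕ → List (Bool × A × A) → List A → List A →
    List (Bool × A × A) → Prop
  | nil (k : ℕ) (st : List (Bool × A × A)) : OEv T x [] k st [] [] st
  | cons (s : Bd) (S : List Bd) (k : ℕ) (st st1 st2 : List (Bool × A × A))
      (c1 c2 f1 f2 : List A) (h1 : OSp T s (x k) st c1 f1 st1) (h2 : OEv T x S (k + bq0 s) st1 c2 f2 st2) :
      OEv T x (s :: S) k st (c1 ++ c2) (f1 ++ f2) st2

/-- the multiset of all (choices, flows, new state) of one band slice -/
def obst [Fintype A] [DecidableEq A] (T : A ≃+ A) : Bd → Bool → List (Bool × A × A) →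
    Multiset (List A × List A × List (Bool × A × A))
  | .birth j, b, st => (Finset.univ : Finset A).val.map
      (fun c => ([c], [], st.take (j + 1) ++ (b, c, c) :: st.drop (j + 1)))
  | .death j, _, st =>
    match st.drop (j + 1) with
    | (_, a, b) :: r => if a = b then {([], [], st.take (j + 1) ++ r)} else 0
    | _ => 0
  | .split j, _, st =>
    match st.drop j with
    | (φ, a, b) :: r => (Finset.univ : Finset A).val.map
        (fun c => ([c], [], st.take j ++ (φ, a, c) :: (φ, c, b) :: r))
    | _ => 0
  | .merge j, _, st =>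
    match st.drop j with
    | (φ, a, b) :: (_, c, d) :: r =>
      if b = c then {([], [nf T φ (c - d)], st.take j ++ (φ, a, d) :: r)} else 0
    | _ => 0
  | .twist p j, _, st =>
    match st.drop (j + 1) with
    | (φ, a, c) :: r =>
      {([], [], st.take (j + 1) ++
        (if p then (!φ, a + ax T (!φ) (c - a), a) else (!φ, c, c + ax T (!φ) (a - c))) :: r)}
    | _ => 0
  | .cross p j, _, st =>
    match st.drop (j + 1) with
    | (φ, a, b) :: (ψ, c, d) :: r =>
      {([], [], st.take (j + 1) ++
        if p then (ψ, c - ((b - a) - ax T (!φ) (b - a)), d - ((b - a) - ax T (!φ) (b - a))) ::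
          (φ, a, b) :: r
        else (ψ, c, d) ::
          (φ, a + ((d - c) - ax T (!ψ) (d - c)), b + ((d - c) - ax T (!ψ) (d - c))) :: r)}
    | _ => 0
  | .passR p j, _, st =>
    match st.drop (j + 1) with
    | (φ, a, b) :: (ψ, c, d) :: r =>
      {([], [pf T (if p then !ψ else ψ) φ (b - a)], st.take (j + 1) ++
        if p then (ψ, c - ((b - a) - ax T (!φ) (b - a)), d) ::
          (φ, d + ax T (!ψ) (a - d), d + ax T (!ψ) (b - d)) :: r
        else (ψ, c, d - (ax T ψ (b - a) - ax T (!φ) (ax T ψ (b - a)))) ::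
          (φ, c + ax T ψ (a - c), c + ax T ψ (b - c)) :: r)}
    | _ => 0
  | .passL p j, _, st =>
    match st.drop (j + 1) with
    | (φ, a, b) :: (ψ, c, d) :: r =>
      {([], [pf T (if p then φ else !φ) ψ (d - c)], st.take (j + 1) ++
        if p then (ψ, b + ax T φ (c - b), b + ax T φ (d - b)) ::
          (φ, a + (ax T φ (d - c) - ax T (!ψ) (ax T φ (d - c))), b) :: r
        else (ψ, a + ax T (!φ) (c - a), a + ax T (!φ) (d - a)) ::
          (φ, a, b + ((d - c) - ax T (!ψ) (d - c))) :: r)}
    | _ => 0

/-- the multiset of all (choices, flows) of a list of band slices -/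
def obrun [Fintype A] [DecidableEq A] (T : A ≃+ A) (x : ℕ → Bool) : List Bd → ℕ →
    List (Bool × A × A) → Multiset (List A × List A)
  | [], _, _ => {([], [])}
  | s :: S, k, st => (obst T s (x k) st).bind
      (fun t => (obrun T x S (k + bq0 s) t.2.2).map (fun q => (t.1 ++ q.1, t.2.1 ++ q.2)))

end Pool.Agent.H86.RT
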