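import Pool.Agent.H86.RT.ExD
import Pool.Agent.H86.RT.ODefs

/-!
# The pretzel knots P(3, -3, n): colourings
-/

set_option autoImplicit false

namespace Pool.Agent.H86.RT

open Pool.Agent.H86.RB

variable {A : Type} [AddCommGroup A]

private theorem econs {T : A ≃+ A} {s : Bd} {S : List Bd} {k : ℕ} {st st1 : List (Bool × A × A)}
    {c1 c2 f1 : List A} (h1 : OSp T s true st c1 f1 st1)
    (h2 : ∃ f st', OEv T (fun _ => true) S (k + bq0 s) st1 c2 f st') :
    ∃ f st', OEv T (fun _ => true) (s :: S) k st (c1 ++ c2) f st' := by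
  obtain ⟨f, st', h3⟩ := h2
  exact ⟨_, _, OEv.cons s S k st st1 st' c1 c2 f1 f h1 h3⟩

private theorem fin3 (T : A ≃+ A) (k : ℕ) (c₁ c₂ e : A) (ψ : Bool) (P Q : A)
    (hd : P = Q - (ax T ψ (e - c₂) - T.symm (ax T ψ (e - c₂)))) (hm : c₁ = P + ax T ψ (c₂ - P)) :
    ∃ f st', OEv T (fun _ => true) [.passR false 0, .death 0, .merge 0] k
      [(true, (0 : A), c₁), (true, c₂, e), (ψ, P, Q)] [] f st' := by
  have h1 := OSp.prf (T := T) 0 true true ψ [(true, (0 : A), c₁)] [] c₂ e P Q rfl
  have h1' : OSp T (.passR false 0) true [(true, (0 : A), c₁), (true, c₂, e), (ψ, P, Q)] []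
      [pf T ψ true (e - c₂)] [(true, (0 : A), c₁), (ψ, P, P), (true, c₁, P + ax T ψ (e - P))] := by
    have e1 : Q - (ax T ψ (e - c₂) - ax T (!true) (ax T ψ (e - c₂))) = P := hd.symm
    rw [e1, ← hm] at h1
    exact h1
  have h2 := OSp.death (T := T) 0 true ψ [(true, (0 : A), c₁)] [(true, c₁, P + ax T ψ (e - P))] P rfl
  have h3 := OSp.merge (T := T) 0 true true [] [] (0 : A) c₁ (P + ax T ψ (e - P)) rfl
  have h4 := econs (k := k + bq0 (.passR false 0) + bq0 (.death 0)) h3 ⟨_, _, OEv.nil _ _⟩
  have h5 := econs (k := k + bq0 (.passR false 0)) h2 h4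
  exact econs (k := k) h1' h5

private theorem tw (T : A ≃+ A) (p : Bool) (S : List Bd) (j : ℕ) (k : ℕ) (u1 u2 : Bool × A × A)
    (a c : A)
    (h : ∀ k, ∃ f st', OEv T (fun _ => true) S k
      [u1, u2, (true, a + j • (if p then T.symm (c - a) - (c - a) else (c - a) - T.symm (c - a)),
        c + j • (if p then T.symm (c - a) - (c - a) else (c - a) - T.symm (c - a)))] [] f st') :
    ∃ f st', OEv T (fun _ => true) (List.replicate (2 * j) (.twist p 1) ++ S) k
      [u1, u2, (true, a, c)] [] f st' := by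
  induction j generalizing k a c with
  | zero =>
    simp only [zero_smul, add_zero] at h
    exact h k
  | succ j ih =>
    have e0 : List.replicate (2 * (j + 1)) (Bd.twist p 1) ++ S =
        .twist p 1 :: .twist p 1 :: (List.replicate (2 * j) (Bd.twist p 1) ++ S) := by
      rw [show 2 * (j + 1) = (2 * j) + 1 + 1 by ring, List.replicate_succ, List.replicate_succ]
      rfl
    rw [e0]
    cases p
    · set σ := (c - a) - T.symm (c - a) with hσ
      have h1 := OSp.twf (T := T) 1 true true [u1, u2] [] a c rfl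
      have h2 := OSp.twf (T := T) 1 true false [u1, u2] [] c (c + T.symm (a - c)) rfl
      have h2' : OSp T (.twist false 1) true ([u1, u2] ++ [(false, c, c + T.symm (a - c))]) [] []
          ([u1, u2] ++ [(true, a + σ, c + σ)]) := by
        have e1 : c + T.symm (a - c) = a + σ := by
          rw [hσ, ← neg_sub c a, map_neg]; abel
        have e2 : a + σ + ax T (!false) (c - (a + σ)) = c + σ := by
          show a + σ + T (c - (a + σ)) = c + σ
          rw [hσ, show c - (a + (c - a - T.symm (c - a))) = T.symm (c - a) by abel, T.apply_symm_apply]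
          abel
        rw [e1] at h2
        rw [e2] at h2
        rw [e1]
        exact h2
      have h3 : ∀ k, ∃ f st', OEv T (fun _ => true) S k
          [u1, u2, (true, (a + σ) + j • (if false then T.symm ((c + σ) - (a + σ)) - ((c + σ) - (a + σ))
              else ((c + σ) - (a + σ)) - T.symm ((c + σ) - (a + σ))),
            (c + σ) + j • (if false then T.symm ((c + σ) - (a + σ)) - ((c + σ) - (a + σ))
              else ((c + σ) - (a + σ)) - T.symm ((c + σ) - (a + σ))))] [] f st' := by
        intro k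
        have e3 : (c + σ) - (a + σ) = c - a := by abel
        have := h k
        simp only [Bool.false_eq_true, if_false, add_smul, one_smul] at this
        simp only [Bool.false_eq_true, if_false, e3, ← hσ]
        rw [show a + σ + j • σ = a + (j • σ + σ) by abel, show c + σ + j • σ = c + (j • σ + σ) by abel]
        exact this
      obtain ⟨f, st', h4⟩ := ih _ (a + σ) (c + σ) h3
      exact ⟨_, _, OEv.cons _ _ _ _ _ _ _ _ _ _ h1 (OEv.cons _ _ _ _ _ _ _ _ _ _ h2' h4)⟩
    · set σ := T.symm (c - a) - (c - a) with hσ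
      have h1 := OSp.twt (T := T) 1 true true [u1, u2] [] a c rfl
      have h2 := OSp.twt (T := T) 1 true false [u1, u2] [] (a + T.symm (c - a)) a rfl
      have h2' : OSp T (.twist true 1) true ([u1, u2] ++ [(false, a + T.symm (c - a), a)]) [] []
          ([u1, u2] ++ [(true, a + σ, c + σ)]) := by
        have e1 : a + T.symm (c - a) = c + σ := by
          rw [hσ]; abel
        have e2 : c + σ + ax T (!false) (a - (c + σ)) = a + σ := by
          show c + σ + T (a - (c + σ)) = a + σ
          rw [hσ, show a - (c + (T.symm (c - a) - (c - a))) = -(T.symm (c - a)) by abel, map_neg,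
            T.apply_symm_apply]
          abel
        rw [e1] at h2
        rw [e2] at h2
        rw [e1]
        exact h2
      have h3 : ∀ k, ∃ f st', OEv T (fun _ => true) S k
          [u1, u2, (true, (a + σ) + j • (if true then T.symm ((c + σ) - (a + σ)) - ((c + σ) - (a + σ))
              else ((c + σ) - (a + σ)) - T.symm ((c + σ) - (a + σ))),
            (c + σ) + j • (if true then T.symm ((c + σ) - (a + σ)) - ((c + σ) - (a + σ))
              else ((c + σ) - (a + σ)) - T.symm ((c + σ) - (a + σ))))] [] f st' := by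
        intro k
        have e3 : (c + σ) - (a + σ) = c - a := by abel
        have := h k
        simp only [if_true, add_smul, one_smul] at this
        simp only [if_true, e3, ← hσ]
        rw [show a + σ + j • σ = a + (j • σ + σ) by abel, show c + σ + j • σ = c + (j • σ + σ) by abel]
        exact this
      obtain ⟨f, st', h4⟩ := ih _ (a + σ) (c + σ) h3
      exact ⟨_, _, OEv.cons _ _ _ _ _ _ _ _ _ _ h1 (OEv.cons _ _ _ _ _ _ _ _ _ _ h2' h4)⟩

/-- the beginning -/
private theorem beg (T : A ≃+ A) (S : List Bd) (c₁ c₂ : A)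
    (h : ∀ k, ∃ f st', OEv T (fun _ => true) S k [(true, (0 : A), c₁), (true, c₂, c₂ + (T c₁ - c₁)),
      (true, c₂ + T (c₁ - c₂), c₂ - T c₂)] [] f st') :
    ∃ f st', OEv T (fun _ => true) ([.split 0, .birth 1, .passR false 0] ++ S) 1
      [(true, (0 : A), (0 : A))] [c₁, c₂] f st' := by
  have h1 := OSp.split (T := T) 0 true true [] [] (0 : A) 0 c₁ rfl
  have h2 := OSp.birth (T := T) 1 true [(true, (0 : A), c₁), (true, c₁, 0)] [] c₂ rfl
  have h3 := OSp.prf (T := T) 0 true true true [(true, (0 : A), c₁)] [] c₁ 0 c₂ c₂ rfl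
  have e1 : c₂ - (ax T true (0 - c₁) - ax T (!true) (ax T true (0 - c₁))) = c₂ + (T c₁ - c₁) := by
    show c₂ - (T (0 - c₁) - T.symm (T (0 - c₁))) = _
    rw [T.symm_apply_apply, zero_sub, map_neg]
    abel
  have e2 : c₂ + ax T true (0 - c₂) = c₂ - T c₂ := by
    show c₂ + T (0 - c₂) = _
    rw [zero_sub, map_neg]
    abel
  rw [e1, e2] at h3
  have h4 := econs (k := 1 + bq0 (.split 0) + bq0 (.birth 1)) h3 (h _)
  have h5 := econs (k := 1 + bq0 (.split 0)) h2 h4
  exact econs (k := 1) h1 h5

/-- even number of half twists -/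
theorem ev_even (T : A ≃+ A) (p : Bool) (j : ℕ) (c₁ c₂ : A) (h1 : c₁ - T c₁ + T (T c₁) = 0)
    (h2 : c₂ - T c₂ + T (T c₂) = (if p then -1 else 1 : ℤ) • (j • T c₁)) :
    ∃ f st', OEv T (fun _ => true) (spz p (2 * j)) 1 [(true, (0 : A), (0 : A))] [c₁, c₂] f st' := by
  apply beg
  intro k
  apply tw
  intro k
  have e0 : c₂ - T c₂ - (c₂ + T (c₁ - c₂)) = -(T c₁) := by rw [map_sub]; abel
  have e1 : T.symm (-(T c₁)) = - c₁ := by rw [map_neg, T.symm_apply_apply]
  rw [e0, e1]
  apply fin3
  · rw [ax_true, show c₂ + (T c₁ - c₁) - c₂ = T c₁ - c₁ by abel, T.symm_apply_apply, map_sub T,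
      map_sub T]
    have h3 : T (T c₁) = T c₁ - c₁ := by
      have : T (T c₁) - (T c₁ - c₁) = 0 := by rw [← h1]; abel
      exact sub_eq_zero.1 this
    rw [h3]
    abel
  · rw [ax_true]
    have h3 : T (T c₁) = T c₁ - c₁ := by
      have : T (T c₁) - (T c₁ - c₁) = 0 := by rw [← h1]; abel
      exact sub_eq_zero.1 this
    cases p
    · simp only [Bool.false_eq_true, if_false, one_smul] at h2 ⊢
      simp only [map_add, map_sub, map_neg, map_nsmul, h3]
      have h4 : T (T c₂) = T c₂ - c₂ + j • T c₁ := by rw [← h2]; abel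
      rw [h4]
      simp only [smul_sub, smul_neg]
      abel
    · simp only [if_true, neg_smul, one_smul] at h2 ⊢
      simp only [map_add, map_sub, map_neg, map_nsmul, h3]
      have h4 : T (T c₂) = T c₂ - c₂ - j • T c₁ := by rw [sub_eq_add_neg, ← h2]; abel
      rw [h4]
      simp only [smul_sub, smul_neg]
      abel

/-- odd number of half twists -/
theorem ev_odd (T : A ≃+ A) (p : Bool) (j : ℕ) (c₁ c₂ : A) (h1 : c₁ = T c₁ + T c₁)
    (h2 : c₂ + c₂ - T c₂ = c₁ + (if p then -((j : ℤ) + 1) else (j : ℤ)) •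
      (T.symm c₁ - (c₁ + c₁) + T c₁)) :
    ∃ f st', OEv T (fun _ => true) (spz p (2 * j + 1)) 1 [(true, (0 : A), (0 : A))] [c₁, c₂] f st' := by
  apply beg
  intro k
  rw [List.replicate_succ', List.append_assoc]
  apply tw
  intro k
  have e0 : c₂ - T c₂ - (c₂ + T (c₁ - c₂)) = -(T c₁) := by rw [map_sub]; abel
  have e1 : T.symm (-(T c₁)) = - c₁ := by rw [map_neg, T.symm_apply_apply]
  have e5 : T.symm c₁ = c₁ + c₁ := by
    conv_lhs => rw [h1]
    rw [map_add, T.symm_apply_apply]
  rw [e0, e1]
  cases p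
  · simp only [Bool.false_eq_true, if_false] at h2 ⊢
    have g1 := OSp.twf (T := T) 1 true true [(true, (0 : A), c₁), (true, c₂, c₂ + (T c₁ - c₁))] []
      (c₂ + T (c₁ - c₂) + j • (-(T c₁) - -c₁)) (c₂ - T c₂ + j • (-(T c₁) - -c₁)) rfl
    refine econs g1 ?_
    apply fin3
    · rw [Bool.not_true, ax_false, show c₂ + (T c₁ - c₁) - c₂ = T c₁ - c₁ by abel,
        show c₂ + T (c₁ - c₂) + j • (-(T c₁) - -c₁) - (c₂ - T c₂ + j • (-(T c₁) - -c₁)) = T c₁ by
          rw [map_sub]; abel,
        T.symm_apply_apply, map_sub, map_sub, T.symm_apply_apply, e5, map_add, e5]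
      abel
    · rw [Bool.not_true, ax_false]
      simp only [map_add, map_sub, map_neg, map_nsmul, T.symm_apply_apply, e5]
      rw [e5] at h2
      generalize T c₁ = t at *
      subst h1
      have h4 : T c₂ = c₂ + c₂ - (t + t + (j : ℤ) • (t + t + (t + t) - (t + t + (t + t)) + t)) := by
        rw [← h2]; abel
      rw [h4]
      simp only [natCast_zsmul, smul_add, smul_sub, smul_neg]
      abel
  · simp only [if_true] at h2 ⊢
    have g1 := OSp.twt (T := T) 1 true true [(true, (0 : A), c₁), (true, c₂, c₂ + (T c₁ - c₁))] []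
      (c₂ + T (c₁ - c₂) + j • (-c₁ - -(T c₁))) (c₂ - T c₂ + j • (-c₁ - -(T c₁))) rfl
    refine econs g1 ?_
    have e6 : c₂ - T c₂ + j • (-c₁ - -(T c₁)) - (c₂ + T (c₁ - c₂) + j • (-c₁ - -(T c₁))) = -(T c₁) := by
      rw [map_sub]; abel
    rw [e6, Bool.not_true, ax_false, map_neg, T.symm_apply_apply]
    apply fin3
    · have e7 : T.symm (T c₁ - c₁) = -c₁ := by
        rw [map_sub, T.symm_apply_apply, e5]; abel
      have e8 : T.symm (-c₁) = -(c₁ + c₁) := by rw [map_neg, e5]
      rw [ax_false, show c₂ + (T c₁ - c₁) - c₂ = T c₁ - c₁ by abel, e7, e8]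
      abel
    · rw [ax_false]
      simp only [map_add, map_sub, map_neg, map_nsmul, T.symm_apply_apply, e5]
      rw [e5] at h2
      generalize T c₁ = t at *
      subst h1
      have h4 : T c₂ = c₂ + c₂ - (t + t + (-((j : ℤ) + 1)) • (t + t + (t + t) - (t + t + (t + t)) + t)) := by
        rw [← h2]; abel
      rw [h4]
      simp only [neg_smul, add_smul, one_smul, natCast_zsmul, smul_add, smul_sub, smul_neg]
      abel

end Pool.Agent.H86.RT
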