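import Pool.Agent.H86.RT.Fdef
import Pool.Agent.H86.RB.Cnt

/-!
# Kernels modulo `M`, block matrices
-/

set_option autoImplicit false

namespace Pool.Agent.H86.RT

open Pool.Agent.H86.RB

/-- the kernel of `B` modulo `M` -/
def Kg (M : ℕ) [NeZero M] {ι : Type} [Fintype ι] [DecidableEq ι] (B : Matrix ι ι ℤ) :
    Finset (ι → ZMod M) :=
  Finset.univ.filter (fun v => ∀ i, ∑ j, ((B i j : ℤ) : ZMod M) * v j = 0)

/-- the block matrix `P ⊗ 1 + Q ⊗ Θ` -/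
def Blk {m s : ℕ} (P Q : Matrix (Fin m) (Fin m) ℤ) (Θ : Matrix (Fin s) (Fin s) ℤ) :
    Matrix (Fin m × Fin s) (Fin m × Fin s) ℤ :=
  fun p q => (if p.2 = q.2 then P p.1 q.1 else 0) + Q p.1 q.1 * Θ p.2 q.2

/-- reduction modulo `q` -/
def rd (q : ℕ) {m : ℕ} (P : Matrix (Fin m) (Fin m) ℤ) : Matrix (Fin m) (Fin m) (ZMod q) :=
  P.map (Int.castRingHom (ZMod q))

end Pool.Agent.H86.RT
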