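import Pool.Agent.H86.RT.ODefs

/-!
# [H86 RT OBK] The total flow; colourings without flow have equal colours on both edges of every band

Copy of `RB/Bk.lean`.

PROOF of `osp_tot`: the total normalized flow is the same below and above every slice. Cases of `OSp`; `otot (x ++ y) =
otot x + otot y`. Write `δ = b - a`. twist: `nf (!φ) (- ax (!φ) δ) = nf φ δ` (cases on `φ`: `nf T false x = - T x`,
`nf T true x = x`). cross: both edges are shifted by the same amount. passR true (the band `(φ, a, b)` passes through
`(ψ, c, d)`): flow of the passing band afterwards `ax (!ψ) δ`, flow of the other band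
`(d - c) + (δ - ax (!φ) δ)`; so `nf φ (ax (!ψ) δ) + nf ψ (δ - ax (!φ) δ) = nf φ δ`: four cases of `φ, ψ`, `simp [nf, ax_true,
ax_false]`, `abel`. The other passes are similar. merge, split: the flow of `(φ, a, c), (φ, c, d)` is
`nf φ (c - a) + nf φ (d - c) = nf φ (d - a)`.
PROOF of `osp_back`: if the recorded flows are `0` and all bands above have equal colours on both edges, the same
holds below. `nf T φ x = 0 ↔ x = 0`, `pf T ρ φ x = 0 ↔ x = 0`, `ax T o x = 0 ↔ x = 0`. At a pass the passing band has
`b - a = 0` from the recorded flow, and then the edges of the other band are shifted by `0`. twist: `a + ax (c - a) = a`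
implies `c = a`.
-/

set_option autoImplicit false
set_option linter.unusedSectionVars false
set_option linter.unusedSimpArgs false

namespace Pool.Agent.H86.RT

open Pool.Agent.H86.RB

variable {A : Type} [AddCommGroup A]

/-- total normalized flow -/
def otot (T : A ≃+ A) (st : List (Bool × A × A)) : A :=
  (st.map (fun p => nf T p.1 (p.2.2 - p.2.1))).sum

/-- both edges of every band have the same colour -/
def ODg (st : List (Bool × A × A)) : Prop := ∀ p ∈ st, p.2.1 = p.2.2

private theorem otot_app (T : A ≃+ A) (x y : List (Bool × A × A)) :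
    otot T (x ++ y) = otot T x + otot T y := by
  simp [otot]

private theorem otot_cons (T : A ≃+ A) (φ : Bool) (a b : A) (y : List (Bool × A × A)) :
    otot T ((φ, a, b) :: y) = nf T φ (b - a) + otot T y := by
  simp [otot]

private theorem nf_true (T : A ≃+ A) (x : A) : nf T true x = x := rfl

private theorem nf_false (T : A ≃+ A) (x : A) : nf T false x = -(T x) := rfl

private theorem osp_tot {T : A ≃+ A} {s : Bd} {b0 : Bool} {st st' : List (Bool × A × A)}
    {c f : List A} (h : OSp T s b0 st c f st') : otot T st' = otot T st := by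
  cases h with
  | birth j b x y c hx =>
    rw [otot_app, otot_app, otot_cons]
    cases b0 <;> simp [nf]
  | death j b φ x y c hx =>
    rw [otot_app, otot_app, otot_cons]
    cases φ <;> simp [nf]
  | split j b φ x y a d c hx =>
    rw [otot_app, otot_app, otot_cons, otot_cons, otot_cons]
    cases φ <;> simp only [nf_true, nf_false, map_sub] <;> abel
  | merge j b φ x y a c d hx =>
    rw [otot_app, otot_app, otot_cons, otot_cons, otot_cons]
    cases φ <;> simp only [nf_true, nf_false, map_sub] <;> abel
  | twt j b φ x y a c hx =>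
    rw [otot_app, otot_app, otot_cons, otot_cons]
    cases φ <;> simp only [nf_true, nf_false, map_sub, map_add, Bool.not_true, Bool.not_false, ax_true,
      ax_false, AddEquiv.apply_symm_apply, AddEquiv.symm_apply_apply] <;> abel
  | twf j b φ x y a c hx =>
    rw [otot_app, otot_app, otot_cons, otot_cons]
    cases φ <;> simp only [nf_true, nf_false, map_sub, map_add, Bool.not_true, Bool.not_false, ax_true,
      ax_false, AddEquiv.apply_symm_apply, AddEquiv.symm_apply_apply] <;> abel
  | crt j b φ ψ x y a b c d hx =>
    rw [otot_app, otot_app, otot_cons, otot_cons, otot_cons, otot_cons]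
    cases φ <;> cases ψ <;> simp only [nf_true, nf_false, map_sub, map_add, Bool.not_true,
      Bool.not_false, ax_true, ax_false, AddEquiv.apply_symm_apply, AddEquiv.symm_apply_apply] <;> abel
  | crf j b φ ψ x y a b c d hx =>
    rw [otot_app, otot_app, otot_cons, otot_cons, otot_cons, otot_cons]
    cases φ <;> cases ψ <;> simp only [nf_true, nf_false, map_sub, map_add, Bool.not_true,
      Bool.not_false, ax_true, ax_false, AddEquiv.apply_symm_apply, AddEquiv.symm_apply_apply] <;> abel
  | prt j b φ ψ x y a b c d hx =>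
    rw [otot_app, otot_app, otot_cons, otot_cons, otot_cons, otot_cons]
    cases φ <;> cases ψ <;> simp only [nf_true, nf_false, map_sub, map_add, Bool.not_true,
      Bool.not_false, ax_true, ax_false, AddEquiv.apply_symm_apply, AddEquiv.symm_apply_apply] <;> abel
  | prf j b φ ψ x y a b c d hx =>
    rw [otot_app, otot_app, otot_cons, otot_cons, otot_cons, otot_cons]
    cases φ <;> cases ψ <;> simp only [nf_true, nf_false, map_sub, map_add, Bool.not_true,
      Bool.not_false, ax_true, ax_false, AddEquiv.apply_symm_apply, AddEquiv.symm_apply_apply] <;> abel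
  | plt j b φ ψ x y a b c d hx =>
    rw [otot_app, otot_app, otot_cons, otot_cons, otot_cons, otot_cons]
    cases φ <;> cases ψ <;> simp only [nf_true, nf_false, map_sub, map_add, Bool.not_true,
      Bool.not_false, ax_true, ax_false, AddEquiv.apply_symm_apply, AddEquiv.symm_apply_apply] <;> abel
  | plf j b φ ψ x y a b c d hx =>
    rw [otot_app, otot_app, otot_cons, otot_cons, otot_cons, otot_cons]
    cases φ <;> cases ψ <;> simp only [nf_true, nf_false, map_sub, map_add, Bool.not_true,
      Bool.not_false, ax_true, ax_false, AddEquiv.apply_symm_apply, AddEquiv.symm_apply_apply] <;> abel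

theorem oev_tot {T : A ≃+ A} {x : ℕ → Bool} {S : List Bd} {k : ℕ} {st st' : List (Bool × A × A)}
    {c f : List A} (h : OEv T x S k st c f st') : otot T st' = otot T st := by
  induction h with
  | nil k st => rfl
  | cons s S k st st1 st2 c1 c2 f1 f2 h1 h2 ih => rw [ih, osp_tot h1]

private theorem odg_append (x y : List (Bool × A × A)) : ODg (x ++ y) ↔ ODg x ∧ ODg y := by
  simp only [ODg, List.mem_append]
  constructor
  · exact fun h => ⟨fun p hp => h p (Or.inl hp), fun p hp => h p (Or.inr hp)⟩
  · rintro ⟨h1, h2⟩ p (hp | hp)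
    · exact h1 p hp
    · exact h2 p hp

private theorem odg_cons (φ : Bool) (a b : A) (y : List (Bool × A × A)) :
    ODg ((φ, a, b) :: y) ↔ a = b ∧ ODg y := by
  simp [ODg]

private theorem nf_zero {T : A ≃+ A} {φ : Bool} {x : A} (h : nf T φ x = 0) : x = 0 := by
  cases φ
  · simpa [nf] using h
  · simpa [nf] using h

private theorem pf_zero {T : A ≃+ A} {ρ φ : Bool} {x : A} (h : pf T ρ φ x = 0) : x = 0 := by
  cases ρ
  · simp only [pf, Bool.false_eq_true, if_false] at h
    exact nf_zero (T := T) (φ := φ) (by simpa using h)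
  · exact nf_zero (T := T) (φ := φ) (by simpa [pf] using h)

private theorem ax_inj {T : A ≃+ A} {o : Bool} {x : A} (h : ax T o x = 0) : x = 0 := by
  simpa using h

private theorem osp_back {T : A ≃+ A} {s : Bd} {b0 : Bool} {st st' : List (Bool × A × A)}
    {c f : List A} (h : OSp T s b0 st c f st') (hf : ∀ x ∈ f, x = 0) (h' : ODg st') : ODg st := by
  cases h with
  | birth j b x y c hx =>
    rw [odg_append, odg_cons] at h'
    rw [odg_append]
    exact ⟨h'.1, h'.2.2⟩
  | death j b φ x y c hx =>
    rw [odg_append] at h'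
    rw [odg_append, odg_cons]
    exact ⟨h'.1, rfl, h'.2⟩
  | split j b φ x y a d c hx =>
    rw [odg_append, odg_cons, odg_cons] at h'
    rw [odg_append, odg_cons]
    exact ⟨h'.1, h'.2.1.trans h'.2.2.1, h'.2.2.2⟩
  | merge j b φ x y a c d hx =>
    rw [odg_append, odg_cons] at h'
    rw [odg_append, odg_cons, odg_cons]
    have h1 : c - d = 0 := nf_zero (hf _ (List.mem_singleton_self _))
    have h2 : c = d := sub_eq_zero.1 h1
    exact ⟨h'.1, h'.2.1.trans h2.symm, h2, h'.2.2⟩
  | twt j b φ x y a c hx =>
    rw [odg_append, odg_cons] at h'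
    rw [odg_append, odg_cons]
    have h1 : ax T (!φ) (c - a) = 0 := by
      have := h'.2.1
      rwa [add_eq_left] at this
    exact ⟨h'.1, (sub_eq_zero.1 (ax_inj h1)).symm, h'.2.2⟩
  | twf j b φ x y a c hx =>
    rw [odg_append, odg_cons] at h'
    rw [odg_append, odg_cons]
    have h1 : ax T (!φ) (a - c) = 0 := by
      have := h'.2.1
      rwa [eq_comm, add_eq_left] at this
    exact ⟨h'.1, sub_eq_zero.1 (ax_inj h1), h'.2.2⟩
  | crt j b φ ψ x y a b c d hx =>
    rw [odg_append, odg_cons, odg_cons] at h'
    rw [odg_append, odg_cons, odg_cons]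
    exact ⟨h'.1, h'.2.2.1, sub_left_injective h'.2.1, h'.2.2.2⟩
  | crf j b φ ψ x y a b c d hx =>
    rw [odg_append, odg_cons, odg_cons] at h'
    rw [odg_append, odg_cons, odg_cons]
    exact ⟨h'.1, add_left_injective _ h'.2.2.1, h'.2.1, h'.2.2.2⟩
  | prt j b φ ψ x y a b c d hx =>
    rw [odg_append, odg_cons, odg_cons] at h'
    rw [odg_append, odg_cons, odg_cons]
    have h1 : b - a = 0 := pf_zero (hf _ (List.mem_singleton_self _))
    have h2 := h'.2.1
    rw [h1, map_zero, sub_zero, sub_zero] at h2
    exact ⟨h'.1, (sub_eq_zero.1 h1).symm, h2, h'.2.2.2⟩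
  | prf j b φ ψ x y a b c d hx =>
    rw [odg_append, odg_cons, odg_cons] at h'
    rw [odg_append, odg_cons, odg_cons]
    have h1 : b - a = 0 := pf_zero (hf _ (List.mem_singleton_self _))
    have h2 := h'.2.1
    rw [h1, map_zero, map_zero, sub_zero, sub_zero] at h2
    exact ⟨h'.1, (sub_eq_zero.1 h1).symm, h2, h'.2.2.2⟩
  | plt j b φ ψ x y a b c d hx =>
    rw [odg_append, odg_cons, odg_cons] at h'
    rw [odg_append, odg_cons, odg_cons]
    have h1 : d - c = 0 := pf_zero (hf _ (List.mem_singleton_self _))
    have h2 := h'.2.2.1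
    rw [h1, map_zero, map_zero, sub_zero, add_zero] at h2
    exact ⟨h'.1, h2, (sub_eq_zero.1 h1).symm, h'.2.2.2⟩
  | plf j b φ ψ x y a b c d hx =>
    rw [odg_append, odg_cons, odg_cons] at h'
    rw [odg_append, odg_cons, odg_cons]
    have h1 : d - c = 0 := pf_zero (hf _ (List.mem_singleton_self _))
    have h2 := h'.2.2.1
    rw [h1, map_zero, sub_zero, add_zero] at h2
    exact ⟨h'.1, h2, (sub_eq_zero.1 h1).symm, h'.2.2.2⟩

theorem oev_back {T : A ≃+ A} {x : ℕ → Bool} {S : List Bd} {k : ℕ} {st st' : List (Bool × A × A)}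
    {c f : List A} (h : OEv T x S k st c f st') (hf : ∀ y ∈ f, y = 0) (h' : ODg st') : ODg st := by
  induction h with
  | nil k st => exact h'
  | cons s S k st st1 st2 c1 c2 f1 f2 h1 h2 ih =>
    exact osp_back h1 (fun x hx => hf x (List.mem_append_left _ hx))
      (ih (fun x hx => hf x (List.mem_append_right _ hx)) h')

end Pool.Agent.H86.RT
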