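import Pool.Agent.H86.RT.ODefs
import Pool.Agent.H86.RT.FCut
import Pool.Agent.H86.RB.Flo

/-!
# [H86 RT OFLO] The flows of a colouring are in the kernel of the transposed matrix

Copy of `RB/Flo.lean` (`pt`, `rf`, `cut0`, `cut1`, `cut2`, `sp_flow`, `ev_flow`).

`opt T e vs st`: total normalized flow of the bands of piece `e`. `orf T e R g f`: the sum over the rows `r` (flag `g`,
recorded flow `f`) of `cP (!g) e r • f + T (cQ (!g) e r • f)` (the opposite flag!).
One slice: `opt e vs st = orf e (rst s k vs).1 (fg1 s (fcs st)) f + opt e (rst s k vs).2.2 st'`.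
birth, death, split, twist, cross: no row, the normalized flows of the pieces are the same (twist:
`nf (!φ) (- ax (!φ) δ) = nf φ δ`). merge of the bands of `v`, `w` (row `mg v w`, recorded `f = nf φ (c - d)`, i.e. minus the
flow of the right band): `cP (!g) e (mg v w) = [e = v] - [e = w]`, `cQ = 0`.
pass of a band of piece `v` with flow `δ = b - a`, facing `φ` through a band of piece `w` with facing `ψ`; flag `ρ`,
`z = nf φ δ`. Below: `v` has `z`. Above: the new piece `k` has `ax ρ z`, the piece `w` has gained `z - ax ρ z`.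
flag `ρ = true`: recorded `f = z`; `cP false = [e = v] - [e = w]`, `cQ false = [e = w] - [e = k]`:
`[e = v] z - [e = w] z + [e = w] T z - [e = k] T z`. flag `ρ = false`: recorded `f = T⁻¹ z`;
`cP true = [e = w] - [e = k]`, `cQ true = [e = v] - [e = w]`: `[e = w] T⁻¹ z - [e = k] T⁻¹ z + [e = v] z - [e = w] z`.
The gain of the piece `w` in `passR true` (`ρ = !ψ`): `nf ψ (δ - ax (!φ) δ) = z - ax (!ψ) z`; `passR false` (`ρ = ψ`):
`nf ψ (- (ax ψ δ - ax (!φ) (ax ψ δ))) = z - ax ψ z`; similarly for `passL` (with `φ`, `ψ` exchanged: the band `(ψ, c, d)`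
passes through `(φ, a, b)`). Each identity: four cases of the facings, `simp [nf, pf, ax_true, ax_false]`, `abel`. All
of them were checked numerically. Names: `rst_birth`, ..., `rst_passL` in `RB/Zip.lean`.
Lengths as in `RB/Flo.lean`; `(fg1 s φ).length = (rst s k vs).1.length`.
-/

set_option autoImplicit false
set_option linter.unusedSectionVars false
set_option linter.unusedSimpArgs false

namespace Pool.Agent.H86.RT

open Pool.Agent.H86.RB

variable {A : Type} [AddCommGroup A]

/-- total normalized flow of the bands of piece `e` -/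
def opt (T : A ≃+ A) (e : ℕ) (vs : List ℕ) (st : List (Bool × A × A)) : A :=
  ((vs.zip st).map (fun q => if e = q.1 then nf T q.2.1 (q.2.2.2 - q.2.2.1) else 0)).sum

/-- the column `e` of the rows with opposite flags, applied to the flows -/
def orf (T : A ≃+ A) (e : ℕ) (R : List Row) (g : List Bool) (f : List A) : A :=
  (((R.zip g).zip f).map (fun q => cP (!q.1.2) e q.1.1 • q.2 + T (cQ (!q.1.2) e q.1.1 • q.2))).sum

private theorem opt_app (T : A ≃+ A) (e : ℕ) {v1 : List ℕ} {x : List (Bool × A × A)} (v2 : List ℕ)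
    (y : List (Bool × A × A)) (h : v1.length = x.length) :
    opt T e (v1 ++ v2) (x ++ y) = opt T e v1 x + opt T e v2 y := by
  unfold opt
  rw [List.zip_append h, List.map_append, List.sum_append]

private theorem opt_cons (T : A ≃+ A) (e v : ℕ) (vs : List ℕ) (φ : Bool) (a b : A)
    (y : List (Bool × A × A)) :
    opt T e (v :: vs) ((φ, a, b) :: y) = (if e = v then nf T φ (b - a) else 0) + opt T e vs y := by
  simp [opt]

private theorem orf_app (T : A ≃+ A) (e : ℕ) {R : List Row} {g : List Bool} {f : List A}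
    (R' : List Row) (g' : List Bool) (f' : List A) (h : R.length = f.length)
    (hg : g.length = f.length) :
    orf T e (R ++ R') (g ++ g') (f ++ f') = orf T e R g f + orf T e R' g' f' := by
  unfold orf
  rw [List.zip_append (by rw [h, hg]), List.zip_append (by rw [List.length_zip]; omega),
    List.map_append, List.sum_append]

private theorem orf_nil (T : A ≃+ A) (e : ℕ) : orf T e [] [] [] = 0 := rfl

private theorem orf_one (T : A ≃+ A) (e : ℕ) (r : Row) (g : Bool) (a : A) :
    orf T e [r] [g] [a] = cP (!g) e r • a + T (cQ (!g) e r • a) := by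
  simp [orf]

private theorem nf_true (T : A ≃+ A) (x : A) : nf T true x = x := rfl

private theorem nf_false (T : A ≃+ A) (x : A) : nf T false x = -(T x) := rfl

private theorem pf_true (T : A ≃+ A) (φ : Bool) (x : A) : pf T true φ x = nf T φ x := rfl

private theorem pf_false (T : A ≃+ A) (φ : Bool) (x : A) : pf T false φ x = T.symm (nf T φ x) := rfl

private theorem ocut0 (vs : List ℕ) {x y : List (Bool × A × A)} (h : vs.length = (x ++ y).length) :
    ∃ v1 v2, vs = v1 ++ v2 ∧ v1.length = x.length ∧ v2.length = y.length := by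
  rw [List.length_append] at h
  exact ⟨vs.take x.length, vs.drop x.length, (List.take_append_drop _ vs).symm,
    by rw [List.length_take]; omega, by rw [List.length_drop]; omega⟩

private theorem ocut1 (vs : List ℕ) {x y : List (Bool × A × A)} {p : Bool × A × A}
    (h : vs.length = (x ++ p :: y).length) :
    ∃ v1 v v2, vs = v1 ++ v :: v2 ∧ v1.length = x.length ∧ v2.length = y.length := by
  obtain ⟨v1, v2, h1, h2, h3⟩ := ocut0 vs h
  cases v2 with
  | nil => simp at h3
  | cons v v2 =>
    simp only [List.length_cons] at h3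
    exact ⟨v1, v, v2, h1, h2, by omega⟩

private theorem ocut2 (vs : List ℕ) {x y : List (Bool × A × A)} {p q : Bool × A × A}
    (h : vs.length = (x ++ p :: q :: y).length) :
    ∃ v1 v w v2, vs = v1 ++ v :: w :: v2 ∧ v1.length = x.length ∧ v2.length = y.length := by
  obtain ⟨v1, v, v2, h1, h2, h3⟩ := ocut1 vs h
  cases v2 with
  | nil => simp at h3
  | cons w v2 =>
    simp only [List.length_cons] at h3
    exact ⟨v1, v, w, v2, h1, h2, by omega⟩

private theorem fcs_app (x y : List (Bool × A × A)) : fcs (x ++ y) = fcs x ++ fcs y := by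
  simp [fcs]

private theorem fcs_cons (φ : Bool) (a b : A) (x : List (Bool × A × A)) :
    fcs ((φ, a, b) :: x) = φ :: fcs x := rfl

private theorem fcs_len (x : List (Bool × A × A)) : (fcs x).length = x.length := by simp [fcs]

/-- the balance of a pass: `z` is the normalized flow of the passing band -/
private theorem bal (T : A ≃+ A) (ρ : Bool) (e v w k : ℕ) (z G : A) (y : A)
    (hy : y = if ρ then z else T.symm z) (hG : G = z - ax T ρ z) :
    (if e = v then z else 0) =
      cP (!ρ) e (.ps v k w) • y + T (cQ (!ρ) e (.ps v k w) • y) +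
        ((if e = w then G else 0) + (if e = k then ax T ρ z else 0)) := by
  subst hG hy
  cases ρ
  · simp only [Bool.not_false, cP, cQ, if_true, Bool.false_eq_true, if_false, ax_false]
    split_ifs <;> simp <;> abel
  · simp only [Bool.not_true, cP, cQ, if_true, Bool.false_eq_true, if_false, ax_true]
    split_ifs <;> simp

private theorem osp_flow {T : A ≃+ A} {s : Bd} {b0 : Bool} {st st' : List (Bool × A × A)}
    {c f : List A} (h : OSp T s b0 st c f st') (k : ℕ) (vs : List ℕ) (hl : vs.length = st.length) :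
    (rst s k vs).1.length = f.length ∧ (fg1 s (fcs st)).length = f.length ∧
      (rst s k vs).2.2.length = st'.length ∧ fcs st' = fs1 s b0 (fcs st) ∧
      ∀ e, opt T e vs st = orf T e (rst s k vs).1 (fg1 s (fcs st)) f + opt T e (rst s k vs).2.2 st' := by
  cases h with
  | birth j b x y c hx =>
    obtain ⟨v1, v2, rfl, h1, h2⟩ := ocut0 vs hl
    have hx2 : (fcs x).length = j + 1 := by rw [fcs_len, hx]
    rw [rst_birth (h1.trans hx), fcs_app, fcs_app, fcs_cons, fs1_birth hx2]
    refine ⟨rfl, rfl, by simp [h1, h2], rfl, fun e => ?_⟩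
    rw [opt_app T e _ _ h1, opt_app T e _ _ h1, opt_cons]
    have : nf T b0 (c - c) = 0 := by cases b0 <;> simp [nf]
    rw [this]
    simp only [fg1, orf_nil, ite_self]
    abel
  | death j b φ x y c hx =>
    obtain ⟨v1, v, v2, rfl, h1, h2⟩ := ocut1 vs hl
    have hx2 : (fcs x).length = j + 1 := by rw [fcs_len, hx]
    rw [rst_death (h1.trans hx), fcs_app, fcs_app, fcs_cons, fs1_death hx2]
    refine ⟨rfl, rfl, by simp [h1, h2], rfl, fun e => ?_⟩
    rw [opt_app T e _ _ h1, opt_app T e _ _ h1, opt_cons]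
    have : nf T φ (c - c) = 0 := by cases φ <;> simp [nf]
    rw [this]
    simp only [fg1, orf_nil, ite_self]
    abel
  | split j b φ x y a d c hx =>
    obtain ⟨v1, v, v2, rfl, h1, h2⟩ := ocut1 vs hl
    have hx2 : (fcs x).length = j := by rw [fcs_len, hx]
    rw [rst_split (h1.trans hx), fcs_app, fcs_app, fcs_cons, fcs_cons, fcs_cons, fs1_split hx2]
    refine ⟨rfl, rfl, by simp [h1, h2], rfl, fun e => ?_⟩
    rw [opt_app T e _ _ h1, opt_app T e _ _ h1, opt_cons, opt_cons, opt_cons]
    have : nf T φ (d - a) = nf T φ (c - a) + nf T φ (d - c) := by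
      cases φ <;> simp only [nf_true, nf_false, map_sub] <;> abel
    rw [this]
    simp only [fg1, orf_nil]
    split_ifs <;> abel
  | merge j b φ x y a c d hx =>
    obtain ⟨v1, v, w, v2, rfl, h1, h2⟩ := ocut2 vs hl
    have hx2 : (fcs x).length = j := by rw [fcs_len, hx]
    rw [rst_merge (h1.trans hx), fcs_app, fcs_app, fcs_cons, fcs_cons, fcs_cons, fs1_merge hx2]
    refine ⟨rfl, rfl, by simp [h1, h2], rfl, fun e => ?_⟩
    rw [opt_app T e _ _ h1, opt_app T e _ _ h1, opt_cons, opt_cons, opt_cons]
    have h3 : nf T φ (d - a) = nf T φ (c - a) + nf T φ (d - c) := by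
      cases φ <;> simp only [nf_true, nf_false, map_sub] <;> abel
    have h4 : nf T φ (c - d) = - nf T φ (d - c) := by
      cases φ <;> simp only [nf_true, nf_false, map_sub] <;> abel
    simp only [fg1, orf_one, cP, cQ, h3, h4]
    split_ifs <;> simp <;> abel
  | twt j b φ x y a c hx =>
    obtain ⟨v1, v, v2, rfl, h1, h2⟩ := ocut1 vs hl
    have hx2 : (fcs x).length = j + 1 := by rw [fcs_len, hx]
    rw [rst_twist, fcs_app, fcs_app, fcs_cons, fcs_cons, fs1_twist hx2]
    refine ⟨rfl, rfl, by simp [h1, h2], rfl, fun e => ?_⟩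
    rw [opt_app T e _ _ h1, opt_app T e _ _ h1, opt_cons, opt_cons]
    have : nf T (!φ) (a - (a + ax T (!φ) (c - a))) = nf T φ (c - a) := by
      cases φ <;> simp only [nf_true, nf_false, Bool.not_true, Bool.not_false, ax_true, ax_false,
        map_sub, map_add, AddEquiv.apply_symm_apply] <;> abel
    rw [this]
    simp only [fg1, orf_nil]
    abel
  | twf j b φ x y a c hx =>
    obtain ⟨v1, v, v2, rfl, h1, h2⟩ := ocut1 vs hl
    have hx2 : (fcs x).length = j + 1 := by rw [fcs_len, hx]
    rw [rst_twist, fcs_app, fcs_app, fcs_cons, fcs_cons, fs1_twist hx2]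
    refine ⟨rfl, rfl, by simp [h1, h2], rfl, fun e => ?_⟩
    rw [opt_app T e _ _ h1, opt_app T e _ _ h1, opt_cons, opt_cons]
    have : nf T (!φ) ((c + ax T (!φ) (a - c)) - c) = nf T φ (c - a) := by
      cases φ <;> simp only [nf_true, nf_false, Bool.not_true, Bool.not_false, ax_true, ax_false,
        map_sub, map_add, AddEquiv.apply_symm_apply] <;> abel
    rw [this]
    simp only [fg1, orf_nil]
    abel
  | crt j b φ ψ x y a b' c d hx =>
    obtain ⟨v1, v, w, v2, rfl, h1, h2⟩ := ocut2 vs hl
    have hx2 : (fcs x).length = j + 1 := by rw [fcs_len, hx]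
    rw [rst_cross (h1.trans hx), fcs_app, fcs_app, fcs_cons, fcs_cons, fcs_cons, fcs_cons,
      fs1_cross hx2]
    refine ⟨rfl, rfl, by simp [h1, h2], rfl, fun e => ?_⟩
    rw [opt_app T e _ _ h1, opt_app T e _ _ h1, opt_cons, opt_cons, opt_cons, opt_cons,
      sub_sub_sub_cancel_right]
    simp only [fg1, orf_nil]
    abel
  | crf j b φ ψ x y a b' c d hx =>
    obtain ⟨v1, v, w, v2, rfl, h1, h2⟩ := ocut2 vs hl
    have hx2 : (fcs x).length = j + 1 := by rw [fcs_len, hx]
    rw [rst_cross (h1.trans hx), fcs_app, fcs_app, fcs_cons, fcs_cons, fcs_cons, fcs_cons,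
      fs1_cross hx2]
    refine ⟨rfl, rfl, by simp [h1, h2], rfl, fun e => ?_⟩
    rw [opt_app T e _ _ h1, opt_app T e _ _ h1, opt_cons, opt_cons, opt_cons, opt_cons,
      add_sub_add_right_eq_sub]
    simp only [fg1, orf_nil]
    abel
  | prt j b φ ψ x y a b' c d hx =>
    obtain ⟨v1, v, w, v2, rfl, h1, h2⟩ := ocut2 vs hl
    have hx2 : (fcs x).length = j + 1 := by rw [fcs_len, hx]
    rw [rst_passR (h1.trans hx), fcs_app, fcs_app, fcs_cons, fcs_cons, fcs_cons, fcs_cons,
      fs1_passR hx2, fg1_passR hx2]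
    refine ⟨rfl, rfl, by simp [h1, h2], rfl, fun e => ?_⟩
    rw [opt_app T e _ _ h1, opt_app T e _ _ h1, opt_cons, opt_cons, opt_cons, opt_cons]
    simp only [if_true, orf_one]
    have e1 : nf T φ ((d + ax T (!ψ) (b' - d)) - (d + ax T (!ψ) (a - d))) =
        ax T (!ψ) (nf T φ (b' - a)) := by
      cases φ <;> cases ψ <;> simp only [nf_true, nf_false, Bool.not_true, Bool.not_false, ax_true,
        ax_false, map_sub, map_add, map_neg, AddEquiv.apply_symm_apply, AddEquiv.symm_apply_apply] <;>
        abel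
    have e2 : nf T ψ (d - (c - ((b' - a) - ax T (!φ) (b' - a)))) = nf T ψ (d - c) +
        (nf T φ (b' - a) - ax T (!ψ) (nf T φ (b' - a))) := by
      cases φ <;> cases ψ <;> simp only [nf_true, nf_false, Bool.not_true, Bool.not_false, ax_true,
        ax_false, map_sub, map_add, map_neg, AddEquiv.apply_symm_apply, AddEquiv.symm_apply_apply] <;>
        abel
    have e3 := bal T (!ψ) e v w k (nf T φ (b' - a)) _ (pf T (!ψ) φ (b' - a)) rfl rfl
    rw [e1, e2, e3]
    split_ifs <;> abel
  | prf j b φ ψ x y a b' c d hx =>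
    obtain ⟨v1, v, w, v2, rfl, h1, h2⟩ := ocut2 vs hl
    have hx2 : (fcs x).length = j + 1 := by rw [fcs_len, hx]
    rw [rst_passR (h1.trans hx), fcs_app, fcs_app, fcs_cons, fcs_cons, fcs_cons, fcs_cons,
      fs1_passR hx2, fg1_passR hx2]
    refine ⟨rfl, rfl, by simp [h1, h2], rfl, fun e => ?_⟩
    rw [opt_app T e _ _ h1, opt_app T e _ _ h1, opt_cons, opt_cons, opt_cons, opt_cons]
    simp only [Bool.false_eq_true, if_false, orf_one]
    have e1 : nf T φ ((c + ax T ψ (b' - c)) - (c + ax T ψ (a - c))) =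
        ax T ψ (nf T φ (b' - a)) := by
      cases φ <;> cases ψ <;> simp only [nf_true, nf_false, Bool.not_true, Bool.not_false, ax_true,
        ax_false, map_sub, map_add, map_neg, AddEquiv.apply_symm_apply, AddEquiv.symm_apply_apply] <;>
        abel
    have e2 : nf T ψ ((d - (ax T ψ (b' - a) - ax T (!φ) (ax T ψ (b' - a)))) - c) = nf T ψ (d - c) +
        (nf T φ (b' - a) - ax T ψ (nf T φ (b' - a))) := by
      cases φ <;> cases ψ <;> simp only [nf_true, nf_false, Bool.not_true, Bool.not_false, ax_true,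
        ax_false, map_sub, map_add, map_neg, AddEquiv.apply_symm_apply, AddEquiv.symm_apply_apply] <;>
        abel
    have e3 := bal T ψ e v w k (nf T φ (b' - a)) _ (pf T ψ φ (b' - a)) rfl rfl
    rw [e1, e2, e3]
    split_ifs <;> abel
  | plt j b φ ψ x y a b' c d hx =>
    obtain ⟨v1, v, w, v2, rfl, h1, h2⟩ := ocut2 vs hl
    have hx2 : (fcs x).length = j + 1 := by rw [fcs_len, hx]
    rw [rst_passL (h1.trans hx), fcs_app, fcs_app, fcs_cons, fcs_cons, fcs_cons, fcs_cons,
      fs1_passL hx2, fg1_passL hx2]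
    refine ⟨rfl, rfl, by simp [h1, h2], rfl, fun e => ?_⟩
    rw [opt_app T e _ _ h1, opt_app T e _ _ h1, opt_cons, opt_cons, opt_cons, opt_cons]
    simp only [if_true, orf_one]
    have e1 : nf T ψ ((b' + ax T φ (d - b')) - (b' + ax T φ (c - b'))) =
        ax T φ (nf T ψ (d - c)) := by
      cases φ <;> cases ψ <;> simp only [nf_true, nf_false, Bool.not_true, Bool.not_false, ax_true,
        ax_false, map_sub, map_add, map_neg, AddEquiv.apply_symm_apply, AddEquiv.symm_apply_apply] <;>
        abel
    have e2 : nf T φ (b' - (a + (ax T φ (d - c) - ax T (!ψ) (ax T φ (d - c))))) = nf T φ (b' - a) +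
        (nf T ψ (d - c) - ax T φ (nf T ψ (d - c))) := by
      cases φ <;> cases ψ <;> simp only [nf_true, nf_false, Bool.not_true, Bool.not_false, ax_true,
        ax_false, map_sub, map_add, map_neg, AddEquiv.apply_symm_apply, AddEquiv.symm_apply_apply] <;>
        abel
    have e3 := bal T φ e w v k (nf T ψ (d - c)) _ (pf T φ ψ (d - c)) rfl rfl
    rw [e1, e2, e3]
    split_ifs <;> abel
  | plf j b φ ψ x y a b' c d hx =>
    obtain ⟨v1, v, w, v2, rfl, h1, h2⟩ := ocut2 vs hl
    have hx2 : (fcs x).length = j + 1 := by rw [fcs_len, hx]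
    rw [rst_passL (h1.trans hx), fcs_app, fcs_app, fcs_cons, fcs_cons, fcs_cons, fcs_cons,
      fs1_passL hx2, fg1_passL hx2]
    refine ⟨rfl, rfl, by simp [h1, h2], rfl, fun e => ?_⟩
    rw [opt_app T e _ _ h1, opt_app T e _ _ h1, opt_cons, opt_cons, opt_cons, opt_cons]
    simp only [Bool.false_eq_true, if_false, orf_one]
    have e1 : nf T ψ ((a + ax T (!φ) (d - a)) - (a + ax T (!φ) (c - a))) =
        ax T (!φ) (nf T ψ (d - c)) := by
      cases φ <;> cases ψ <;> simp only [nf_true, nf_false, Bool.not_true, Bool.not_false, ax_true,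
        ax_false, map_sub, map_add, map_neg, AddEquiv.apply_symm_apply, AddEquiv.symm_apply_apply] <;>
        abel
    have e2 : nf T φ ((b' + ((d - c) - ax T (!ψ) (d - c))) - a) = nf T φ (b' - a) +
        (nf T ψ (d - c) - ax T (!φ) (nf T ψ (d - c))) := by
      cases φ <;> cases ψ <;> simp only [nf_true, nf_false, Bool.not_true, Bool.not_false, ax_true,
        ax_false, map_sub, map_add, map_neg, AddEquiv.apply_symm_apply, AddEquiv.symm_apply_apply] <;>
        abel
    have e3 := bal T (!φ) e w v k (nf T ψ (d - c)) _ (pf T (!φ) ψ (d - c)) rfl rfl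
    rw [e1, e2, e3]
    split_ifs <;> abel

theorem oev_flow {T : A ≃+ A} {x : ℕ → Bool} {S : List Bd} {k : ℕ} {st st' : List (Bool × A × A)}
    {c f : List A} (h : OEv T x S k st c f st') (vs : List ℕ) (hl : vs.length = st.length) :
    (rows S k vs).length = f.length ∧ (fgs S k x (fcs st)).length = f.length ∧
      (nms S k vs).length = st'.length ∧
      ∀ e, opt T e vs st = orf T e (rows S k vs) (fgs S k x (fcs st)) f + opt T e (nms S k vs) st' := by
  induction h generalizing vs with
  | nil k st =>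
    refine ⟨rfl, rfl, hl, fun e => ?_⟩
    simp [rows, nms, fgs, orf_nil]
  | cons s S k st st1 st2 c1 c2 f1 f2 h1 h2 ih =>
    obtain ⟨g1, g2, g3, g4, g5⟩ := osp_flow h1 k vs hl
    obtain ⟨l1, l2, l3, l4⟩ := ih (rst s k vs).2.2 g3
    have hr : rows (s :: S) k vs = (rst s k vs).1 ++ rows S (k + bq0 s) (rst s k vs).2.2 :=
      rows_cons s S k vs
    have hn : nms (s :: S) k vs = nms S (k + bq0 s) (rst s k vs).2.2 := nms_cons s S k vs
    rw [hr, hn, fgs, ← g4]
    refine ⟨by rw [List.length_append, List.length_append, g1, l1],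
      by rw [List.length_append, List.length_append, g2, l2], l3, fun e => ?_⟩
    rw [orf_app T e _ _ _ g1 g2, g5 e, l4 e, add_assoc]

end Pool.Agent.H86.RT
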