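import Pool.Agent.H86.RT.OBk
import Pool.Agent.H86.RT.FCut
import Pool.Agent.H86.RB.Zf

/-!
# [H86 RT OZF] Colourings without flow are colourings of the pieces

Copy of `RB/Zf.lean` (`dg`, `chs`, `chw`, `sp_dg`, `val_congr`, `chs_congr`, `ev_dg`), with `A` in place of `ZMod N`, the
states with facings, and the value `rvl T f u r` of a row with flag `f` (`Fdef.lean`) in place of `Row.val`.

A state without flow is `odg u vs φ`: the bands of the pieces `vs` with facings `φ` and colours `u v` on both edges.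
One slice (`osp_dg`): given `OSp T s b st c f st'`, `st = odg u vs φ`, `ODg st'`, all names less than `k`, there is
`w : A` (the colour of the new piece `k`, if there is one) with: for `u1 = Function.update u k w`, the rows of the slice with
the flags `fg1 s φ` have value `0`, `st' = odg u1 (rst s k vs).2.2 (fs1 s b φ)` and `c = ochs u1 s k vs`.
birth: `w = c`. split: `st'` diagonal gives `c = u v`. merge: `c = u v = u v'` (the row `mg v v'` has value `0`).
death, twist, cross: nothing happens (`ax T o 0 = 0`). passR true (flag `!ψ`): the new piece has the colour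
`d + ax T (!ψ) (a - d)` with `a = u v`, `d = u v'`; for the flag `true` (i.e. `!ψ = true`) the row value is
`T (u v - u v') + (u v' - w) = 0`; for the flag `false` it is `(u v - u v') + T (u v' - w) = 0` as
`w = u v' + T.symm (u v - u v')`. passR false (flag `ψ`): the same with `c = d = u v'` and `ax T ψ`. passL: the same
with the roles of the bands exchanged; flags `φ`, `!φ`.
The flags of the rows `rows S k vs` are `fgs S k x φ`, a list of the same length (`rows_len`, recursion), so
the conclusion of `oev_dg` is stated with `getD`.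
-/

set_option autoImplicit false
set_option linter.unusedSectionVars false
set_option linter.unusedSimpArgs false

namespace Pool.Agent.H86.RT

open Pool.Agent.H86.RB

variable {A : Type} [AddCommGroup A]

/-- the state with facings `φ` in which all bands of piece `v` have colour `u v` on both edges -/
def odg (u : ℕ → A) (vs : List ℕ) (φ : List Bool) : List (Bool × A × A) :=
  (vs.zip φ).map (fun p => (p.2, u p.1, u p.1))

/-- the choices of one slice -/
def ochs (u : ℕ → A) : Bd → ℕ → List ℕ → List A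
  | .birth _, k, _ => [u k]
  | .split j, _, vs => [u (vs.getD j 0)]
  | _, _, _ => []

/-- the choices -/
def ochw (u : ℕ → A) : List Bd → ℕ → List ℕ → List A
  | [], _, _ => []
  | s :: S, k, vs => ochs u s k vs ++ ochw u S (k + bq0 s) (rst s k vs).2.2

/-- the number of flags is the number of rows -/
theorem fgs_len (S : List Bd) (k : ℕ) (x : ℕ → Bool) (φ : List Bool) (vs : List ℕ) :
    (fgs S k x φ).length = (rows S k vs).length := by
  induction S generalizing k φ vs with
  | nil => rfl
  | cons s S ih =>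
    rw [rows_cons, fgs, List.length_append, List.length_append, ih (k + bq0 s) _ (rst s k vs).2.2,
      fg1_len s φ k vs]
    rfl

/-- the state of a list of (name, facing) -/
private def zdg (u : ℕ → A) (z : List (ℕ × Bool)) : List (Bool × A × A) :=
  z.map (fun p => (p.2, u p.1, u p.1))

private theorem zdg_app (u : ℕ → A) (x y : List (ℕ × Bool)) : zdg u (x ++ y) = zdg u x ++ zdg u y := by
  simp [zdg]

private theorem zdg_cns (u : ℕ → A) (v : ℕ) (φ : Bool) (y : List (ℕ × Bool)) :
    zdg u ((v, φ) :: y) = (φ, u v, u v) :: zdg u y := rfl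

private theorem zdg_len (u : ℕ → A) (x : List (ℕ × Bool)) : (zdg u x).length = x.length := by
  simp [zdg]

private theorem zdg_eq_app {u : ℕ → A} {z : List (ℕ × Bool)} {x y : List (Bool × A × A)}
    (h : x ++ y = zdg u z) : ∃ z1 z2, z = z1 ++ z2 ∧ x = zdg u z1 ∧ y = zdg u z2 := by
  obtain ⟨v1, v2, h1, h2, h3⟩ := List.map_eq_append_iff.1 h.symm
  exact ⟨v1, v2, h1, h2.symm, h3.symm⟩

private theorem zdg_eq_cons {u : ℕ → A} {z : List (ℕ × Bool)} {φ : Bool} {a b : A}
    {y : List (Bool × A × A)} (h : (φ, a, b) :: y = zdg u z) :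
    ∃ v z2, z = (v, φ) :: z2 ∧ a = u v ∧ b = u v ∧ y = zdg u z2 := by
  obtain ⟨⟨v, φ'⟩, v2, h1, h2, h3⟩ := List.map_eq_cons_iff.1 h.symm
  simp only [Prod.mk.injEq] at h2
  obtain ⟨rfl, h4, h5⟩ := h2
  exact ⟨v, v2, h1, h4.symm, h5.symm, h3.symm⟩

private theorem zdg_up {u : ℕ → A} {k : ℕ} {w : A} {z : List (ℕ × Bool)} (hv : ∀ p ∈ z, p.1 < k) :
    zdg (Function.update u k w) z = zdg u z := by
  unfold zdg
  apply List.map_congr_left
  intro p hp
  rw [Function.update_of_ne (hv p hp).ne]

private theorem up_lt' {u : ℕ → A} {k v : ℕ} {w : A} (h : v < k) :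
    Function.update u k w v = u v := Function.update_of_ne h.ne _ _

private theorem odg_append (x y : List (Bool × A × A)) : ODg (x ++ y) ↔ ODg x ∧ ODg y := by
  simp only [ODg, List.mem_append]
  constructor
  · exact fun h => ⟨fun p hp => h p (Or.inl hp), fun p hp => h p (Or.inr hp)⟩
  · rintro ⟨h1, h2⟩ p (hp | hp)
    · exact h1 p hp
    · exact h2 p hp

private theorem odg_cons (φ : Bool) (a b : A) (y : List (Bool × A × A)) :
    ODg ((φ, a, b) :: y) ↔ a = b ∧ ODg y := by
  simp [ODg]

/-- the rows with flags have value `0` -/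
private def rz (T : A ≃+ A) (u : ℕ → A) (R : List Row) (g : List Bool) : Prop :=
  ∀ p ∈ R.zip g, rvl T p.2 u p.1 = 0

private theorem rz_nil (T : A ≃+ A) (u : ℕ → A) : rz T u [] [] := by simp [rz]

private theorem rz_one (T : A ≃+ A) (u : ℕ → A) (r : Row) (g : Bool) (h : rvl T g u r = 0) :
    rz T u [r] [g] := by simpa [rz] using h

private theorem ps_row (T : A ≃+ A) (ρ : Bool) (u : ℕ → A) (a n b : ℕ)
    (h : u n = u b + ax T ρ (u a - u b)) : rvl T ρ u (.ps a n b) = 0 := by
  cases ρ
  · simp only [rvl, Bool.false_eq_true, if_false, h, ax_false]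
    rw [map_sub, map_add, T.apply_symm_apply]
    abel
  · simp only [rvl, if_true, h, ax_true]
    abel

private theorem osp_zdg {T : A ≃+ A} {s : Bd} {b0 : Bool} {st st' : List (Bool × A × A)}
    {c f : List A} (h : OSp T s b0 st c f st') (u : ℕ → A) (k : ℕ) (z : List (ℕ × Bool))
    (hv : ∀ p ∈ z, p.1 < k) (hst : st = zdg u z) (h' : ODg st') (hf : ∀ y ∈ f, y = 0) :
    ∃ (w : A) (z' : List (ℕ × Bool)),
      rz T (Function.update u k w) (rst s k (z.map Prod.fst)).1 (fg1 s (z.map Prod.snd)) ∧
      st' = zdg (Function.update u k w) z' ∧ z'.map Prod.fst = (rst s k (z.map Prod.fst)).2.2 ∧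
      z'.map Prod.snd = fs1 s b0 (z.map Prod.snd) ∧
      c = ochs (Function.update u k w) s k (z.map Prod.fst) := by
  cases h with
  | birth j b x y c hx =>
    obtain ⟨z1, z2, rfl, rfl, rfl⟩ := zdg_eq_app hst
    rw [zdg_len] at hx
    have hx1 : (z1.map Prod.fst).length = j + 1 := by rw [List.length_map, hx]
    have hx2 : (z1.map Prod.snd).length = j + 1 := by rw [List.length_map, hx]
    have h1 : ∀ p ∈ z1, p.1 < k := fun v h => hv v (List.mem_append_left _ h)
    have h2 : ∀ p ∈ z2, p.1 < k := fun v h => hv v (List.mem_append_right _ h)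
    rw [List.map_append, List.map_append, rst_birth hx1, fs1_birth hx2]
    refine ⟨c, z1 ++ (k, b0) :: z2, rz_nil T _, ?_, by simp, by simp, ?_⟩
    · simp only [zdg_app, zdg_cns, zdg_up h1, zdg_up h2, Function.update_self]
    · simp [ochs]
  | death j b φ x y c hx =>
    obtain ⟨z1, z2, rfl, rfl, h2⟩ := zdg_eq_app hst
    obtain ⟨v, z3, rfl, h3, h4, rfl⟩ := zdg_eq_cons h2
    rw [zdg_len] at hx
    have hx1 : (z1.map Prod.fst).length = j + 1 := by rw [List.length_map, hx]
    have hx2 : (z1.map Prod.snd).length = j + 1 := by rw [List.length_map, hx]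
    have h1 : ∀ p ∈ z1, p.1 < k := fun v h => hv v (List.mem_append_left _ h)
    have h2 : ∀ p ∈ z3, p.1 < k := fun v h => hv v (List.mem_append_right _ (List.mem_cons_of_mem _ h))
    rw [List.map_append, List.map_append, List.map_cons, List.map_cons, rst_death hx1,
      fs1_death hx2]
    refine ⟨0, z1 ++ z3, rz_nil T _, ?_, by simp, by simp, rfl⟩
    simp only [zdg_app, zdg_up h1, zdg_up h2]
  | split j b φ x y a d c hx =>
    obtain ⟨z1, z2, rfl, rfl, h2⟩ := zdg_eq_app hst
    obtain ⟨v, z3, rfl, h3, h4, rfl⟩ := zdg_eq_cons h2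
    rw [zdg_len] at hx
    rw [odg_append, odg_cons, odg_cons] at h'
    have hvk : v < k := hv (v, φ) (by simp)
    have hc : c = u v := h'.2.1.symm.trans h3
    have hx1 : (z1.map Prod.fst).length = j := by rw [List.length_map, hx]
    have hx2 : (z1.map Prod.snd).length = j := by rw [List.length_map, hx]
    have h1 : ∀ p ∈ z1, p.1 < k := fun v h => hv v (List.mem_append_left _ h)
    have h2 : ∀ p ∈ z3, p.1 < k := fun v h => hv v (List.mem_append_right _ (List.mem_cons_of_mem _ h))
    rw [List.map_append, List.map_append, List.map_cons, List.map_cons, rst_split hx1,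
      fs1_split hx2]
    refine ⟨0, z1 ++ (v, φ) :: (v, φ) :: z3, rz_nil T _, ?_, by simp, by simp, ?_⟩
    · simp only [zdg_app, zdg_cns, zdg_up h1, zdg_up h2, up_lt' hvk, hc, h3, h4]
    · simp only [ochs, getD_at hx1, up_lt' hvk, hc]
  | merge j b φ x y a c d hx =>
    obtain ⟨z1, z2, rfl, rfl, h2⟩ := zdg_eq_app hst
    obtain ⟨v, z3, rfl, h3, h4, h5⟩ := zdg_eq_cons h2
    obtain ⟨v', z4, rfl, h6, h7, rfl⟩ := zdg_eq_cons h5
    rw [zdg_len] at hx
    have hvk : v < k := hv (v, φ) (by simp)
    have hvk' : v' < k := hv (v', φ) (by simp)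
    have hx1 : (z1.map Prod.fst).length = j := by rw [List.length_map, hx]
    have hx2 : (z1.map Prod.snd).length = j := by rw [List.length_map, hx]
    have h1 : ∀ p ∈ z1, p.1 < k := fun v h => hv v (List.mem_append_left _ h)
    have h2 : ∀ p ∈ z4, p.1 < k := fun v h => hv v
      (List.mem_append_right _ (List.mem_cons_of_mem _ (List.mem_cons_of_mem _ h)))
    rw [List.map_append, List.map_append, List.map_cons, List.map_cons, List.map_cons, List.map_cons,
      rst_merge hx1, fs1_merge hx2]
    refine ⟨0, z1 ++ (v, φ) :: z4, ?_, ?_, by simp, by simp, rfl⟩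
    · apply rz_one
      simp only [rvl, up_lt' hvk, up_lt' hvk']
      rw [← h4, ← h6, sub_self]
    · simp only [zdg_app, zdg_cns, zdg_up h1, zdg_up h2, up_lt' hvk]
      rw [h3, h7, ← h6, h4]
  | twt j b φ x y a c hx =>
    obtain ⟨z1, z2, rfl, rfl, h2⟩ := zdg_eq_app hst
    obtain ⟨v, z3, rfl, h3, h4, rfl⟩ := zdg_eq_cons h2
    rw [zdg_len] at hx
    have hvk : v < k := hv (v, φ) (by simp)
    have hx2 : (z1.map Prod.snd).length = j + 1 := by rw [List.length_map, hx]
    have h1 : ∀ p ∈ z1, p.1 < k := fun v h => hv v (List.mem_append_left _ h)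
    have h2 : ∀ p ∈ z3, p.1 < k := fun v h => hv v (List.mem_append_right _ (List.mem_cons_of_mem _ h))
    rw [rst_twist, List.map_append, List.map_append, List.map_cons, List.map_cons, fs1_twist hx2]
    refine ⟨0, z1 ++ (v, !φ) :: z3, rz_nil T _, ?_, by simp, by simp, rfl⟩
    simp only [zdg_app, zdg_cns, zdg_up h1, zdg_up h2, up_lt' hvk]
    rw [h3, h4, sub_self, map_zero, add_zero]
  | twf j b φ x y a c hx =>
    obtain ⟨z1, z2, rfl, rfl, h2⟩ := zdg_eq_app hst
    obtain ⟨v, z3, rfl, h3, h4, rfl⟩ := zdg_eq_cons h2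
    rw [zdg_len] at hx
    have hvk : v < k := hv (v, φ) (by simp)
    have hx2 : (z1.map Prod.snd).length = j + 1 := by rw [List.length_map, hx]
    have h1 : ∀ p ∈ z1, p.1 < k := fun v h => hv v (List.mem_append_left _ h)
    have h2 : ∀ p ∈ z3, p.1 < k := fun v h => hv v (List.mem_append_right _ (List.mem_cons_of_mem _ h))
    rw [rst_twist, List.map_append, List.map_append, List.map_cons, List.map_cons, fs1_twist hx2]
    refine ⟨0, z1 ++ (v, !φ) :: z3, rz_nil T _, ?_, by simp, by simp, rfl⟩
    simp only [zdg_app, zdg_cns, zdg_up h1, zdg_up h2, up_lt' hvk]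
    rw [h3, h4, sub_self, map_zero, add_zero]
  | crt j b φ ψ x y a b' c d hx =>
    obtain ⟨z1, z2, rfl, rfl, h2⟩ := zdg_eq_app hst
    obtain ⟨v, z3, rfl, h3, h4, h5⟩ := zdg_eq_cons h2
    obtain ⟨v', z4, rfl, h6, h7, rfl⟩ := zdg_eq_cons h5
    rw [zdg_len] at hx
    have hvk : v < k := hv (v, φ) (by simp)
    have hvk' : v' < k := hv (v', ψ) (by simp)
    have hx1 : (z1.map Prod.fst).length = j + 1 := by rw [List.length_map, hx]
    have hx2 : (z1.map Prod.snd).length = j + 1 := by rw [List.length_map, hx]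
    have h1 : ∀ p ∈ z1, p.1 < k := fun v h => hv v (List.mem_append_left _ h)
    have h2 : ∀ p ∈ z4, p.1 < k := fun v h => hv v
      (List.mem_append_right _ (List.mem_cons_of_mem _ (List.mem_cons_of_mem _ h)))
    rw [List.map_append, List.map_append, List.map_cons, List.map_cons, List.map_cons, List.map_cons,
      rst_cross hx1, fs1_cross hx2]
    refine ⟨0, z1 ++ (v', ψ) :: (v, φ) :: z4, rz_nil T _, ?_, by simp, by simp, rfl⟩
    simp only [zdg_app, zdg_cns, zdg_up h1, zdg_up h2, up_lt' hvk, up_lt' hvk']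
    rw [h3, h4, h6, h7, sub_self, map_zero, sub_zero, sub_zero]
  | crf j b φ ψ x y a b' c d hx =>
    obtain ⟨z1, z2, rfl, rfl, h2⟩ := zdg_eq_app hst
    obtain ⟨v, z3, rfl, h3, h4, h5⟩ := zdg_eq_cons h2
    obtain ⟨v', z4, rfl, h6, h7, rfl⟩ := zdg_eq_cons h5
    rw [zdg_len] at hx
    have hvk : v < k := hv (v, φ) (by simp)
    have hvk' : v' < k := hv (v', ψ) (by simp)
    have hx1 : (z1.map Prod.fst).length = j + 1 := by rw [List.length_map, hx]
    have hx2 : (z1.map Prod.snd).length = j + 1 := by rw [List.length_map, hx]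
    have h1 : ∀ p ∈ z1, p.1 < k := fun v h => hv v (List.mem_append_left _ h)
    have h2 : ∀ p ∈ z4, p.1 < k := fun v h => hv v
      (List.mem_append_right _ (List.mem_cons_of_mem _ (List.mem_cons_of_mem _ h)))
    rw [List.map_append, List.map_append, List.map_cons, List.map_cons, List.map_cons, List.map_cons,
      rst_cross hx1, fs1_cross hx2]
    refine ⟨0, z1 ++ (v', ψ) :: (v, φ) :: z4, rz_nil T _, ?_, by simp, by simp, rfl⟩
    simp only [zdg_app, zdg_cns, zdg_up h1, zdg_up h2, up_lt' hvk, up_lt' hvk']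
    rw [h3, h4, h6, h7, sub_self, map_zero, sub_zero, add_zero]
  | prt j b φ ψ x y a b' c d hx =>
    obtain ⟨z1, z2, rfl, rfl, h2⟩ := zdg_eq_app hst
    obtain ⟨v, z3, rfl, h3, h4, h5⟩ := zdg_eq_cons h2
    obtain ⟨v', z4, rfl, h6, h7, rfl⟩ := zdg_eq_cons h5
    rw [zdg_len] at hx
    have hvk : v < k := hv (v, φ) (by simp)
    have hvk' : v' < k := hv (v', ψ) (by simp)
    have hx1 : (z1.map Prod.fst).length = j + 1 := by rw [List.length_map, hx]
    have hx2 : (z1.map Prod.snd).length = j + 1 := by rw [List.length_map, hx]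
    have h1 : ∀ p ∈ z1, p.1 < k := fun v h => hv v (List.mem_append_left _ h)
    have h2 : ∀ p ∈ z4, p.1 < k := fun v h => hv v
      (List.mem_append_right _ (List.mem_cons_of_mem _ (List.mem_cons_of_mem _ h)))
    rw [List.map_append, List.map_append, List.map_cons, List.map_cons, List.map_cons, List.map_cons,
      rst_passR hx1, fs1_passR hx2, fg1_passR hx2]
    refine ⟨u v' + ax T (!ψ) (u v - u v'), z1 ++ (v', ψ) :: (k, φ) :: z4, ?_, ?_, by simp, by simp, rfl⟩
    · apply rz_one
      simp only [if_true]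
      apply ps_row
      rw [Function.update_self, up_lt' hvk, up_lt' hvk']
    · simp only [zdg_app, zdg_cns, zdg_up h1, zdg_up h2, up_lt' hvk', Function.update_self]
      rw [h3, h4, h6, h7, sub_self, map_zero, sub_zero, sub_zero]
  | prf j b φ ψ x y a b' c d hx =>
    obtain ⟨z1, z2, rfl, rfl, h2⟩ := zdg_eq_app hst
    obtain ⟨v, z3, rfl, h3, h4, h5⟩ := zdg_eq_cons h2
    obtain ⟨v', z4, rfl, h6, h7, rfl⟩ := zdg_eq_cons h5
    rw [zdg_len] at hx
    have hvk : v < k := hv (v, φ) (by simp)
    have hvk' : v' < k := hv (v', ψ) (by simp)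
    have hx1 : (z1.map Prod.fst).length = j + 1 := by rw [List.length_map, hx]
    have hx2 : (z1.map Prod.snd).length = j + 1 := by rw [List.length_map, hx]
    have h1 : ∀ p ∈ z1, p.1 < k := fun v h => hv v (List.mem_append_left _ h)
    have h2 : ∀ p ∈ z4, p.1 < k := fun v h => hv v
      (List.mem_append_right _ (List.mem_cons_of_mem _ (List.mem_cons_of_mem _ h)))
    rw [List.map_append, List.map_append, List.map_cons, List.map_cons, List.map_cons, List.map_cons,
      rst_passR hx1, fs1_passR hx2, fg1_passR hx2]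
    refine ⟨u v' + ax T ψ (u v - u v'), z1 ++ (v', ψ) :: (k, φ) :: z4, ?_, ?_, by simp, by simp, rfl⟩
    · apply rz_one
      simp only [Bool.false_eq_true, if_false]
      apply ps_row
      rw [Function.update_self, up_lt' hvk, up_lt' hvk']
    · simp only [zdg_app, zdg_cns, zdg_up h1, zdg_up h2, up_lt' hvk', Function.update_self]
      rw [h3, h4, h6, h7, sub_self, map_zero, map_zero, sub_zero, sub_zero]
  | plt j b φ ψ x y a b' c d hx =>
    obtain ⟨z1, z2, rfl, rfl, h2⟩ := zdg_eq_app hst
    obtain ⟨v, z3, rfl, h3, h4, h5⟩ := zdg_eq_cons h2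
    obtain ⟨v', z4, rfl, h6, h7, rfl⟩ := zdg_eq_cons h5
    rw [zdg_len] at hx
    have hvk : v < k := hv (v, φ) (by simp)
    have hvk' : v' < k := hv (v', ψ) (by simp)
    have hx1 : (z1.map Prod.fst).length = j + 1 := by rw [List.length_map, hx]
    have hx2 : (z1.map Prod.snd).length = j + 1 := by rw [List.length_map, hx]
    have h1 : ∀ p ∈ z1, p.1 < k := fun v h => hv v (List.mem_append_left _ h)
    have h2 : ∀ p ∈ z4, p.1 < k := fun v h => hv v
      (List.mem_append_right _ (List.mem_cons_of_mem _ (List.mem_cons_of_mem _ h)))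
    rw [List.map_append, List.map_append, List.map_cons, List.map_cons, List.map_cons, List.map_cons,
      rst_passL hx1, fs1_passL hx2, fg1_passL hx2]
    refine ⟨u v + ax T φ (u v' - u v), z1 ++ (k, ψ) :: (v, φ) :: z4, ?_, ?_, by simp, by simp, rfl⟩
    · apply rz_one
      simp only [if_true]
      apply ps_row
      rw [Function.update_self, up_lt' hvk, up_lt' hvk']
    · simp only [zdg_app, zdg_cns, zdg_up h1, zdg_up h2, up_lt' hvk, Function.update_self]
      rw [h3, h4, h6, h7, sub_self, map_zero, map_zero, sub_zero, add_zero]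
  | plf j b φ ψ x y a b' c d hx =>
    obtain ⟨z1, z2, rfl, rfl, h2⟩ := zdg_eq_app hst
    obtain ⟨v, z3, rfl, h3, h4, h5⟩ := zdg_eq_cons h2
    obtain ⟨v', z4, rfl, h6, h7, rfl⟩ := zdg_eq_cons h5
    rw [zdg_len] at hx
    have hvk : v < k := hv (v, φ) (by simp)
    have hvk' : v' < k := hv (v', ψ) (by simp)
    have hx1 : (z1.map Prod.fst).length = j + 1 := by rw [List.length_map, hx]
    have hx2 : (z1.map Prod.snd).length = j + 1 := by rw [List.length_map, hx]
    have h1 : ∀ p ∈ z1, p.1 < k := fun v h => hv v (List.mem_append_left _ h)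
    have h2 : ∀ p ∈ z4, p.1 < k := fun v h => hv v
      (List.mem_append_right _ (List.mem_cons_of_mem _ (List.mem_cons_of_mem _ h)))
    rw [List.map_append, List.map_append, List.map_cons, List.map_cons, List.map_cons, List.map_cons,
      rst_passL hx1, fs1_passL hx2, fg1_passL hx2]
    refine ⟨u v + ax T (!φ) (u v' - u v), z1 ++ (k, ψ) :: (v, φ) :: z4, ?_, ?_, by simp, by simp, rfl⟩
    · apply rz_one
      simp only [Bool.false_eq_true, if_false]
      apply ps_row
      rw [Function.update_self, up_lt' hvk, up_lt' hvk']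
    · simp only [zdg_app, zdg_cns, zdg_up h1, zdg_up h2, up_lt' hvk, Function.update_self]
      rw [h3, h4, h6, h7, sub_self, map_zero, sub_zero, add_zero]

private theorem rvl_congr {T : A ≃+ A} {g : Bool} {u u' : ℕ → A} {K : ℕ}
    (h : ∀ v < K, u v = u' v) {r : Row} (hr : r.x < K ∧ r.y < K ∧ r.z < K) :
    rvl T g u r = rvl T g u' r := by
  cases r with
  | mg a b =>
    simp only [Row.x, Row.y, Row.z] at hr
    simp only [rvl, h a hr.1, h b hr.2.1]
  | ps a n b =>
    simp only [Row.x, Row.y, Row.z] at hr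
    simp only [rvl, h a hr.1, h n hr.2.1, h b hr.2.2]

private theorem ochs_congr {u u' : ℕ → A} (s : Bd) (k : ℕ) (vs : List ℕ) (hk : 0 < k)
    (hv : ∀ v ∈ vs, v < k) (h : ∀ v < k + bp s, u v = u' v) : ochs u s k vs = ochs u' s k vs := by
  cases s with
  | birth j =>
    have h1 : k < k + bp (.birth j) := Nat.lt_succ_self k
    simp only [ochs, h k h1]
  | split j =>
    have h1 := getD_lt hk hv j
    simp only [ochs, h _ (h1.trans_le (Nat.le_add_right _ _))]
  | death j => rfl
  | merge j => rfl
  | twist p j => rfl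
  | cross p j => rfl
  | passR p j => rfl
  | passL p j => rfl

private theorem oev_zdg {T : A ≃+ A} {x : ℕ → Bool} {S : List Bd} {k : ℕ}
    {st st' : List (Bool × A × A)}
    {c f : List A} (h : OEv T x S k st c f st') (hf : ∀ y ∈ f, y = 0) (h' : ODg st') (u : ℕ → A)
    (z : List (ℕ × Bool)) (hk : 0 < k) (hv : ∀ p ∈ z, p.1 < k) (hst : st = zdg u z) :
    ∃ u' : ℕ → A, (∀ v < k, u' v = u v) ∧ (∀ v, k + births S + passes S ≤ v → u' v = 0) ∧
      rz T u' (rows S k (z.map Prod.fst)) (fgs S k x (z.map Prod.snd)) ∧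
      c = ochw u' S k (z.map Prod.fst) := by
  induction h generalizing u z with
  | nil k st =>
    refine ⟨fun v => if v < k then u v else 0, fun v hv => by simp [hv], fun v hv => ?_, ?_, rfl⟩
    · have : ¬ v < k := by simp only [births, passes, List.countP_nil] at hv; omega
      simp [this]
    · simp [rows, fgs, rz]
  | cons s S k st st1 st2 c1 c2 f1 f2 h1 h2 ih =>
    have hf1 : ∀ x ∈ f1, x = 0 := fun x hx => hf x (List.mem_append_left _ hx)
    have hf2 : ∀ x ∈ f2, x = 0 := fun x hx => hf x (List.mem_append_right _ hx)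
    have hb : ODg st1 := oev_back h2 hf2 h'
    obtain ⟨w, z', g1, g2, g3, g4, g5⟩ := osp_zdg h1 u k z hv hst hb hf1
    have hv0 : ∀ v ∈ z.map Prod.fst, v < k := by
      intro v hv'
      obtain ⟨p, hp, rfl⟩ := List.mem_map.1 hv'
      exact hv p hp
    have hv1 := rst_lt s k (z.map Prod.fst) hk hv0
    rw [rst_cnt] at hv1
    have hv2 : ∀ p ∈ z', p.1 < k + bq0 s := by
      intro p hp
      refine hv1 p.1 ?_
      rw [← g3]
      exact List.mem_map_of_mem hp
    obtain ⟨u', l1, l2, l3, l4⟩ := ih hf2 h' (Function.update u k w) z' (by omega) hv2 g2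
    have hrow := rst_row_lt s k (z.map Prod.fst) hk hv0
    have hbq : bq0 s = bp s := rfl
    refine ⟨u', fun v hvk => ?_, fun v hv' => ?_, ?_, ?_⟩
    · rw [l1 v (by omega), up_lt' hvk]
    · apply l2
      rw [births_cons s S, passes_cons s S] at hv'
      unfold bq0
      omega
    · rw [rows_cons, fgs]
      intro p hp
      rw [List.zip_append (fg1_len s _ k _).symm, List.mem_append] at hp
      rcases hp with hp | hp
      · have h6 := hrow p.1 (List.of_mem_zip hp).1
        rw [rst_cnt] at h6
        rw [rvl_congr l1 h6]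
        exact g1 p hp
      · rw [g3, g4] at l3
        exact l3 p hp
    · rw [ochw, g5, l4, g3, ochs_congr s k (z.map Prod.fst) hk hv0 l1]

/-- a colouring without flow whose initial state is given by colours of the pieces -/
theorem oev_dg {T : A ≃+ A} {x : ℕ → Bool} {S : List Bd} {k : ℕ} {st st' : List (Bool × A × A)}
    {c f : List A} (h : OEv T x S k st c f st') (hf : ∀ y ∈ f, y = 0) (h' : ODg st') (u : ℕ → A)
    (vs : List ℕ) (φ : List Bool) (hk : 0 < k) (hv : ∀ v ∈ vs, v < k) (hl : vs.length = φ.length)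
    (hst : st = odg u vs φ) :
    ∃ u' : ℕ → A, (∀ v < k, u' v = u v) ∧ (∀ v, k + births S + passes S ≤ v → u' v = 0) ∧
      (∀ i < (rows S k vs).length,
        rvl T ((fgs S k x φ).getD i true) u' ((rows S k vs).getD i (.mg 0 0)) = 0) ∧
      c = ochw u' S k vs := by
  obtain ⟨u', h1, h2, h3, h4⟩ := oev_zdg h hf h' u (vs.zip φ) hk
    (fun p hp => hv p.1 (List.of_mem_zip hp).1) hst
  have e1 : (vs.zip φ).map Prod.fst = vs := List.map_fst_zip (by omega)
  have e2 : (vs.zip φ).map Prod.snd = φ := List.map_snd_zip (by omega)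
  rw [e1] at h3 h4
  rw [e2] at h3
  refine ⟨u', h1, h2, fun i hi => ?_, h4⟩
  have hi2 : i < (fgs S k x φ).length := by rw [fgs_len S k x φ vs]; exact hi
  rw [List.getD_eq_getElem _ _ hi, List.getD_eq_getElem _ _ hi2]
  refine h3 (((rows S k vs)[i]), ((fgs S k x φ)[i])) ?_
  have hi3 : i < ((rows S k vs).zip (fgs S k x φ)).length := by
    rw [List.length_zip]; omega
  have : ((rows S k vs).zip (fgs S k x φ))[i] = (((rows S k vs)[i]), ((fgs S k x φ)[i])) := by
    rw [List.getElem_zip]
  rw [← this]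
  exact List.getElem_mem hi3

end Pool.Agent.H86.RT
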