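import Pool.Agent.H86.RT.OMem
import Pool.Agent.H86.RT.OSub
import Pool.Agent.H86.RT.OZf
import Pool.Agent.H86.RT.OFlo
import Pool.Agent.H86.RB.Cnt

/-!
# [H86 RT OCNT] The number of colourings is at most the product of two kernels

Copy of `RB/Cnt.lean` (`cnt`), with `obrun`, `OEv`, `oev_of_mem`, `oev_flow`, `oev_sub`, `oev_tot`, `oev_dg`.

Let `R = rows S 1 [0]`, `F i` the flag of the row `i`. (row) For `u 0 = 0` and names of the row `r` at most `m`:
`∑ j : Fin m, cP f (j + 1) r • u (j + 1) + T (∑ j : Fin m, cQ f (j + 1) r • u (j + 1)) = rvl T f u r`: as `row_sum`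
(`ind_sum` with `zsmul`: `∑ j, (if (j : ℕ) + 1 = a then (1 : ℤ) else 0) • u (j + 1) = u a`); for the flag `true` the
left side is `(u b - u n) + T (u a - u b)`, for `false` `(u a - u b) + T (u b - u n)`.
(flows) for `t ∈ obrun`, the vector `i ↦ t.2.getD i 0` is in the kernel of the transposed matrices with opposite
flags: `oev_flow` with `vs = [0]`, `e = j + 1`: `opt e [0] st = 0` on both sides (`nms_dsk`), so `orf .. = 0`; the sum over
the list is a sum over `Fin m` (as `rf_sum`), and `∑ i, P i j • f i + T (∑ i, Q i j • f i)` by `map_sum`.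
(fibres) for two colourings with the same flows the difference has flows `0` (`oev_sub`), its initial state is
`[(true, 0, 0)]` again, the final state is `[(true, a, b)]` (`fss_one` not needed: length `1`) with
total flow `otot = 0`, so `a = b` (`nf T o y = 0 ↔ y = 0`), so it is `ODg`; by `oev_dg` (`u = 0`, `vs = [0]`, `φ = [true]`, `k = 1`) it
is given by `u'` in the kernel of `P + Q T`; the choices are `ochw u' S 1 [0]`, so the fibre injects into the kernel.
Then `Finset.card_le_mul_card_image` as in `cnt`.
-/

set_option autoImplicit false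
set_option linter.unusedSectionVars false
set_option linter.unusedSimpArgs false

namespace Pool.Agent.H86.RT

open Pool.Agent.H86.RB

variable {A : Type} [AddCommGroup A] [Fintype A] [DecidableEq A]

private theorem zind_sum {m : ℕ} (u : ℕ → A) (h0 : u 0 = 0) (a : ℕ) (ha : a ≤ m) :
    ∑ j : Fin m, (if (j : ℕ) + 1 = a then (1 : ℤ) else 0) • u (j + 1) = u a := by
  rcases Nat.eq_zero_or_pos a with rfl | hp
  · rw [h0]
    apply Finset.sum_eq_zero
    intro j _
    simp
  · rw [Finset.sum_eq_single (⟨a - 1, by omega⟩ : Fin m)]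
    · have : a - 1 + 1 = a := by omega
      simp [this]
    · intro b _ hb
      rw [if_neg, zero_smul]
      intro h
      apply hb
      apply Fin.ext
      simp only
      omega
    · intro h
      exact absurd (Finset.mem_univ _) h

private theorem zdif_sum {m : ℕ} (u : ℕ → A) (h0 : u 0 = 0) (a b : ℕ) (ha : a ≤ m) (hb : b ≤ m) :
    ∑ j : Fin m, ((if (j : ℕ) + 1 = a then (1 : ℤ) else 0) - (if (j : ℕ) + 1 = b then 1 else 0)) •
      u (j + 1) = u a - u b := by
  simp only [sub_smul, Finset.sum_sub_distrib]
  rw [zind_sum u h0 a ha, zind_sum u h0 b hb]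

private theorem row_rvl {m : ℕ} (T : A ≃+ A) (g : Bool) (u : ℕ → A) (h0 : u 0 = 0) (r : Row)
    (hr : r.x ≤ m ∧ r.y ≤ m ∧ r.z ≤ m) :
    ∑ j : Fin m, cP g ((j : ℕ) + 1) r • u (j + 1) +
      T (∑ j : Fin m, cQ g ((j : ℕ) + 1) r • u (j + 1)) = rvl T g u r := by
  cases r with
  | mg a b =>
    simp only [Row.x, Row.y, Row.z] at hr
    simp only [cP, cQ, rvl, zero_smul, Finset.sum_const_zero, map_zero, add_zero]
    exact zdif_sum u h0 a b hr.1 hr.2.1
  | ps a n b =>
    simp only [Row.x, Row.y, Row.z] at hr
    cases g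
    · simp only [cP, cQ, rvl, Bool.false_eq_true, if_false]
      rw [zdif_sum u h0 a b hr.1 hr.2.2, zdif_sum u h0 b n hr.2.2 hr.2.1]
    · simp only [cP, cQ, rvl, if_true]
      rw [zdif_sum u h0 b n hr.2.2 hr.2.1, zdif_sum u h0 a b hr.1 hr.2.2, add_comm]

private theorem orf_cons (T : A ≃+ A) (e : ℕ) (r : Row) (R : List Row) (g0 : Bool) (g : List Bool)
    (a : A) (f : List A) :
    orf T e (r :: R) (g0 :: g) (a :: f) =
      (cP (!g0) e r • a + T (cQ (!g0) e r • a)) + orf T e R g f := by
  simp [orf]

private theorem orf_range (T : A ≃+ A) (e : ℕ) (R : List Row) (g : List Bool) (f : List A)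
    (h : R.length = f.length) (hg : g.length = f.length) :
    orf T e R g f = ∑ i ∈ Finset.range R.length,
      (cP (!(g.getD i true)) e (R.getD i (.mg 0 0)) • f.getD i 0 +
        T (cQ (!(g.getD i true)) e (R.getD i (.mg 0 0)) • f.getD i 0)) := by
  induction R generalizing f g with
  | nil =>
    cases f with
    | nil => simp [orf]
    | cons a f => simp at h
  | cons r R ih =>
    cases f with
    | nil => simp at h
    | cons a f =>
      cases g with
      | nil => simp at hg
      | cons g0 g =>
        rw [orf_cons, ih g f (by simpa using h) (by simpa using hg), List.length_cons,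
          Finset.sum_range_succ', add_comm]
        simp

private theorem orf_sum {m : ℕ} (T : A ≃+ A) (e : ℕ) (R : List Row) (g : List Bool) (f : List A)
    (hR : R.length = m) (h : R.length = f.length) (hg : g.length = f.length) :
    ∑ i : Fin m, cP (!(g.getD i true)) e (R.getD i (.mg 0 0)) • f.getD i 0 +
      T (∑ i : Fin m, cQ (!(g.getD i true)) e (R.getD i (.mg 0 0)) • f.getD i 0) =
      orf T e R g f := by
  rw [orf_range T e R g f h hg, map_sum, ← Finset.sum_add_distrib, hR]
  exact (Finset.sum_range (fun i => (cP (!(g.getD i true)) e (R.getD i (.mg 0 0)) • f.getD i 0 +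
        T (cQ (!(g.getD i true)) e (R.getD i (.mg 0 0)) • f.getD i 0)))).symm

/-- extension of a vector by zero to all names -/
private def oext {m : ℕ} (w : Fin m → A) (v : ℕ) : A :=
  if h : v - 1 < m ∧ v ≠ 0 then w ⟨v - 1, h.1⟩ else 0

private theorem osb_len {x x' : List (Bool × A × A)} (h : x.length = x'.length) :
    (osb x x').length = x.length := by
  simp [osb, h]

private theorem nf_zero {T : A ≃+ A} {φ : Bool} {x : A} (h : nf T φ x = 0) : x = 0 := by
  cases φ
  · simpa [nf] using h
  · simpa [nf] using h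

theorem ocnt (T : A ≃+ A) (x : ℕ → Bool) (S : List Bd) (h : bty S 0 = some 0)
    (hb : births S = merges S) (hx : okk S 1 x [true]) {m : ℕ}
    (hm : (rows S 1 [0]).length = m) (F : ℕ → Bool)
    (hF : ∀ i, F i = (fgs S 1 x [true]).getD i true) :
    Multiset.card (obrun T x S 1 [(true, (0 : A), (0 : A))]) ≤
      (Kr T (MP (rows S 1 [0]) F m) (MQ (rows S 1 [0]) F m)).card *
        (Kr T (MP (rows S 1 [0]) (fun i => !(F i)) m).transpose
          (MQ (rows S 1 [0]) (fun i => !(F i)) m).transpose).card := by
  classical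
  have hbm : births S + passes S = m := by rw [← hm, rows_len, hb]
  have hRlt := rows_lt S 1 [0] Nat.one_pos (by simp)
  set R := rows S 1 [0] with hR
  set st0 : List (Bool × A × A) := [(true, (0 : A), (0 : A))] with hst0
  have hnod : (obrun T x S 1 st0).Nodup := Multiset.Nodup.of_map _ (obrun_nodup T x S 1 st0)
  have hfc : fcs st0 = [true] := rfl
  -- the facts about one colouring
  have key : ∀ t ∈ obrun T x S 1 st0, ∃ st', OEv T x S 1 st0 t.1 t.2 st' ∧ st'.length = 1 ∧
      t.2.length = m := by
    intro t ht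
    obtain ⟨st', h1, h2⟩ := oev_of_mem T x S 0 0 1 h st0 rfl (by rw [hfc]; exact hx) t ht
    obtain ⟨h3, _, _, _⟩ := oev_flow h1 [0] rfl
    exact ⟨st', h1, h2, by rw [← h3, ← hm]⟩
  rw [← Multiset.toFinset_card_of_nodup hnod]
  set X := (obrun T x S 1 st0).toFinset with hX
  set G : List A × List A → (Fin m → A) := fun t i => t.2.getD i 0 with hG
  have himg : X.image G ⊆ Kr T (MP R (fun i => !(F i)) m).transpose
      (MQ R (fun i => !(F i)) m).transpose := by
    intro w hw
    obtain ⟨t, ht, rfl⟩ := Finset.mem_image.1 hw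
    obtain ⟨st', h1, h2, h3⟩ := key t (Multiset.mem_toFinset.1 ht)
    obtain ⟨g1, g2, g3, g4⟩ := oev_flow h1 [0] rfl
    simp only [Kr, Finset.mem_filter, Finset.mem_univ, true_and]
    intro j
    have h4 := g4 ((j : ℕ) + 1)
    rw [nms_dsk S 1 h] at h4
    obtain ⟨p, rfl⟩ := List.length_eq_one_iff.1 h2
    have e0 : ∀ q : Bool × A × A, opt T ((j : ℕ) + 1) [0] [q] = 0 := by
      intro q
      simp [opt]
    rw [hst0, e0, e0, add_zero] at h4
    have h5 := orf_sum (m := m) T ((j : ℕ) + 1) R (fgs S 1 x (fcs st0)) t.2 hm (by rw [h3, hm]) g2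
    rw [hst0, ← h4] at h5
    have e1 : fcs [(true, (0 : A), (0 : A))] = [true] := rfl
    rw [e1] at h5
    simpa only [Matrix.transpose_apply, MP, MQ, hG, hF] using h5
  have hfib : ∀ a ∈ X.image G, (X.filter (fun y => G y = a)).card ≤
      (Kr T (MP R F m) (MQ R F m)).card := by
    intro a ha
    obtain ⟨t0, ht0, rfl⟩ := Finset.mem_image.1 ha
    obtain ⟨s0, h1, h2, h3⟩ := key t0 (Multiset.mem_toFinset.1 ht0)
    have hsame : ∀ y ∈ X.filter (fun y => G y = G t0), y.2 = t0.2 := by
      intro y hy
      rw [Finset.mem_filter] at hy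
      obtain ⟨_, _, _, h6⟩ := key y (Multiset.mem_toFinset.1 hy.1)
      exact list_getD_inj h6 h3 fun i => congrFun hy.2 i
    have hex : ∀ y ∈ X.filter (fun y => G y = G t0), y.1.length = t0.1.length ∧
        ∃ w ∈ Kr T (MP R F m) (MQ R F m), sb y.1 t0.1 = ochw (oext w) S 1 [0] := by
      intro y hy
      have h4 := hsame y hy
      rw [Finset.mem_filter] at hy
      obtain ⟨st', h5, h6, h7⟩ := key y (Multiset.mem_toFinset.1 hy.1)
      obtain ⟨l1, l2, l3, l4⟩ := oev_sub h5 h1 rfl
      refine ⟨l3, ?_⟩
      rw [h4] at l1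
      have hz : ∀ y ∈ sb t0.2 t0.2, y = 0 := by
        intro y hy
        unfold sb at hy
        rw [List.mem_iff_getElem] at hy
        obtain ⟨i, hi, rfl⟩ := hy
        simp
      have hst : osb st0 st0 = [(true, (0 : A), (0 : A))] := by
        simp [osb, hst0]
      rw [hst] at l1
      have htot := oev_tot l1
      have hlen : (osb st' s0).length = 1 := by rw [osb_len (by rw [h6, h2]), h6]
      obtain ⟨⟨φ, p1, p2⟩, hp⟩ := List.length_eq_one_iff.1 hlen
      have hdg : ODg (osb st' s0) := by
        rw [hp] at htot ⊢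
        intro q hq
        rw [List.mem_singleton] at hq
        subst hq
        simp only [otot, List.map_cons, List.map_nil, List.sum_cons, List.sum_nil, sub_self,
          add_zero] at htot
        have : nf T φ (p2 - p1) = 0 := by
          rw [htot]
          simp [nf]
        exact (sub_eq_zero.1 (nf_zero this)).symm
      obtain ⟨u, u1, u2, u3, u4⟩ := oev_dg l1 hz hdg (fun _ => 0) [0] [true] Nat.one_pos (by simp) rfl
        (by simp [odg])
      have hu0 : u 0 = 0 := u1 0 Nat.one_pos
      refine ⟨fun i => u (i + 1), ?_, ?_⟩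
      · simp only [Kr, Finset.mem_filter, Finset.mem_univ, true_and]
        intro i
        have hi : (i : ℕ) < R.length := by rw [hm]; exact i.2
        have hmem : R.getD i (.mg 0 0) ∈ R := by
          rw [List.getD_eq_getElem _ _ hi]
          exact List.getElem_mem hi
        have hlt := hRlt _ hmem
        have h8 := row_rvl (m := m) T (F i) u hu0 (R.getD i (.mg 0 0)) (by omega)
        simp only [MP, MQ]
        rw [h8, hF i]
        exact u3 i hi
      · have : oext (fun i : Fin m => u (i + 1)) = u := by
          funext v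
          unfold oext
          split_ifs with hv
          · simp only
            rw [Nat.sub_add_cancel (by omega)]
          · by_cases hv0 : v = 0
            · rw [hv0, hu0]
            · exact (u2 v (by omega)).symm
        rw [this]
        exact u4
    choose! H hH1 hH2 using fun y hy => (hex y hy).2
    refine Finset.card_le_card_of_injOn H (fun y hy => hH1 y hy) ?_
    intro y hy y' hy' hyy
    have hy1 : y ∈ X.filter (fun y => G y = G t0) := hy
    have hy2 : y' ∈ X.filter (fun y => G y = G t0) := hy'
    have e1 := hH2 y hy1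
    have e2 := hH2 y' hy2
    rw [hyy, ← e2] at e1
    have e3 := sb_inj (hex y hy1).1 (hex y' hy2).1 e1
    exact Prod.ext e3 ((hsame y hy1).trans (hsame y' hy2).symm)
  calc X.card ≤ (Kr T (MP R F m) (MQ R F m)).card * (X.image G).card :=
        Finset.card_le_mul_card_image X _ hfib
    _ ≤ _ := Nat.mul_le_mul_left _ (Finset.card_le_card himg)

end Pool.Agent.H86.RT
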