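import Pool.Agent.H86.RT.ODefs
import Pool.Agent.H86.RT.Aru
import Pool.Agent.H86.RB.Flat

/-!
# [H86 RT OFLAT] Colourings with given orientation are computed band by band

Copy of `RB/Flat.lean` (`run_bd`, `card_brun`), for Alexander colourings with given orientations.

PROOF. `ofl (x ++ y) = ofl x ++ ofl y`, `ofl ((φ, a, b) :: y) = (a, !φ) :: (b, φ) :: ofl y`,
`(ofl x).length = 2 * x.length`.
(append) `arun T (v ++ w) (os1 ++ os2) l = (arun T v os1 l).bind (arun T w os2)` if `os1.length` is the number of cups
of `v` (induction on `v`).
(one slice) for `bt s n = some m`, `st.length = n + 1`, `ok1 s (fcs st)`: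
`arun T (up (bd s)) (os1 s b (fcs st)) (ofl st) = (obst T s b st).map (fun t => ofl t.2.2)` and for all `t` in
`obst T s b st`: `t.2.2.length = m + 1` and `fcs t.2.2 = fs1 s b (fcs st)`. By cases on `s`, cutting `st` at the slice
(as `split0`, `split1`, `split2` in `RB/Flat.lean`) and moving the word to the right of `ofl x` (`sstp_shift`; a lemma
`arun` of a word moved to the right, as `srun_shift`).
birth: the cup is at `2 (j + 1)` with left orientation `!b`: edges `(c, !b), (c, b)` (`Bool.not_not`), band `(b, c, c)`.
split: the cup is in the middle of the band `(φ, a, d)`, left orientation `φ` (`os1` is `(fcs st).getD j true = φ`):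
edges `(a, !φ), (c, φ), (c, !φ), (d, φ)`: bands `(φ, a, c), (φ, c, d)`.
death: `(a, !φ), (b, φ)` capped iff `a = b`. merge: `(a, !φ), (b, φ), (c, !φ), (d, φ)` (same facing by `ok1`), cap in
the middle iff `b = c` (as pairs in `A × Bool`: `(c, !φ) = (b, !φ)`).
twist, cross, passR, passL: the crossings give the formulas in `obst`. With `pos`: `(a, o), (b, o')` becomes
`(a + ax T o (b - a), o'), (a, o)`; with `neg`: `(b, o'), (b + ax T (!o') (a - b), o)`. The identities follow from
`map_sub`, `map_add`, `ax_not`, `ax_not'` (`ax T (!o) (ax T o x) = x`), `Bool.not_not` and `abel`; e.g. for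
`cross true` the colour `c` passes under `b` (orientation `φ`) and then under `a` (orientation `!φ`):
`a + q' (b + q (c - b) - a) = c - ((b - a) - q' (b - a))` for `q = ax T φ`, `q' = ax T (!φ)`, `q' q = 1`. All the
formulas were checked numerically.
Then induction on `S` (`bdw_cons`, `up_append`, `Multiset.card_bind`), as `card_brun` in `RB/Flat.lean`.
-/

set_option autoImplicit false
set_option linter.unusedSectionVars false
set_option linter.unusedSimpArgs false

namespace Pool.Agent.H86.RT

open Pool.Agent.H86.RB

variable {A : Type} [AddCommGroup A] [Fintype A] [DecidableEq A]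

private theorem ofl_cons (φ : Bool) (a b : A) (st : List (Bool × A × A)) :
    ofl ((φ, a, b) :: st) = (a, !φ) :: (b, φ) :: ofl st := rfl

private theorem ofl_app (x y : List (Bool × A × A)) : ofl (x ++ y) = ofl x ++ ofl y := by
  simp [ofl]

private theorem ofl_len (x : List (Bool × A × A)) : (ofl x).length = 2 * x.length := by
  induction x with
  | nil => rfl
  | cons p x ih =>
    obtain ⟨φ, a, b⟩ := p
    rw [ofl_cons, List.length_cons, List.length_cons, ih, List.length_cons]
    omega

private theorem split0 (st : List (Bool × A × A)) (i : ℕ) (h : i ≤ st.length) :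
    ∃ x y, st = x ++ y ∧ x.length = i :=
  ⟨st.take i, st.drop i, (List.take_append_drop i st).symm, by rw [List.length_take]; omega⟩

private theorem split1 (st : List (Bool × A × A)) (i : ℕ) (h : i + 1 ≤ st.length) :
    ∃ x φ a b y, st = x ++ (φ, a, b) :: y ∧ x.length = i := by
  obtain ⟨x, y, rfl, hx⟩ := split0 st i (by omega)
  rw [List.length_append] at h
  match y, h with
  | (φ, a, b) :: y, _ => exact ⟨x, φ, a, b, y, rfl, hx⟩
  | [], h => simp at h; omega

private theorem split2 (st : List (Bool × A × A)) (i : ℕ) (h : i + 2 ≤ st.length) :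
    ∃ x φ a b ψ c d y, st = x ++ (φ, a, b) :: (ψ, c, d) :: y ∧ x.length = i := by
  obtain ⟨x, y, rfl, hx⟩ := split0 st i (by omega)
  rw [List.length_append] at h
  match y, h with
  | (φ, a, b) :: (ψ, c, d) :: y, _ => exact ⟨x, φ, a, b, ψ, c, d, y, rfl, hx⟩
  | [_], h => simp at h; omega
  | [], h => simp at h; omega

private theorem fcs_app (x y : List (Bool × A × A)) : fcs (x ++ y) = fcs x ++ fcs y := by
  simp [fcs]

private theorem fcs_cons (φ : Bool) (a b : A) (x : List (Bool × A × A)) :
    fcs ((φ, a, b) :: x) = φ :: fcs x := rfl

private theorem fcs_len (x : List (Bool × A × A)) : (fcs x).length = x.length := by simp [fcs]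

private theorem getD0 {x y : List Bool} {a : Bool} {i : ℕ} (h : x.length = i) :
    (x ++ a :: y).getD i true = a := by
  subst h
  simp [List.getD_eq_getElem?_getD]

private theorem getD1 {x y : List Bool} {a b : Bool} {i : ℕ} (h : x.length = i) :
    (x ++ a :: b :: y).getD (i + 1) true = b := by
  subst h
  simp [List.getD_eq_getElem?_getD]

private theorem take1 {x y : List Bool} {a : Bool} {i : ℕ} (h : x.length = i) :
    (x ++ a :: y).take (i + 1) = x ++ [a] := by
  subst h
  simp [List.take_append]

private theorem drop1 {x y : List Bool} {a : Bool} {i : ℕ} (h : x.length = i) :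
    (x ++ a :: y).drop (i + 1) = y := by
  subst h
  simp [List.drop_append]

private theorem drop2 {x y : List Bool} {a b : Bool} {i : ℕ} (h : x.length = i) :
    (x ++ a :: b :: y).drop (i + 2) = y := by
  subst h
  simp [List.drop_append]

/-- the continuation over one slice has the right length and facings -/
theorem obst_len (T : A ≃+ A) (s : Bd) (n m : ℕ) (h : bt s n = some m) (b : Bool)
    (st : List (Bool × A × A)) (hst : st.length = n + 1) :
    ∀ t ∈ obst T s b st, t.2.2.length = m + 1 ∧ fcs t.2.2 = fs1 s b (fcs st) := by
  cases s with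
  | birth j =>
    simp only [bt] at h
    split_ifs at h with h1
    simp only [Option.some.injEq] at h
    subst h
    obtain ⟨x, y, rfl, hx⟩ := split0 st (j + 1) (by omega)
    rw [List.length_append] at hst
    have hx' : (fcs x).length = j + 1 := by rw [fcs_len, hx]
    simp only [obst, List.take_left' hx, List.drop_left' hx]
    intro t ht
    obtain ⟨c, _, rfl⟩ := Multiset.mem_map.1 ht
    simp only [List.length_append, List.length_cons, fcs_app, fcs_cons, fs1, List.take_left' hx',
      List.drop_left' hx', and_true]
    omega
  | death j =>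
    simp only [bt] at h
    split_ifs at h with h1
    simp only [Option.some.injEq] at h
    subst h
    obtain ⟨x, φ, a, b', y, rfl, hx⟩ := split1 st (j + 1) (by omega)
    simp only [List.length_append, List.length_cons] at hst
    have hx' : (fcs x).length = j + 1 := by rw [fcs_len, hx]
    simp only [obst, List.take_left' hx, List.drop_left' hx]
    have hd : (fcs x ++ φ :: fcs y).drop (j + 2) = fcs y := drop1 hx'
    split_ifs with hab
    · simp only [Multiset.mem_singleton, forall_eq, List.length_append, fcs_app, fcs_cons, fs1,
        List.take_left' hx', hd, and_true]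
      omega
    · simp
  | split j =>
    simp only [bt] at h
    split_ifs at h with h1
    simp only [Option.some.injEq] at h
    subst h
    obtain ⟨x, φ, a, b', y, rfl, hx⟩ := split1 st j (by omega)
    simp only [List.length_append, List.length_cons] at hst
    have hx' : (fcs x).length = j := by rw [fcs_len, hx]
    simp only [obst, List.take_left' hx, List.drop_left' hx]
    intro t ht
    obtain ⟨c, _, rfl⟩ := Multiset.mem_map.1 ht
    simp only [List.length_append, List.length_cons, fcs_app, fcs_cons, fs1, take1 hx',
      List.drop_left' hx', List.append_assoc, List.cons_append, List.nil_append, and_true]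
    omega
  | merge j =>
    simp only [bt] at h
    split_ifs at h with h1
    simp only [Option.some.injEq] at h
    subst h
    obtain ⟨x, φ, a, b', ψ, c, d, y, rfl, hx⟩ := split2 st j (by omega)
    simp only [List.length_append, List.length_cons] at hst
    have hx' : (fcs x).length = j := by rw [fcs_len, hx]
    simp only [obst, List.take_left' hx, List.drop_left' hx]
    split_ifs with hab
    · simp only [Multiset.mem_singleton, forall_eq, List.length_append, List.length_cons, fcs_app,
        fcs_cons, fs1, take1 hx', drop2 hx', List.append_assoc, List.cons_append, List.nil_append,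
        and_true]
      omega
    · simp
  | twist p j =>
    simp only [bt] at h
    split_ifs at h with h1
    simp only [Option.some.injEq] at h
    subst h
    obtain ⟨x, φ, a, b', y, rfl, hx⟩ := split1 st (j + 1) (by omega)
    simp only [List.length_append, List.length_cons] at hst
    have hx' : (fcs x).length = j + 1 := by rw [fcs_len, hx]
    have hd : (fcs x ++ φ :: fcs y).drop (j + 2) = fcs y := drop1 hx'
    simp only [obst, List.take_left' hx, List.drop_left' hx, Multiset.mem_singleton, forall_eq,
      List.length_append, List.length_cons, fcs_app, fcs_cons, fs1, List.take_left' hx', hd,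
      getD0 hx']
    cases p
    · refine ⟨by omega, ?_⟩
      simp [fcs]
    · refine ⟨by omega, ?_⟩
      simp [fcs]
  | cross p j =>
    simp only [bt] at h
    split_ifs at h with h1
    simp only [Option.some.injEq] at h
    subst h
    obtain ⟨x, φ, a, b', ψ, c, d, y, rfl, hx⟩ := split2 st (j + 1) (by omega)
    simp only [List.length_append, List.length_cons] at hst
    have hx' : (fcs x).length = j + 1 := by rw [fcs_len, hx]
    have hd : (fcs x ++ φ :: ψ :: fcs y).drop (j + 3) = fcs y := drop2 hx'
    have hg : (fcs x ++ φ :: ψ :: fcs y).getD (j + 2) true = ψ := getD1 hx'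
    simp only [obst, List.take_left' hx, List.drop_left' hx, Multiset.mem_singleton, forall_eq,
      fcs_app, fcs_cons, fs1, List.take_left' hx', hd, getD0 hx', hg]
    cases p
    · simp only [Bool.false_eq_true, if_false, List.length_append, List.length_cons, fcs_cons,
        and_true]
      omega
    · simp only [if_true, List.length_append, List.length_cons, fcs_cons, and_true]
      omega
  | passR p j =>
    simp only [bt] at h
    split_ifs at h with h1
    simp only [Option.some.injEq] at h
    subst h
    obtain ⟨x, φ, a, b', ψ, c, d, y, rfl, hx⟩ := split2 st (j + 1) (by omega)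
    simp only [List.length_append, List.length_cons] at hst
    have hx' : (fcs x).length = j + 1 := by rw [fcs_len, hx]
    have hd : (fcs x ++ φ :: ψ :: fcs y).drop (j + 3) = fcs y := drop2 hx'
    have hg : (fcs x ++ φ :: ψ :: fcs y).getD (j + 2) true = ψ := getD1 hx'
    simp only [obst, List.take_left' hx, List.drop_left' hx, Multiset.mem_singleton, forall_eq,
      fcs_app, fcs_cons, fs1, List.take_left' hx', hd, getD0 hx', hg]
    cases p
    · simp only [Bool.false_eq_true, if_false, List.length_append, List.length_cons, fcs_cons,
        and_true]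
      omega
    · simp only [if_true, List.length_append, List.length_cons, fcs_cons, and_true]
      omega
  | passL p j =>
    simp only [bt] at h
    split_ifs at h with h1
    simp only [Option.some.injEq] at h
    subst h
    obtain ⟨x, φ, a, b', ψ, c, d, y, rfl, hx⟩ := split2 st (j + 1) (by omega)
    simp only [List.length_append, List.length_cons] at hst
    have hx' : (fcs x).length = j + 1 := by rw [fcs_len, hx]
    have hd : (fcs x ++ φ :: ψ :: fcs y).drop (j + 3) = fcs y := drop2 hx'
    have hg : (fcs x ++ φ :: ψ :: fcs y).getD (j + 2) true = ψ := getD1 hx'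
    simp only [obst, List.take_left' hx, List.drop_left' hx, Multiset.mem_singleton, forall_eq,
      fcs_app, fcs_cons, fs1, List.take_left' hx', hd, getD0 hx', hg]
    cases p
    · simp only [Bool.false_eq_true, if_false, List.length_append, List.length_cons, fcs_cons,
        and_true]
      omega
    · simp only [if_true, List.length_append, List.length_cons, fcs_cons, and_true]
      omega

private theorem sstp_two (T : A ≃+ A) (k : Kd) (a b : A × Bool) (l : List (A × Bool)) :
    sstp (aq T) ⟨k, 2⟩ (a :: b :: l) = (sloc (aq T) k l).map (fun r => a :: b :: r) := by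
  simp [sstp]

private theorem op_eq (T : A ≃+ A) (a b : A) (o o' : Bool) :
    (aq T).op (a, o) (b, o') = (a + ax T o (b - a), o') := rfl

private theorem sy_eq (T : A ≃+ A) (a b : A) (o o' : Bool) :
    ((aq T).op (a, o)).symm (b, o') = (a + ax T (!o) (b - a), o') := rfl

private theorem lc_cross (T : A ≃+ A) (p φ ψ : Bool) (a b c d : A) (r : List (A × Bool)) :
    srun (aq T) [X p 1, X p 0, X p 2, X p 1] ((a, !φ) :: (b, φ) :: (c, !ψ) :: (d, ψ) :: r) =
      {if p then (c - ((b - a) - ax T (!φ) (b - a)), !ψ) ::
          (d - ((b - a) - ax T (!φ) (b - a)), ψ) :: (a, !φ) :: (b, φ) :: r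
        else (c, !ψ) :: (d, ψ) :: (a + ((d - c) - ax T (!ψ) (d - c)), !φ) ::
          (b + ((d - c) - ax T (!ψ) (d - c)), φ) :: r} := by
  cases p
  · simp only [X, Bool.false_eq_true, if_false, srun_cons, sstp_zero, sstp_one, sstp_two,
      srun_nil_bind, sloc, sy_eq, Multiset.singleton_bind, Multiset.map_singleton,
      Multiset.singleton_inj, List.cons.injEq, true_and, Prod.mk.injEq, and_true, Bool.not_not,
      map_sub, map_add, ax_not, ax_not']
    exact ⟨by abel, by abel⟩
  · simp only [X, if_true, srun_cons, sstp_zero, sstp_one, sstp_two,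
      srun_nil_bind, sloc, op_eq, Multiset.singleton_bind, Multiset.map_singleton,
      Multiset.singleton_inj, List.cons.injEq, true_and, Prod.mk.injEq, and_true, Bool.not_not,
      map_sub, map_add, ax_not, ax_not']
    exact ⟨by abel, by abel⟩

private theorem lc_passR (T : A ≃+ A) (p φ ψ : Bool) (a b c d : A) (r : List (A × Bool)) :
    srun (aq T) [X p 1, X p 0, X (!p) 2, X (!p) 1]
        ((a, !φ) :: (b, φ) :: (c, !ψ) :: (d, ψ) :: r) =
      {if p then (c - ((b - a) - ax T (!φ) (b - a)), !ψ) :: (d, ψ) ::
          (d + ax T (!ψ) (a - d), !φ) :: (d + ax T (!ψ) (b - d), φ) :: r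
        else (c, !ψ) :: (d - (ax T ψ (b - a) - ax T (!φ) (ax T ψ (b - a))), ψ) ::
          (c + ax T ψ (a - c), !φ) :: (c + ax T ψ (b - c), φ) :: r} := by
  cases p
  · simp only [X, Bool.not_false, Bool.false_eq_true, if_false, if_true, srun_cons, sstp_zero,
      sstp_one, sstp_two, srun_nil_bind, sloc, sy_eq, op_eq, Multiset.singleton_bind,
      Multiset.map_singleton, Multiset.singleton_inj, List.cons.injEq, true_and, Prod.mk.injEq,
      and_true, Bool.not_not, map_sub, map_add, ax_not, ax_not']
    abel
  · simp only [X, Bool.not_true, Bool.false_eq_true, if_false, if_true, srun_cons, sstp_zero,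
      sstp_one, sstp_two, srun_nil_bind, sloc, sy_eq, op_eq, Multiset.singleton_bind,
      Multiset.map_singleton, Multiset.singleton_inj, List.cons.injEq, true_and, Prod.mk.injEq,
      and_true, Bool.not_not, map_sub, map_add, ax_not, ax_not']
    abel

private theorem lc_passL (T : A ≃+ A) (p φ ψ : Bool) (a b c d : A) (r : List (A × Bool)) :
    srun (aq T) [X p 1, X p 2, X (!p) 0, X (!p) 1]
        ((a, !φ) :: (b, φ) :: (c, !ψ) :: (d, ψ) :: r) =
      {if p then (b + ax T φ (c - b), !ψ) :: (b + ax T φ (d - b), ψ) ::
          (a + (ax T φ (d - c) - ax T (!ψ) (ax T φ (d - c))), !φ) :: (b, φ) :: r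
        else (a + ax T (!φ) (c - a), !ψ) :: (a + ax T (!φ) (d - a), ψ) ::
          (a, !φ) :: (b + ((d - c) - ax T (!ψ) (d - c)), φ) :: r} := by
  cases p
  · simp only [X, Bool.not_false, Bool.false_eq_true, if_false, if_true, srun_cons, sstp_zero,
      sstp_one, sstp_two, srun_nil_bind, sloc, sy_eq, op_eq, Multiset.singleton_bind,
      Multiset.map_singleton, Multiset.singleton_inj, List.cons.injEq, true_and, Prod.mk.injEq,
      and_true, Bool.not_not, map_sub, map_add, ax_not, ax_not']
    abel
  · simp only [X, Bool.not_true, Bool.false_eq_true, if_false, if_true, srun_cons, sstp_zero,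
      sstp_one, sstp_two, srun_nil_bind, sloc, sy_eq, op_eq, Multiset.singleton_bind,
      Multiset.map_singleton, Multiset.singleton_inj, List.cons.injEq, true_and, Prod.mk.injEq,
      and_true, Bool.not_not, map_sub, map_add, ax_not, ax_not']
    abel

private theorem arun_cons (T : A ≃+ A) (s : Sl) (w : Wd) (os : List Bool) (l : List (A × Bool)) :
    arun T (s :: w) os l = (astp T s (os.headD true) l).bind (arun T w (nxt s.k os)) := rfl

private theorem arun_nil (T : A ≃+ A) (os : List Bool) (l : List (A × Bool)) :
    arun T [] os l = {l} := rfl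

/-- number of cups -/
private def ncup (w : Wd) : ℕ := w.countP (fun s => match s.k with | .cup => true | _ => false)

private theorem ncup_cons (s : Sl) (w : Wd) :
    ncup (s :: w) = (match s.k with | .cup => 1 | _ => 0) + ncup w := by
  obtain ⟨k, i⟩ := s
  cases k <;> simp [ncup, List.countP_cons, add_comm]

private theorem arun_append (T : A ≃+ A) (v w : Wd) (o1 o2 : List Bool) (l : List (A × Bool))
    (h : o1.length = ncup v) :
    arun T (v ++ w) (o1 ++ o2) l = (arun T v o1 l).bind (arun T w o2) := by
  induction v generalizing o1 l with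
  | nil =>
    have : o1 = [] := List.length_eq_zero_iff.1 (by simpa [ncup] using h)
    subst this
    simp [arun_nil]
  | cons s v ih =>
    rw [List.cons_append, arun_cons, arun_cons, Multiset.bind_assoc]
    obtain ⟨k, i⟩ := s
    rw [ncup_cons] at h
    cases k with
    | cup =>
      match o1, h with
      | [], h => simp at h; omega
      | o :: o1, h =>
        simp only [List.cons_append, List.headD_cons, nxt, List.tail_cons]
        refine Multiset.bind_congr fun r _ => ih o1 r ?_
        simp only [List.length_cons] at h
        omega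
    | cap =>
      refine Multiset.bind_congr fun r _ => ih o1 r ?_
      simpa using h
    | pos =>
      refine Multiset.bind_congr fun r _ => ih o1 r ?_
      simpa using h
    | neg =>
      refine Multiset.bind_congr fun r _ => ih o1 r ?_
      simpa using h

private theorem arun_nocup (T : A ≃+ A) (w : Wd) (os : List Bool) (l : List (A × Bool))
    (h : ncup w = 0) : arun T w os l = srun (aq T) w l := by
  induction w generalizing os l with
  | nil => rfl
  | cons s w ih =>
    rw [arun_cons, srun_cons]
    obtain ⟨k, i⟩ := s
    rw [ncup_cons] at h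
    cases k with
    | cup => simp at h
    | cap => exact Multiset.bind_congr fun r _ => ih _ r (by simpa using h)
    | pos => exact Multiset.bind_congr fun r _ => ih _ r (by simpa using h)
    | neg => exact Multiset.bind_congr fun r _ => ih _ r (by simpa using h)

/-- a word at the right of `x` -/
private theorem run_at2 (T : A ≃+ A) (x : List (Bool × A × A)) (w : Wd) (r : List (A × Bool)) (v : Wd)
    (hv : v = w.map (fun s => (⟨s.k, (ofl x).length + s.i⟩ : Sl))) :
    srun (aq T) v (ofl x ++ r) = (srun (aq T) w r).map (fun t => ofl x ++ t) := by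
  rw [hv, srun_shift]

private theorem X_nocup (p : Bool) (i : ℕ) (w : Wd) : ncup (X p i :: w) = ncup w := by
  rw [ncup_cons]
  cases p <;> simp [X]

private theorem arun_bd (T : A ≃+ A) (s : Bd) (n m : ℕ) (h : bt s n = some m) (b : Bool)
    (st : List (Bool × A × A)) (hst : st.length = n + 1) (hk : ok1 s (fcs st)) :
    arun T (up (bd s)) (os1 s b (fcs st)) (ofl st) = (obst T s b st).map (fun t => ofl t.2.2) := by
  cases s with
  | birth j =>
    simp only [bt] at h
    split_ifs at h with h1
    obtain ⟨x, y, rfl, hx⟩ := split0 st (j + 1) (by omega)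
    have hi : (ofl x).length = 1 + (2 * j + 1) := by rw [ofl_len, hx]; omega
    simp only [up, bd, List.map_cons, List.map_nil, os1, arun_cons, astp, List.headD_cons, ofl_app,
      List.take_left' hi, List.drop_left' hi, obst, List.take_left' hx, List.drop_left' hx,
      Multiset.bind_map, Multiset.map_map, Function.comp_def, arun_nil, ofl_cons, Bool.not_not]
    rw [Multiset.bind_singleton]
  | death j =>
    simp only [bt] at h
    split_ifs at h with h1
    obtain ⟨x, φ, a, b', y, rfl, hx⟩ := split1 st (j + 1) (by omega)
    rw [arun_nocup T _ _ _ (by simp [up, bd, ncup]), ofl_app,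
      run_at2 T x [⟨.cap, 0⟩] (ofl ((φ, a, b') :: y)) _ (by simp [up, bd, ofl_len, hx]; omega)]
    simp only [obst, List.take_left' hx, List.drop_left' hx, srun_cons, sstp_zero, srun_nil_bind,
      sloc, ofl_cons]
    have e : ((b', φ) = (aq T).bar (a, !φ)) ↔ (a = b') := by
      simp only [aq, Bool.not_not, Prod.mk.injEq, and_true]
      exact eq_comm
    by_cases hab : a = b'
    · rw [if_pos hab, if_pos (e.2 hab)]
      simp only [Multiset.map_singleton, ofl_app]
    · rw [if_neg hab, if_neg (fun h => hab (e.1 h))]
      simp
  | split j =>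
    simp only [bt] at h
    split_ifs at h with h1
    obtain ⟨x, φ, a, b', y, rfl, hx⟩ := split1 st j (by omega)
    have hx' : (fcs x).length = j := by rw [fcs_len, hx]
    have hi : (ofl x ++ [(a, !φ)]).length = 1 + 2 * j := by
      rw [List.length_append, ofl_len, hx, List.length_singleton]; omega
    have hl : ofl (x ++ (φ, a, b') :: y) = (ofl x ++ [(a, !φ)]) ++ (b', φ) :: ofl y := by
      rw [ofl_app, ofl_cons]; simp
    simp only [up, bd, List.map_cons, List.map_nil, os1, arun_cons, astp, List.headD_cons, hl,
      List.take_left' hi, List.drop_left' hi, obst, List.take_left' hx, List.drop_left' hx,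
      Multiset.bind_map, Multiset.map_map, Function.comp_def, arun_nil, fcs_app, fcs_cons,
      getD0 hx']
    rw [Multiset.bind_singleton]
    refine Multiset.map_congr rfl fun c _ => ?_
    rw [ofl_app, ofl_cons, ofl_cons]
    simp
  | merge j =>
    simp only [bt] at h
    split_ifs at h with h1
    obtain ⟨x, φ, a, b', ψ, c, d, y, rfl, hx⟩ := split2 st j (by omega)
    have hx' : (fcs x).length = j := by rw [fcs_len, hx]
    simp only [ok1, fcs_app, fcs_cons, getD0 hx', getD1 hx'] at hk
    subst hk
    rw [arun_nocup T _ _ _ (by simp [up, bd, ncup]), ofl_app,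
      run_at2 T x [⟨.cap, 1⟩] (ofl ((φ, a, b') :: (φ, c, d) :: y)) _
        (by simp [up, bd, ofl_len, hx]; omega)]
    simp only [obst, List.take_left' hx, List.drop_left' hx, srun_cons, sstp_one, srun_nil_bind,
      sloc, ofl_cons]
    have e : ((c, !φ) = (aq T).bar (b', φ)) ↔ (b' = c) := by
      simp only [aq, Prod.mk.injEq, and_true]
      exact eq_comm
    by_cases hab : b' = c
    · rw [if_pos hab, if_pos (e.2 hab)]
      simp only [Multiset.map_singleton, ofl_app, ofl_cons]
    · rw [if_neg hab, if_neg (fun h => hab (e.1 h))]
      simp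
  | twist p j =>
    simp only [bt] at h
    split_ifs at h with h1
    obtain ⟨x, φ, a, b', y, rfl, hx⟩ := split1 st (j + 1) (by omega)
    rw [arun_nocup T _ _ _ (by cases p <;> simp [up, bd, ncup, X]), ofl_app,
      run_at2 T x [X p 0] (ofl ((φ, a, b') :: y)) _ (by simp [up, bd, X, ofl_len, hx]; omega)]
    simp only [obst, List.take_left' hx, List.drop_left' hx]
    cases p
    · simp only [X, Bool.false_eq_true, if_false, srun_cons, sstp_zero, srun_nil_bind, sloc, ofl_cons,
        Multiset.map_singleton, ofl_app, sy_eq, Bool.not_not]
    · simp only [X, if_true, srun_cons, sstp_zero, srun_nil_bind, sloc, ofl_cons,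
        Multiset.map_singleton, ofl_app, op_eq, Bool.not_not]
  | cross p j =>
    simp only [bt] at h
    split_ifs at h with h1
    obtain ⟨x, φ, a, b', ψ, c, d, y, rfl, hx⟩ := split2 st (j + 1) (by omega)
    rw [arun_nocup T _ _ _ (by cases p <;> simp [up, bd, ncup, X]), ofl_app,
      run_at2 T x [X p 1, X p 0, X p 2, X p 1] (ofl ((φ, a, b') :: (ψ, c, d) :: y)) _
        (by simp [up, bd, X, ofl_len, hx]; omega), ofl_cons, ofl_cons, lc_cross]
    simp only [obst, List.take_left' hx, List.drop_left' hx, Multiset.map_singleton, ofl_app]
    cases p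
    · simp only [Bool.false_eq_true, if_false, ofl_cons]
    · simp only [if_true, ofl_cons]
  | passR p j =>
    simp only [bt] at h
    split_ifs at h with h1
    obtain ⟨x, φ, a, b', ψ, c, d, y, rfl, hx⟩ := split2 st (j + 1) (by omega)
    rw [arun_nocup T _ _ _ (by cases p <;> simp [up, bd, ncup, X]), ofl_app,
      run_at2 T x [X p 1, X p 0, X (!p) 2, X (!p) 1] (ofl ((φ, a, b') :: (ψ, c, d) :: y)) _
        (by simp [up, bd, X, ofl_len, hx]; omega), ofl_cons, ofl_cons, lc_passR]
    simp only [obst, List.take_left' hx, List.drop_left' hx, Multiset.map_singleton, ofl_app]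
    cases p
    · simp only [Bool.false_eq_true, if_false, ofl_cons]
    · simp only [if_true, ofl_cons]
  | passL p j =>
    simp only [bt] at h
    split_ifs at h with h1
    obtain ⟨x, φ, a, b', ψ, c, d, y, rfl, hx⟩ := split2 st (j + 1) (by omega)
    rw [arun_nocup T _ _ _ (by cases p <;> simp [up, bd, ncup, X]), ofl_app,
      run_at2 T x [X p 1, X p 2, X (!p) 0, X (!p) 1] (ofl ((φ, a, b') :: (ψ, c, d) :: y)) _
        (by simp [up, bd, X, ofl_len, hx]; omega), ofl_cons, ofl_cons, lc_passL]
    simp only [obst, List.take_left' hx, List.drop_left' hx, Multiset.map_singleton, ofl_app]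
    cases p
    · simp only [Bool.false_eq_true, if_false, ofl_cons]
    · simp only [if_true, ofl_cons]

private theorem os1_len (s : Bd) (b : Bool) (φ : List Bool) :
    (os1 s b φ).length = ncup (up (bd s)) := by
  cases s with
  | birth j => rfl
  | death j => rfl
  | split j => rfl
  | merge j => rfl
  | twist p j => cases p <;> rfl
  | cross p j => cases p <;> rfl
  | passR p j => cases p <;> rfl
  | passL p j => cases p <;> rfl

theorem arun_bdw (T : A ≃+ A) (x : ℕ → Bool) (S : List Bd) (n m k : ℕ) (h : bty S n = some m)
    (st : List (Bool × A × A)) (hst : st.length = n + 1) (hk : okk S k x (fcs st)) :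
    Multiset.card (arun T (up (bdw S)) (oss S k x (fcs st)) (ofl st)) =
      Multiset.card (obrun T x S k st) := by
  induction S generalizing n k st with
  | nil => simp [bdw_nil, up, arun_nil, obrun]
  | cons s S ih =>
    simp only [bty] at h
    cases h1 : bt s n with
    | none => rw [h1] at h; simp at h
    | some q =>
      rw [h1] at h
      have h2 := arun_bd T s n q h1 (x k) st hst hk.1
      have h3 := obst_len T s n q h1 (x k) st hst
      rw [bdw_cons, up_append, oss, arun_append T _ _ _ _ _ (os1_len s (x k) (fcs st)), h2, obrun,
        Multiset.bind_map, Multiset.card_bind, Multiset.card_bind]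
      congr 1
      refine Multiset.map_congr rfl fun t ht => ?_
      simp only [Function.comp_apply, Multiset.card_map]
      obtain ⟨h4, h5⟩ := h3 t ht
      rw [← h5]
      exact ih q (k + bq0 s) h t.2.2 h4 (by rw [h5]; exact hk.2)

end Pool.Agent.H86.RT
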