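import Pool.Agent.H86.RT.OFlat

/-!
# [H86 RT OMEM] The multiset of colourings and the relation `OEv`

Copy of `RB/Mem.lean` (`sp_of_mem`, `mem_of_sp`, `ev_of_mem`, `mem_of_ev`, `bst_cases`, `brun_nodup`) with `OSp`, `OEv`,
`obst`, `obrun` in place of `Sp`, `Ev`, `bst`, `brun`. Differences: a state has facings; at a merge the two facings
are equal by `ok1` (from `okk`), so that the constructor `OSp.merge` applies; in `obst` the flag of `passR p` is
`if p then !ψ else ψ`, of `passL p` it is `if p then φ else !φ`, which after `cases p` are the flags of the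
constructors `prt`, `prf`, `plt`, `plf`. Lengths and facings of the new state: `obst_len`.
-/

set_option autoImplicit false
set_option linter.unusedSectionVars false

namespace Pool.Agent.H86.RT

open Pool.Agent.H86.RB

variable {A : Type} [AddCommGroup A] [Fintype A] [DecidableEq A]

private theorem split0 (st : List (Bool × A × A)) (i : ℕ) (h : i ≤ st.length) :
    ∃ x y, st = x ++ y ∧ x.length = i :=
  ⟨st.take i, st.drop i, (List.take_append_drop i st).symm, by rw [List.length_take]; omega⟩

private theorem split1 (st : List (Bool × A × A)) (i : ℕ) (h : i + 1 ≤ st.length) :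
    ∃ x φ a b y, st = x ++ (φ, a, b) :: y ∧ x.length = i := by
  obtain ⟨x, y, rfl, hx⟩ := split0 st i (by omega)
  rw [List.length_append] at h
  match y, h with
  | (φ, a, b) :: y, _ => exact ⟨x, φ, a, b, y, rfl, hx⟩
  | [], h => simp at h; omega

private theorem split2 (st : List (Bool × A × A)) (i : ℕ) (h : i + 2 ≤ st.length) :
    ∃ x φ a b ψ c d y, st = x ++ (φ, a, b) :: (ψ, c, d) :: y ∧ x.length = i := by
  obtain ⟨x, y, rfl, hx⟩ := split0 st i (by omega)
  rw [List.length_append] at h
  match y, h with
  | (φ, a, b) :: (ψ, c, d) :: y, _ => exact ⟨x, φ, a, b, ψ, c, d, y, rfl, hx⟩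
  | [_], h => simp at h; omega
  | [], h => simp at h; omega

private theorem getD0 {x y : List Bool} {a : Bool} {i : ℕ} (h : x.length = i) :
    (x ++ a :: y).getD i true = a := by
  subst h
  simp [List.getD_eq_getElem?_getD]

private theorem getD1 {x y : List Bool} {a b : Bool} {i : ℕ} (h : x.length = i) :
    (x ++ a :: b :: y).getD (i + 1) true = b := by
  subst h
  simp [List.getD_eq_getElem?_getD]

private theorem osp_of_mem (T : A ≃+ A) (s : Bd) (n m : ℕ) (h : bt s n = some m) (b : Bool)
    (st : List (Bool × A × A)) (hst : st.length = n + 1) (hk : ok1 s (fcs st))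
    (t : List A × List A × List (Bool × A × A))
    (ht : t ∈ obst T s b st) : OSp T s b st t.1 t.2.1 t.2.2 := by
  cases s with
  | birth j =>
    simp only [bt] at h
    split_ifs at h with h1
    obtain ⟨x, y, rfl, hx⟩ := split0 st (j + 1) (by omega)
    simp only [obst, List.take_left' hx, List.drop_left' hx, Multiset.mem_map] at ht
    obtain ⟨c, _, rfl⟩ := ht
    exact OSp.birth j b x y c hx
  | death j =>
    simp only [bt] at h
    split_ifs at h with h1
    obtain ⟨x, φ, a, b', y, rfl, hx⟩ := split1 st (j + 1) (by omega)
    simp only [obst, List.take_left' hx, List.drop_left' hx] at ht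
    split_ifs at ht with hab
    · rw [Multiset.mem_singleton] at ht
      subst ht
      subst hab
      exact OSp.death j b φ x y a hx
    · simp at ht
  | split j =>
    simp only [bt] at h
    split_ifs at h with h1
    obtain ⟨x, φ, a, b', y, rfl, hx⟩ := split1 st j (by omega)
    simp only [obst, List.take_left' hx, List.drop_left' hx, Multiset.mem_map] at ht
    obtain ⟨c, _, rfl⟩ := ht
    exact OSp.split j b φ x y a b' c hx
  | merge j =>
    simp only [bt] at h
    split_ifs at h with h1
    obtain ⟨x, φ, a, b', ψ, c, d, y, rfl, hx⟩ := split2 st j (by omega)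
    have hx' : (fcs x).length = j := by simp [fcs, hx]
    have hk' : (fcs x ++ φ :: ψ :: fcs y).getD j true = (fcs x ++ φ :: ψ :: fcs y).getD (j + 1) true := by
      simpa [ok1, fcs] using hk
    rw [getD0 hx', getD1 hx'] at hk'
    subst hk'
    simp only [obst, List.take_left' hx, List.drop_left' hx] at ht
    split_ifs at ht with hab
    · rw [Multiset.mem_singleton] at ht
      subst ht
      subst hab
      exact OSp.merge j b φ x y a b' d hx
    · simp at ht
  | twist p j =>
    simp only [bt] at h
    split_ifs at h with h1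
    obtain ⟨x, φ, a, b', y, rfl, hx⟩ := split1 st (j + 1) (by omega)
    simp only [obst, List.take_left' hx, List.drop_left' hx, Multiset.mem_singleton] at ht
    subst ht
    cases p
    · exact OSp.twf j b φ x y a b' hx
    · exact OSp.twt j b φ x y a b' hx
  | cross p j =>
    simp only [bt] at h
    split_ifs at h with h1
    obtain ⟨x, φ, a, b', ψ, c, d, y, rfl, hx⟩ := split2 st (j + 1) (by omega)
    simp only [obst, List.take_left' hx, List.drop_left' hx, Multiset.mem_singleton] at ht
    subst ht
    cases p
    · exact OSp.crf j b φ ψ x y a b' c d hx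
    · exact OSp.crt j b φ ψ x y a b' c d hx
  | passR p j =>
    simp only [bt] at h
    split_ifs at h with h1
    obtain ⟨x, φ, a, b', ψ, c, d, y, rfl, hx⟩ := split2 st (j + 1) (by omega)
    simp only [obst, List.take_left' hx, List.drop_left' hx, Multiset.mem_singleton] at ht
    subst ht
    cases p
    · exact OSp.prf j b φ ψ x y a b' c d hx
    · exact OSp.prt j b φ ψ x y a b' c d hx
  | passL p j =>
    simp only [bt] at h
    split_ifs at h with h1
    obtain ⟨x, φ, a, b', ψ, c, d, y, rfl, hx⟩ := split2 st (j + 1) (by omega)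
    simp only [obst, List.take_left' hx, List.drop_left' hx, Multiset.mem_singleton] at ht
    subst ht
    cases p
    · exact OSp.plf j b φ ψ x y a b' c d hx
    · exact OSp.plt j b φ ψ x y a b' c d hx

private theorem mem_of_osp {T : A ≃+ A} {s : Bd} {b : Bool} {st st' : List (Bool × A × A)}
    {c f : List A} (h : OSp T s b st c f st') : (c, f, st') ∈ obst T s b st := by
  cases h with
  | birth j b x y c hx =>
    simp only [obst, List.take_left' hx, List.drop_left' hx, Multiset.mem_map]
    exact ⟨c, Finset.mem_univ_val c, rfl⟩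
  | death j b φ x y c hx =>
    simp [obst, List.take_left' hx, List.drop_left' hx]
  | split j b φ x y a d c hx =>
    simp only [obst, List.take_left' hx, List.drop_left' hx, Multiset.mem_map]
    exact ⟨c, Finset.mem_univ_val c, rfl⟩
  | merge j b φ x y a c d hx =>
    simp [obst, List.take_left' hx, List.drop_left' hx]
  | twt j b φ x y a c hx => simp [obst, List.take_left' hx, List.drop_left' hx]
  | twf j b φ x y a c hx => simp [obst, List.take_left' hx, List.drop_left' hx]
  | crt j b0 φ ψ x y a b c d hx => simp [obst, List.take_left' hx, List.drop_left' hx]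
  | crf j b0 φ ψ x y a b c d hx => simp [obst, List.take_left' hx, List.drop_left' hx]
  | prt j b0 φ ψ x y a b c d hx => simp [obst, List.take_left' hx, List.drop_left' hx]
  | prf j b0 φ ψ x y a b c d hx => simp [obst, List.take_left' hx, List.drop_left' hx]
  | plt j b0 φ ψ x y a b c d hx => simp [obst, List.take_left' hx, List.drop_left' hx]
  | plf j b0 φ ψ x y a b c d hx => simp [obst, List.take_left' hx, List.drop_left' hx]

theorem oev_of_mem (T : A ≃+ A) (x : ℕ → Bool) (S : List Bd) (n m k : ℕ) (h : bty S n = some m)
    (st : List (Bool × A × A)) (hst : st.length = n + 1) (hk : okk S k x (fcs st))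
    (q : List A × List A) (hq : q ∈ obrun T x S k st) :
    ∃ st', OEv T x S k st q.1 q.2 st' ∧ st'.length = m + 1 := by
  induction S generalizing n k st q with
  | nil =>
    simp only [bty, Option.some.injEq] at h
    simp only [obrun, Multiset.mem_singleton] at hq
    subst hq
    subst h
    exact ⟨st, OEv.nil k st, hst⟩
  | cons s S ih =>
    simp only [bty] at h
    cases h1 : bt s n with
    | none => rw [h1] at h; simp at h
    | some r =>
      rw [h1] at h
      rw [obrun, Multiset.mem_bind] at hq
      obtain ⟨t, ht, hq⟩ := hq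
      obtain ⟨r', hr, rfl⟩ := Multiset.mem_map.1 hq
      obtain ⟨h4, h5⟩ := obst_len T s n r h1 (x k) st hst t ht
      obtain ⟨st', h2, h3⟩ := ih r (k + bq0 s) h t.2.2 h4 (by rw [h5]; exact hk.2) r' hr
      exact ⟨st', OEv.cons s S k st t.2.2 st' t.1 r'.1 t.2.1 r'.2
        (osp_of_mem T s n r h1 (x k) st hst hk.1 t ht) h2, h3⟩

theorem mem_of_oev {T : A ≃+ A} {x : ℕ → Bool} {S : List Bd} {k : ℕ}
    {st st' : List (Bool × A × A)} {c f : List A} (h : OEv T x S k st c f st') :
    (c, f) ∈ obrun T x S k st := by
  induction h with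
  | nil k st => simp [obrun]
  | cons s S k st st1 st2 c1 c2 f1 f2 h1 h2 ih =>
    rw [obrun, Multiset.mem_bind]
    exact ⟨(c1, f1, st1), mem_of_osp h1, Multiset.mem_map.2 ⟨(c2, f2), ih, rfl⟩⟩

/-- for every slice, the continuation is a choice of a colour or there is at most one -/
private theorem obst_cases (T : A ≃+ A) (s : Bd) (b : Bool) (st : List (Bool × A × A)) :
    (∃ g : A → List (Bool × A × A),
        obst T s b st = (Finset.univ : Finset A).val.map (fun c => ([c], [], g c))) ∨
      (∃ t, obst T s b st = {t}) ∨ obst T s b st = 0 := by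
  cases s with
  | birth j => exact Or.inl ⟨_, rfl⟩
  | death j =>
    simp only [obst]
    split
    · split_ifs
      · exact Or.inr (Or.inl ⟨_, rfl⟩)
      · exact Or.inr (Or.inr rfl)
    · exact Or.inr (Or.inr rfl)
  | split j =>
    simp only [obst]
    split
    · exact Or.inl ⟨_, rfl⟩
    · exact Or.inr (Or.inr rfl)
  | merge j =>
    simp only [obst]
    split
    · split_ifs
      · exact Or.inr (Or.inl ⟨_, rfl⟩)
      · exact Or.inr (Or.inr rfl)
    · exact Or.inr (Or.inr rfl)
  | twist p j =>
    simp only [obst]
    split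
    · exact Or.inr (Or.inl ⟨_, rfl⟩)
    · exact Or.inr (Or.inr rfl)
  | cross p j =>
    simp only [obst]
    split
    · exact Or.inr (Or.inl ⟨_, rfl⟩)
    · exact Or.inr (Or.inr rfl)
  | passR p j =>
    simp only [obst]
    split
    · exact Or.inr (Or.inl ⟨_, rfl⟩)
    · exact Or.inr (Or.inr rfl)
  | passL p j =>
    simp only [obst]
    split
    · exact Or.inr (Or.inl ⟨_, rfl⟩)
    · exact Or.inr (Or.inr rfl)

/-- a colouring is determined by its choices -/
theorem obrun_nodup (T : A ≃+ A) (x : ℕ → Bool) (S : List Bd) (k : ℕ)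
    (st : List (Bool × A × A)) : ((obrun T x S k st).map Prod.fst).Nodup := by
  induction S generalizing k st with
  | nil => simp [obrun]
  | cons s S ih =>
    have key : ∀ (c1 f1 : List A) (st1 : List (Bool × A × A)),
        (((obrun T x S (k + bq0 s) st1).map (fun q => (c1 ++ q.1, f1 ++ q.2))).map
          Prod.fst).Nodup := by
      intro c1 f1 st1
      have : ((obrun T x S (k + bq0 s) st1).map (fun q => (c1 ++ q.1, f1 ++ q.2))).map Prod.fst =
          ((obrun T x S (k + bq0 s) st1).map Prod.fst).map (fun l => c1 ++ l) := by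
        rw [Multiset.map_map, Multiset.map_map]
        rfl
      rw [this]
      exact (ih (k + bq0 s) st1).map fun l l' h => List.append_cancel_left h
    rw [obrun, Multiset.map_bind]
    rcases obst_cases T s (x k) st with ⟨g, h⟩ | ⟨t, h⟩ | h
    · rw [h, Multiset.bind_map, Multiset.nodup_bind]
      refine ⟨fun c _ => key _ _ _, ?_⟩
      refine Multiset.Nodup.pairwise ?_ Finset.univ.nodup
      intro c _ c' _ hcc
      simp only [Function.onFun]
      rw [Multiset.disjoint_left]
      intro l hl hl'
      simp only [Multiset.mem_map] at hl hl'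
      obtain ⟨q, ⟨r, _, rfl⟩, rfl⟩ := hl
      obtain ⟨q', ⟨r', _, rfl⟩, h2⟩ := hl'
      simp only [List.cons_append, List.nil_append, List.cons.injEq] at h2
      exact hcc h2.1.symm
    · rw [h, Multiset.singleton_bind]
      exact key _ _ _
    · rw [h]
      simp

end Pool.Agent.H86.RT
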