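import Pool.Agent.H86.RB.Defs

/-!
# Colourings of tangle diagrams by a symmetric quandle

`bar` is the colour seen from the other direction, `op a b` the colour of a strand of colour `b` after passing
under a strand of colour `a`.
-/

set_option autoImplicit false

namespace Pool.Agent.H86.RT

open Pool.Agent.H86.RB

/-- symmetric quandles -/
structure Sq (C : Type) where
  bar : C → C
  op : C → C ≃ C
  bar_bar : ∀ a, bar (bar a) = a
  op_bar : ∀ a, op (bar a) = (op a).symm
  bar_op : ∀ a b, bar (op a b) = op a (bar b)
  op_self : ∀ a, op a a = a
  dist : ∀ a b c, op a (op b c) = op (op a b) (op a c)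

variable {C : Type} [Fintype C] [DecidableEq C] (Q : Sq C)

/-- the possible colours of the upper ends of a piece, given the colours of the lower ends (and of the strands on
the right of the piece) -/
def sloc : Kd → List C → Multiset (List C)
  | .cup, r => Finset.univ.val.map (fun c => c :: Q.bar c :: r)
  | .cap, a :: b :: r => if b = Q.bar a then {r} else 0
  | .pos, a :: b :: r => {Q.op a b :: a :: r}
  | .neg, a :: b :: r => {b :: (Q.op b).symm a :: r}
  | _, _ => 0

/-- the same for a slice -/
def sstp (s : Sl) (l : List C) : Multiset (List C) :=
  (sloc Q s.k (l.drop s.i)).map (fun r => l.take s.i ++ r)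

/-- the colours of the upper ends of all colourings of a diagram whose lower ends have the colours `l`, one
entry for every colouring -/
def srun : Wd → List C → Multiset (List C)
  | [], l => {l}
  | s :: w, l => (sstp Q s l).bind (srun w)

theorem srun_nil (l : List C) : srun Q [] l = {l} := rfl

theorem srun_cons (s : Sl) (w : Wd) (l : List C) :
    srun Q (s :: w) l = (sstp Q s l).bind (srun Q w) := rfl

theorem srun_append (v w : Wd) (l : List C) :
    srun Q (v ++ w) l = (srun Q v l).bind (srun Q w) := by
  induction v generalizing l with
  | nil => simp [srun_nil]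
  | cons s v ih =>
    rw [List.cons_append, srun_cons, srun_cons, Multiset.bind_assoc]
    exact Multiset.bind_congr fun r _ => ih r

theorem srun_nil_bind (m : Multiset (List C)) : m.bind (srun Q []) = m := by
  have : (srun Q [] : List C → Multiset (List C)) = fun l => {l} := rfl
  rw [this]
  exact Multiset.bind_singleton m id |>.trans (Multiset.map_id m)

theorem sstp_shift (k : Kd) (j : ℕ) (x l : List C) :
    sstp Q ⟨k, x.length + j⟩ (x ++ l) = (sstp Q ⟨k, j⟩ l).map (fun r => x ++ r) := by
  simp only [sstp, List.drop_append, Multiset.map_map, Function.comp_def]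
  rw [List.take_append, List.drop_of_length_le (by omega), List.take_of_length_le (by omega)]
  simp

theorem srun_shift (w : Wd) (x l : List C) :
    srun Q (w.map (fun s => (⟨s.k, x.length + s.i⟩ : Sl))) (x ++ l) =
      (srun Q w l).map (fun r => x ++ r) := by
  induction w generalizing l with
  | nil => simp [srun_nil]
  | cons s w ih =>
    rw [List.map_cons, srun_cons, srun_cons, sstp_shift, Multiset.bind_map, Multiset.map_bind]
    exact Multiset.bind_congr fun r _ => ih r

/-- a piece does not see what is on its right -/
theorem sloc_right (k : Kd) (l r : List C) (h : k.nin ≤ l.length) :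
    sloc Q k (l ++ r) = (sloc Q k l).map (fun t => t ++ r) := by
  cases k with
  | cup => simp [sloc, Multiset.map_map]
  | cap =>
    match l, h with
    | a :: b :: l, _ =>
      by_cases hab : b = Q.bar a
      · simp [sloc, hab]
      · simp [sloc, hab]
  | pos =>
    match l, h with
    | a :: b :: l, _ => simp [sloc]
  | neg =>
    match l, h with
    | a :: b :: l, _ => simp [sloc]

theorem sstp_right (s : Sl) (l r : List C) (h : s.i + s.k.nin ≤ l.length) :
    sstp Q s (l ++ r) = (sstp Q s l).map (fun t => t ++ r) := by
  unfold sstp
  rw [List.drop_append_of_le_length (by omega), List.take_append_of_le_length (by omega),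
    sloc_right _ _ _ _ (by rw [List.length_drop]; omega), Multiset.map_map, Multiset.map_map]
  simp

theorem sloc_len (k : Kd) (l t : List C) (h : k.nin ≤ l.length) (ht : t ∈ sloc Q k l) :
    t.length = l.length - k.nin + k.nout := by
  cases k with
  | cup =>
    simp only [sloc, Multiset.mem_map] at ht
    obtain ⟨c, _, rfl⟩ := ht
    simp [Kd.nin, Kd.nout]
  | cap =>
    match l, h with
    | a :: b :: l, _ =>
      by_cases hab : b = Q.bar a
      · simp only [sloc, hab, if_true, Multiset.mem_singleton] at ht
        subst ht
        simp [Kd.nin, Kd.nout]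
      · simp [sloc, hab] at ht
  | pos =>
    match l, h with
    | a :: b :: l, _ =>
      simp only [sloc, Multiset.mem_singleton] at ht
      subst ht
      simp [Kd.nin, Kd.nout]
  | neg =>
    match l, h with
    | a :: b :: l, _ =>
      simp only [sloc, Multiset.mem_singleton] at ht
      subst ht
      simp [Kd.nin, Kd.nout]

theorem sstp_len (s : Sl) (l t : List C) (h : s.i + s.k.nin ≤ l.length)
    (ht : t ∈ sstp Q s l) : t.length = l.length - s.k.nin + s.k.nout := by
  simp only [sstp, Multiset.mem_map] at ht
  obtain ⟨r, hr, rfl⟩ := ht
  have h1 := sloc_len Q s.k (l.drop s.i) r (by rw [List.length_drop]; omega) hr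
  rw [List.length_drop] at h1
  rw [List.length_append, List.length_take, h1]
  omega

theorem srun_len (w : Wd) (l : List C) (m : ℕ) (h : ty w l.length = some m) :
    ∀ t ∈ srun Q w l, t.length = m := by
  induction w generalizing l with
  | nil =>
    intro t ht
    rw [srun_nil, Multiset.mem_singleton] at ht
    subst ht
    simpa [ty] using h
  | cons s w ih =>
    intro t ht
    rw [srun_cons, Multiset.mem_bind] at ht
    obtain ⟨r, hr, ht⟩ := ht
    have h0 : ty (s :: w) l.length =
      if s.i + s.k.nin ≤ l.length then ty w (l.length - s.k.nin + s.k.nout) else none := rfl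
    rw [h0] at h
    split_ifs at h with h1
    refine ih r ?_ t ht
    rw [sstp_len Q s l r h1 hr]
    exact h

end Pool.Agent.H86.RT
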