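import Pool.Agent.H86.RT.Sq
import Pool.Agent.H86.RB.Run

/-!
# Invariance of the number of colourings under isotopy
-/

set_option autoImplicit false

namespace Pool.Agent.H86.RT

open Pool.Agent.H86.RB

variable {C : Type} [Fintype C] [DecidableEq C] (Q : Sq C)

theorem sstp_zero (k : Kd) (l : List C) : sstp Q ⟨k, 0⟩ l = sloc Q k l := by
  simp [sstp]

theorem srun_comm (k l : Kd) (i m : ℕ) (L : List C) (h : i + k.nin + m + l.nin ≤ L.length) :
    srun Q [⟨k, i⟩, ⟨l, i + k.nout + m⟩] L = srun Q [⟨l, i + k.nin + m⟩, ⟨k, i⟩] L := by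
  obtain ⟨x, L1, rfl, hx⟩ : ∃ x L1, L = x ++ L1 ∧ x.length = i :=
    ⟨L.take i, L.drop i, (List.take_append_drop i L).symm, by rw [List.length_take]; omega⟩
  subst hx
  rw [List.length_append] at h
  obtain ⟨y, L2, rfl, hy⟩ : ∃ y L2, L1 = y ++ L2 ∧ y.length = k.nin :=
    ⟨L1.take k.nin, L1.drop k.nin, (List.take_append_drop _ L1).symm, by rw [List.length_take]; omega⟩
  rw [List.length_append] at h
  obtain ⟨z, t, rfl, hz⟩ : ∃ z t, L2 = z ++ t ∧ z.length = m :=
    ⟨L2.take m, L2.drop m, (List.take_append_drop _ L2).symm, by rw [List.length_take]; omega⟩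
  subst hz
  rw [List.length_append] at h
  -- common form
  have hL : srun Q [⟨k, x.length⟩, ⟨l, x.length + k.nout + z.length⟩] (x ++ (y ++ (z ++ t))) =
      (sloc Q k y).bind fun y' => (sloc Q l t).map fun t' => x ++ (y' ++ (z ++ t')) := by
    rw [srun_cons]
    have e1 : sstp Q ⟨k, x.length⟩ (x ++ (y ++ (z ++ t))) =
        (sloc Q k y).map (fun y' => x ++ (y' ++ (z ++ t))) := by
      have := sstp_shift Q k 0 x (y ++ (z ++ t))
      rw [Nat.add_zero] at this
      rw [this, sstp_zero, sloc_right Q k y (z ++ t) hy.ge, Multiset.map_map]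
      rfl
    rw [e1, Multiset.bind_map]
    refine Multiset.bind_congr fun y' hy' => ?_
    have hlen : y'.length = k.nout := by
      rw [sloc_len Q k y y' hy.ge hy', hy]
      omega
    rw [srun_cons, srun_nil_bind, show x.length + k.nout + z.length = x.length + (y'.length + (z.length + 0)) by
      rw [hlen]; omega, sstp_shift, sstp_shift, sstp_shift, sstp_zero]
    simp only [Multiset.map_map, Function.comp_def]
  have hR : srun Q [⟨l, x.length + k.nin + z.length⟩, ⟨k, x.length⟩] (x ++ (y ++ (z ++ t))) =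
      (sloc Q l t).bind fun t' => (sloc Q k y).map fun y' => x ++ (y' ++ (z ++ t')) := by
    rw [srun_cons, show x.length + k.nin + z.length = x.length + (y.length + (z.length + 0)) by
      rw [hy]; omega, sstp_shift, sstp_shift, sstp_shift, sstp_zero]
    simp only [Multiset.map_map, Function.comp_def]
    rw [Multiset.bind_map]
    refine Multiset.bind_congr fun t' _ => ?_
    have := sstp_shift Q k 0 x (y ++ (z ++ t'))
    rw [Nat.add_zero] at this
    rw [srun_cons, srun_nil_bind, this, sstp_zero, sloc_right Q k y (z ++ t') hy.ge, Multiset.map_map]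
    rfl
  rw [hL, hR, Multiset.bind_map_comm]

theorem sstp_one (k : Kd) (a : C) (l : List C) :
    sstp Q ⟨k, 1⟩ (a :: l) = (sloc Q k l).map (fun r => a :: r) := by
  simp [sstp]

/-- one value of the colour of a cup survives -/
theorem sbind_pick {β : Type} (a : C) (g : C → β) :
    ((Finset.univ : Finset C).val.bind fun c => if c = a then ({g c} : Multiset β) else 0) =
      {g a} := by
  have h : (Finset.univ : Finset C).val = a ::ₘ ((Finset.univ : Finset C).erase a).val := by
    rw [Finset.erase_val, Multiset.cons_erase]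
    exact Finset.mem_univ a
  rw [h, Multiset.cons_bind, if_pos rfl]
  have h2 : (((Finset.univ : Finset C).erase a).val.bind
      fun c => if c = a then ({g c} : Multiset β) else 0) = 0 := by
    have : ∀ c ∈ ((Finset.univ : Finset C).erase a).val,
        (if c = a then ({g c} : Multiset β) else 0) = 0 := by
      intro c hc
      rw [if_neg (Finset.ne_of_mem_erase hc)]
    rw [Multiset.bind_congr this, Multiset.bind_zero]
  rw [h2, add_zero]

omit [DecidableEq C] in
/-- a substitution of the colour of a cup -/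
theorem smap_subst {β : Type} (e : C ≃ C) (g : C → β) :
    ((Finset.univ : Finset C).val.map fun c => g (e c)) =
      (Finset.univ : Finset C).val.map g := by
  have h : (Finset.univ : Finset C).val.map e = (Finset.univ : Finset C).val := by
    have := congrArg Finset.val (Finset.map_univ_equiv e)
    rwa [Finset.map_val] at this
  calc ((Finset.univ : Finset C).val.map fun c => g (e c))
      = ((Finset.univ : Finset C).val.map e).map g := by
        rw [Multiset.map_map]; rfl
    _ = _ := by rw [h]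

omit [Fintype C] [DecidableEq C] in
theorem Sq.bar_inj {a b : C} : Q.bar a = Q.bar b ↔ a = b := by
  constructor
  · intro h
    have := congrArg Q.bar h
    rwa [Q.bar_bar, Q.bar_bar] at this
  · intro h; rw [h]

omit [Fintype C] [DecidableEq C] in
theorem Sq.symm_self (a : C) : (Q.op a).symm a = a := by
  rw [Equiv.symm_apply_eq, Q.op_self]

omit [Fintype C] [DecidableEq C] in
theorem Sq.bar_symm (a b : C) : Q.bar ((Q.op a).symm b) = (Q.op a).symm (Q.bar b) := by
  rw [← Q.op_bar a, ← Q.bar_op]

/-- the involution as an equivalence -/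
def Sq.be : C ≃ C where
  toFun := Q.bar
  invFun := Q.bar
  left_inv := Q.bar_bar
  right_inv := Q.bar_bar

theorem sloc_zig (a : C) (r : List C) :
    srun Q [⟨.cup, 0⟩, ⟨.cap, 1⟩] (a :: r) = {a :: r} := by
  rw [srun_cons, sstp_zero]
  simp only [sloc, Multiset.bind_map]
  rw [← sbind_pick a (fun c => c :: r)]
  refine Multiset.bind_congr fun c _ => ?_
  rw [srun_cons, srun_nil_bind, sstp_one]
  simp only [sloc, Q.bar_bar]
  by_cases h : c = a
  · simp [h]
  · rw [if_neg h, if_neg (fun e => h e.symm)]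
    simp

theorem sloc_zag (a : C) (r : List C) :
    srun Q [⟨.cup, 1⟩, ⟨.cap, 0⟩] (a :: r) = {a :: r} := by
  rw [srun_cons, sstp_one]
  simp only [sloc, Multiset.bind_map, Multiset.map_map, Function.comp_def]
  have h0 := sbind_pick (C := C) (Q.bar a) (fun c => Q.bar c :: r)
  rw [Q.bar_bar] at h0
  rw [← h0]
  refine Multiset.bind_congr fun c _ => ?_
  rw [srun_cons, srun_nil_bind, sstp_zero]
  simp only [sloc]

theorem sloc_r1a (a b : C) (r : List C) :
    srun Q [⟨.pos, 0⟩, ⟨.cap, 0⟩] (a :: b :: r) = srun Q [⟨.cap, 0⟩] (a :: b :: r) := by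
  simp only [srun_cons, sstp_zero, srun_nil_bind, sloc, Multiset.singleton_bind]
  have : (a = Q.bar (Q.op a b)) ↔ (b = Q.bar a) := by
    rw [Q.bar_op]
    constructor
    · intro h
      have h2 : (Q.op a).symm a = Q.bar b := by rw [Equiv.symm_apply_eq]; exact h
      rw [Q.symm_self] at h2
      rw [h2, Q.bar_bar]
    · intro h
      rw [h, Q.bar_bar, Q.op_self]
  simp only [this]

theorem sloc_r1b (a b : C) (r : List C) :
    srun Q [⟨.neg, 0⟩, ⟨.cap, 0⟩] (a :: b :: r) = srun Q [⟨.cap, 0⟩] (a :: b :: r) := by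
  simp only [srun_cons, sstp_zero, srun_nil_bind, sloc, Multiset.singleton_bind]
  have : ((Q.op b).symm a = Q.bar b) ↔ (b = Q.bar a) := by
    rw [Equiv.symm_apply_eq, ← Q.bar_op, Q.op_self]
    constructor
    · intro h; rw [h, Q.bar_bar]
    · intro h; rw [h, Q.bar_bar]
  simp only [this]

theorem sloc_r1c (r : List C) :
    srun Q [⟨.cup, 0⟩, ⟨.pos, 0⟩] r = srun Q [⟨.cup, 0⟩] r := by
  simp only [srun_cons, sstp_zero, srun_nil, sloc, Multiset.bind_map, Multiset.singleton_bind]
  rw [Multiset.bind_singleton, Multiset.bind_singleton,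
    ← smap_subst (Q.be) (fun c => c :: Q.bar c :: r)]
  refine Multiset.map_congr rfl fun c _ => ?_
  have h1 : Q.op c (Q.bar c) = Q.bar c := by rw [← Q.bar_op, Q.op_self]
  have h2 : Q.be c = Q.bar c := rfl
  rw [h1, h2, Q.bar_bar]

theorem sloc_r1d (r : List C) :
    srun Q [⟨.cup, 0⟩, ⟨.neg, 0⟩] r = srun Q [⟨.cup, 0⟩] r := by
  simp only [srun_cons, sstp_zero, srun_nil, sloc, Multiset.bind_map, Multiset.singleton_bind]
  rw [Multiset.bind_singleton, Multiset.bind_singleton,
    ← smap_subst (Q.be) (fun c => c :: Q.bar c :: r)]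
  refine Multiset.map_congr rfl fun c _ => ?_
  have h1 : (Q.op (Q.bar c)).symm c = c := by
    rw [Q.op_bar, Equiv.symm_symm, Q.op_self]
  have h2 : Q.be c = Q.bar c := rfl
  rw [h1, h2, Q.bar_bar]

theorem sloc_r2a (a b : C) (r : List C) :
    srun Q [⟨.pos, 0⟩, ⟨.neg, 0⟩] (a :: b :: r) = {a :: b :: r} := by
  simp only [srun_cons, sstp_zero, srun_nil_bind, sloc, Multiset.singleton_bind]
  rw [Equiv.symm_apply_apply]

theorem sloc_r2b (a b : C) (r : List C) :
    srun Q [⟨.neg, 0⟩, ⟨.pos, 0⟩] (a :: b :: r) = {a :: b :: r} := by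
  simp only [srun_cons, sstp_zero, srun_nil_bind, sloc, Multiset.singleton_bind]
  rw [Equiv.apply_symm_apply]

theorem sloc_r3 (a b c : C) (r : List C) :
    srun Q [⟨.pos, 0⟩, ⟨.pos, 1⟩, ⟨.pos, 0⟩] (a :: b :: c :: r) =
      srun Q [⟨.pos, 1⟩, ⟨.pos, 0⟩, ⟨.pos, 1⟩] (a :: b :: c :: r) := by
  simp only [srun_cons, sstp_zero, sstp_one, srun_nil_bind, sloc, Multiset.singleton_bind,
    Multiset.map_singleton]
  rw [Q.dist a b c]

theorem sloc_sla (a b c : C) (r : List C) :
    srun Q [⟨.pos, 1⟩, ⟨.cap, 0⟩] (a :: b :: c :: r) =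
      srun Q [⟨.neg, 0⟩, ⟨.cap, 1⟩] (a :: b :: c :: r) := by
  simp only [srun_cons, sstp_zero, sstp_one, srun_nil_bind, sloc, Multiset.singleton_bind,
    Multiset.map_singleton]
  have h0 : (Q.op b c = Q.bar a) ↔ (c = Q.bar ((Q.op b).symm a)) := by
    rw [Q.bar_symm, Equiv.eq_symm_apply]
  by_cases h : Q.op b c = Q.bar a
  · rw [if_pos h, if_pos (h0.1 h), Multiset.map_singleton]
  · rw [if_neg h, if_neg (fun e => h (h0.2 e)), Multiset.map_zero]

theorem sloc_slb (a b c : C) (r : List C) :
    srun Q [⟨.neg, 1⟩, ⟨.cap, 0⟩] (a :: b :: c :: r) =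
      srun Q [⟨.pos, 0⟩, ⟨.cap, 1⟩] (a :: b :: c :: r) := by
  simp only [srun_cons, sstp_zero, sstp_one, srun_nil_bind, sloc, Multiset.singleton_bind,
    Multiset.map_singleton]
  by_cases h : c = Q.bar a
  · rw [if_pos h, if_pos h, Multiset.map_singleton, h, Q.op_bar, Equiv.symm_symm]
  · rw [if_neg h, if_neg h, Multiset.map_zero]

theorem sloc_slc (a : C) (r : List C) :
    srun Q [⟨.cup, 0⟩, ⟨.pos, 1⟩] (a :: r) = srun Q [⟨.cup, 1⟩, ⟨.neg, 0⟩] (a :: r) := by
  simp only [srun_cons, sstp_zero, sstp_one, srun_nil_bind, sloc, Multiset.bind_map, Multiset.map_map,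
    Multiset.map_singleton, Function.comp_def, Q.op_bar]

theorem sloc_sld (a : C) (r : List C) :
    srun Q [⟨.cup, 0⟩, ⟨.neg, 1⟩] (a :: r) = srun Q [⟨.cup, 1⟩, ⟨.pos, 0⟩] (a :: r) := by
  simp only [srun_cons, sstp_zero, sstp_one, srun_nil_bind, sloc, Multiset.bind_map, Multiset.map_map,
    Multiset.map_singleton, Function.comp_def]
  rw [Multiset.bind_singleton, Multiset.bind_singleton]
  have := smap_subst (C := C) (Q.op a) (fun c => c :: a :: (Q.op a).symm (Q.bar c) :: r)
  rw [← this]
  refine Multiset.map_congr rfl fun c _ => ?_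
  rw [Q.bar_op, Equiv.symm_apply_apply]

/-- a local move of pieces at height `0`, moved to the right -/
theorem srun_at (x : List C) {v w : Wd} {r : List C} (h : srun Q v r = srun Q w r) :
    srun Q (v.map (fun s => (⟨s.k, x.length + s.i⟩ : Sl))) (x ++ r) =
      srun Q (w.map (fun s => (⟨s.k, x.length + s.i⟩ : Sl))) (x ++ r) := by
  rw [srun_shift, srun_shift, h]

omit [Fintype C] [DecidableEq C] in
theorem sexists_app (L : List C) (i : ℕ) (h : i ≤ L.length) :
    ∃ x r, L = x ++ r ∧ x.length = i :=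
  ⟨L.take i, L.drop i, (List.take_append_drop i L).symm, by rw [List.length_take]; omega⟩

omit [Fintype C] [DecidableEq C] in
theorem sexists_app1 (L : List C) (i : ℕ) (h : i + 1 ≤ L.length) :
    ∃ x a r, L = x ++ a :: r ∧ x.length = i := by
  obtain ⟨x, r, rfl, hx⟩ := sexists_app L i (by omega)
  rw [List.length_append] at h
  match r, h with
  | a :: r, _ => exact ⟨x, a, r, rfl, hx⟩
  | [], h => simp at h; omega

omit [Fintype C] [DecidableEq C] in
theorem sexists_app2 (L : List C) (i : ℕ) (h : i + 2 ≤ L.length) :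
    ∃ x a b r, L = x ++ a :: b :: r ∧ x.length = i := by
  obtain ⟨x, r, rfl, hx⟩ := sexists_app L i (by omega)
  rw [List.length_append] at h
  match r, h with
  | a :: b :: r, _ => exact ⟨x, a, b, r, rfl, hx⟩
  | [a], h => simp at h; omega
  | [], h => simp at h; omega

omit [Fintype C] [DecidableEq C] in
theorem sexists_app3 (L : List C) (i : ℕ) (h : i + 3 ≤ L.length) :
    ∃ x a b c r, L = x ++ a :: b :: c :: r ∧ x.length = i := by
  obtain ⟨x, r, rfl, hx⟩ := sexists_app L i (by omega)
  rw [List.length_append] at h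
  match r, h with
  | a :: b :: c :: r, _ => exact ⟨x, a, b, c, r, rfl, hx⟩
  | [a, b], h => simp at h; omega
  | [a], h => simp at h; omega
  | [], h => simp at h; omega

theorem srun_mv {v w : Wd} (h : Mv v w) (L : List C) {m m' : ℕ}
    (hv : ty v L.length = some m) (hw : ty w L.length = some m') : srun Q v L = srun Q w L := by
  cases h with
  | comm k l i m =>
    refine srun_comm Q k l i m L ?_
    simp only [ty_cons, ty_nil] at hw
    split_ifs at hw with h1 h2
    exact h1
  | zig i =>
    simp only [ty_cons, ty_nil, Kd.nin, Kd.nout] at hv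
    split_ifs at hv with h1 h2
    obtain ⟨x, a, r, rfl, rfl⟩ := sexists_app1 L i (by omega)
    exact srun_at Q (w := []) x (sloc_zig Q a r)
  | zag i =>
    simp only [ty_cons, ty_nil, Kd.nin, Kd.nout] at hv
    split_ifs at hv with h1 h2
    obtain ⟨x, a, r, rfl, rfl⟩ := sexists_app1 L i (by omega)
    exact srun_at Q (w := []) x (sloc_zag Q a r)
  | r1a i =>
    simp only [ty_cons, ty_nil, Kd.nin, Kd.nout] at hv
    split_ifs at hv with h1 h2
    obtain ⟨x, a, b, r, rfl, rfl⟩ := sexists_app2 L i (by omega)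
    exact srun_at Q x (sloc_r1a Q a b r)
  | r1b i =>
    simp only [ty_cons, ty_nil, Kd.nin, Kd.nout] at hv
    split_ifs at hv with h1 h2
    obtain ⟨x, a, b, r, rfl, rfl⟩ := sexists_app2 L i (by omega)
    exact srun_at Q x (sloc_r1b Q a b r)
  | r1c i =>
    simp only [ty_cons, ty_nil, Kd.nin, Kd.nout] at hv
    split_ifs at hv with h1 h2
    obtain ⟨x, r, rfl, rfl⟩ := sexists_app L i (by omega)
    exact srun_at Q x (sloc_r1c Q r)
  | r1d i =>
    simp only [ty_cons, ty_nil, Kd.nin, Kd.nout] at hv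
    split_ifs at hv with h1 h2
    obtain ⟨x, r, rfl, rfl⟩ := sexists_app L i (by omega)
    exact srun_at Q x (sloc_r1d Q r)
  | r2a i =>
    simp only [ty_cons, ty_nil, Kd.nin, Kd.nout] at hv
    split_ifs at hv with h1 h2
    obtain ⟨x, a, b, r, rfl, rfl⟩ := sexists_app2 L i (by omega)
    exact srun_at Q (w := []) x (sloc_r2a Q a b r)
  | r2b i =>
    simp only [ty_cons, ty_nil, Kd.nin, Kd.nout] at hv
    split_ifs at hv with h1 h2
    obtain ⟨x, a, b, r, rfl, rfl⟩ := sexists_app2 L i (by omega)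
    exact srun_at Q (w := []) x (sloc_r2b Q a b r)
  | r3 i =>
    simp only [ty_cons, ty_nil, Kd.nin, Kd.nout] at hv
    split_ifs at hv with h1 h2
    obtain ⟨x, a, b, c, r, rfl, rfl⟩ := sexists_app3 L i (by omega)
    exact srun_at Q x (sloc_r3 Q a b c r)
  | sla i =>
    simp only [ty_cons, ty_nil, Kd.nin, Kd.nout] at hv
    split_ifs at hv with h1 h2
    obtain ⟨x, a, b, c, r, rfl, rfl⟩ := sexists_app3 L i (by omega)
    exact srun_at Q x (sloc_sla Q a b c r)
  | slb i =>
    simp only [ty_cons, ty_nil, Kd.nin, Kd.nout] at hv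
    split_ifs at hv with h1 h2
    obtain ⟨x, a, b, c, r, rfl, rfl⟩ := sexists_app3 L i (by omega)
    exact srun_at Q x (sloc_slb Q a b c r)
  | slc i =>
    simp only [ty_cons, ty_nil, Kd.nin, Kd.nout] at hv
    split_ifs at hv with h1 h2
    obtain ⟨x, a, r, rfl, rfl⟩ := sexists_app1 L i (by omega)
    exact srun_at Q x (sloc_slc Q a r)
  | sld i =>
    simp only [ty_cons, ty_nil, Kd.nin, Kd.nout] at hv
    split_ifs at hv with h1 h2
    obtain ⟨x, a, r, rfl, rfl⟩ := sexists_app1 L i (by omega)
    exact srun_at Q x (sloc_sld Q a r)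

theorem srun_step {v w : Wd} (h : Step v w) {m m' : ℕ} (L : List C)
    (hv : ty v L.length = some m) (hw : ty w L.length = some m') : srun Q v L = srun Q w L := by
  obtain ⟨a, b, x, y, hxy, rfl, rfl⟩ := h
  rw [ty_append, ty_append] at hv hw
  cases ha : ty a L.length with
  | none => rw [ha] at hv; simp at hv
  | some n =>
    rw [ha] at hv hw
    simp only [Option.bind_some] at hv hw
    have hx : ∃ p, ty x n = some p := by
      cases h1 : ty x n with
      | none => rw [h1] at hv; simp at hv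
      | some p => exact ⟨p, rfl⟩
    have hy : ∃ p, ty y n = some p := by
      cases h1 : ty y n with
      | none => rw [h1] at hw; simp at hw
      | some p => exact ⟨p, rfl⟩
    obtain ⟨p, hp⟩ := hx
    obtain ⟨p', hp'⟩ := hy
    rw [srun_append, srun_append, srun_append, srun_append]
    congr 1
    refine Multiset.bind_congr fun l hl => ?_
    have hlen := srun_len Q a L n ha l hl
    exact srun_mv Q hxy l (by rw [hlen]; exact hp) (by rw [hlen]; exact hp')

theorem srun_adj {v w : Wd} (h : Adj v w) (c : C) : srun Q v [c] = srun Q w [c] := by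
  obtain ⟨hv, hw, h⟩ := h
  have e : ([c] : List C).length = 1 := rfl
  rcases h with h | h
  · rw [srun_step Q h [c] (by rw [e]; exact hv) (by rw [e]; exact hw)]
  · rw [srun_step Q h [c] (by rw [e]; exact hw) (by rw [e]; exact hv)]

theorem srun_iso {v w : Wd} (h : Iso v w) (c : C) : srun Q v [c] = srun Q w [c] := by
  induction h with
  | refl => rfl
  | tail _ h ih => rw [ih, srun_adj Q h]

end Pool.Agent.H86.RT
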